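import Pool.Agent.SH3.Defs

/-!
# Basic facts: symmetries, disjointness, joining two walks
-/

namespace Pool.Agent.SH3

open Pool.Agent.SHP
open scoped ENNReal NNReal

variable {t : Bool}

theorem steps_neg {s : ℤ × ℤ} (h : s ∈ steps t) : -s ∈ steps t := by
  cases t
  · simp only [steps, Bool.false_eq_true, if_false, Finset.mem_insert,
      Finset.mem_singleton] at h ⊢
    rcases h with h | h | h | h <;> subst h <;> decide
  · simp only [steps, if_true, Finset.mem_insert, Finset.mem_singleton] at h ⊢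
    rcases h with h | h | h | h | h | h <;> subst h <;> decide

theorem steps_rot {s : ℤ × ℤ} (h : s ∈ steps t) : rot t s ∈ steps t := by
  cases t
  · simp only [steps, Bool.false_eq_true, if_false, Finset.mem_insert,
      Finset.mem_singleton] at h ⊢
    rcases h with h | h | h | h <;> subst h <;> decide
  · simp only [steps, if_true, Finset.mem_insert, Finset.mem_singleton] at h ⊢
    rcases h with h | h | h | h | h | h <;> subst h <;> decide

theorem steps_vrefl {s : ℤ × ℤ} (h : s ∈ steps t) : vrefl t s ∈ steps t := by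
  cases t
  · simp only [steps, Bool.false_eq_true, if_false, Finset.mem_insert,
      Finset.mem_singleton] at h ⊢
    rcases h with h | h | h | h <;> subst h <;> decide
  · simp only [steps, if_true, Finset.mem_insert, Finset.mem_singleton] at h ⊢
    rcases h with h | h | h | h | h | h <;> subst h <;> decide

/-- Coordinates of steps are at most one. -/
theorem steps_bound {s : ℤ × ℤ} (h : s ∈ steps t) : |s.1| ≤ 1 ∧ |s.2| ≤ 1 ∧ |ht t s| ≤ 2 := by
  cases t
  · simp only [steps, Bool.false_eq_true, if_false, Finset.mem_insert,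
      Finset.mem_singleton] at h
    rcases h with h | h | h | h <;> subst h <;> decide
  · simp only [steps, if_true, Finset.mem_insert, Finset.mem_singleton] at h
    rcases h with h | h | h | h | h | h <;> subst h <;> decide

/-- A linear map of the plane as an additive homomorphism. -/
def rotHom (t : Bool) : ℤ × ℤ →+ ℤ × ℤ where
  toFun := rot t
  map_zero' := by cases t <;> simp [rot]
  map_add' := by
    intro p q
    cases t
    · simp only [rot, Bool.false_eq_true, if_false, Prod.fst_add, Prod.snd_add, Prod.mk_add_mk,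
        Prod.mk.injEq]
      omega
    · simp only [rot, if_true, Prod.fst_add, Prod.snd_add, Prod.mk_add_mk, Prod.mk.injEq]
      omega

def vreflHom (t : Bool) : ℤ × ℤ →+ ℤ × ℤ where
  toFun := vrefl t
  map_zero' := by cases t <;> simp [vrefl]
  map_add' := by
    intro p q
    cases t
    · refine Prod.ext rfl ?_
      simp only [vrefl, Bool.false_eq_true, if_false, Prod.snd_add]
      ring
    · refine Prod.ext rfl ?_
      simp only [vrefl, if_true, Prod.fst_add, Prod.snd_add]
      ring

def htHom (t : Bool) : ℤ × ℤ →+ ℤ where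
  toFun := ht t
  map_zero' := by cases t <;> simp [ht]
  map_add' := by
    intro p q
    cases t
    · simp only [ht, Bool.false_eq_true, if_false, Prod.snd_add]
      ring
    · simp only [ht, if_true, Prod.fst_add, Prod.snd_add]
      ring

theorem rot_inj (t : Bool) : Function.Injective (rot t) := by
  intro p q h
  cases t
  · simp only [rot, Bool.false_eq_true, if_false, Prod.mk.injEq] at h
    exact Prod.ext (by omega) (by omega)
  · simp only [rot, if_true, Prod.mk.injEq] at h
    exact Prod.ext (by omega) (by omega)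

theorem vrefl_vrefl (t : Bool) (p : ℤ × ℤ) : vrefl t (vrefl t p) = p := by
  cases t
  · exact Prod.ext rfl (by simp [vrefl])
  · exact Prod.ext rfl (by simp [vrefl])

theorem vrefl_inj (t : Bool) : Function.Injective (vrefl t) :=
  Function.LeftInverse.injective (vrefl_vrefl t)

theorem vrefl_fst (t : Bool) (p : ℤ × ℤ) : (vrefl t p).1 = p.1 := rfl

theorem ht_vrefl (t : Bool) (p : ℤ × ℤ) : ht t (vrefl t p) = - ht t p := by
  cases t
  · simp only [ht, vrefl, Bool.false_eq_true, if_false]
    omega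
  · simp only [ht, vrefl, if_true]
    omega

theorem sum_map_hom (f : ℤ × ℤ →+ ℤ × ℤ) (l : List (ℤ × ℤ)) : (l.map f).sum = f l.sum :=
  (map_list_sum f l).symm

theorem sum_map_rot (t : Bool) (l : List (ℤ × ℤ)) : (l.map (rot t)).sum = rot t l.sum :=
  sum_map_hom (rotHom t) l

theorem sum_map_vrefl (t : Bool) (l : List (ℤ × ℤ)) : (l.map (vrefl t)).sum = vrefl t l.sum :=
  sum_map_hom (vreflHom t) l

theorem sum_neg (l : List (ℤ × ℤ)) : (neg l).sum = - l.sum := by
  unfold neg
  exact (map_list_sum (-(AddMonoidHom.id (ℤ × ℤ))) l).symm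

theorem neg_neg (l : List (ℤ × ℤ)) : neg (neg l) = l := by
  simp [neg]

theorem neg_length (l : List (ℤ × ℤ)) : (neg l).length = l.length := by
  simp [neg]

theorem neg_append (u v : List (ℤ × ℤ)) : neg (u ++ v) = neg u ++ neg v := by
  simp [neg]

theorem neg_nil : neg ([] : List (ℤ × ℤ)) = [] := rfl

theorem neg_eq_nil {l : List (ℤ × ℤ)} (h : neg l = []) : l = [] := by
  simpa [neg] using h

theorem neg_injective : Function.Injective neg :=
  Function.LeftInverse.injective neg_neg

theorem rev_injective : Function.Injective rev :=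
  Function.LeftInverse.injective rev_rev

theorem rev_eq_nil {l : List (ℤ × ℤ)} (h : rev l = []) : l = [] := by
  have := rev_length l
  rw [h] at this
  exact List.length_eq_zero_iff.mp this.symm

/-- A factorisation of a mapped list comes from a factorisation of the list. -/
theorem map_eq_append' {f : ℤ × ℤ → ℤ × ℤ} {l u v : List (ℤ × ℤ)} (h : l.map f = u ++ v) :
    ∃ a b, l = a ++ b ∧ a.map f = u ∧ b.map f = v :=
  List.map_eq_append_iff.1 h

theorem map_mem_saws {f : ℤ × ℤ →+ ℤ × ℤ} (hf : Function.Injective f)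
    (hs : ∀ s ∈ steps t, f s ∈ steps t) {l : List (ℤ × ℤ)} (hl : l ∈ saws t) :
    l.map f ∈ saws t := by
  refine ⟨?_, ?_⟩
  · intro s hs'
    obtain ⟨a, ha, rfl⟩ := List.mem_map.1 hs'
    exact hs a (hl.1 a ha)
  · intro u v w h hv
    obtain ⟨a, b, h1, rfl, h2⟩ := map_eq_append' h
    obtain ⟨c, d, h3, rfl, rfl⟩ := map_eq_append' h2
    rw [sum_map_hom] at hv
    have h4 : c.sum = 0 := hf (by rw [hv, map_zero])
    have h5 := hl.2 a c d (by rw [h1, h3]) h4
    rw [h5]
    rfl

theorem rot_mem_saws {l : List (ℤ × ℤ)} (hl : l ∈ saws t) : l.map (rot t) ∈ saws t :=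
  map_mem_saws (f := rotHom t) (rot_inj t) (fun _ h => steps_rot h) hl

theorem vrefl_mem_saws {l : List (ℤ × ℤ)} (hl : l ∈ saws t) : l.map (vrefl t) ∈ saws t :=
  map_mem_saws (f := vreflHom t) (vrefl_inj t) (fun _ h => steps_vrefl h) hl

theorem neg_mem_saws {l : List (ℤ × ℤ)} (hl : l ∈ saws t) : neg l ∈ saws t := by
  have h := map_mem_saws (t := t) (f := -(AddMonoidHom.id (ℤ × ℤ)))
    (fun p q h => by simpa using h) (fun s h => steps_neg h) hl
  exact h

theorem neg_mem_saws_iff {l : List (ℤ × ℤ)} : neg l ∈ saws t ↔ l ∈ saws t :=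
  ⟨fun h => by simpa [neg_neg] using neg_mem_saws h, neg_mem_saws⟩

theorem nil_mem_saws (t : Bool) : ([] : List (ℤ × ℤ)) ∈ saws t := nil_mem_bridges.1.1

theorem Disj.symm {u v : List (ℤ × ℤ)} (h : Disj u v) : Disj v u := by
  intro p q r s hp hq hpq
  exact (h q p s r hq hp hpq.symm).symm

theorem Disj.initial {u v r s : List (ℤ × ℤ)} (h : Disj (u ++ r) (v ++ s)) : Disj u v := by
  intro p q r' s' hp hq hpq
  exact h p q (r' ++ r) (s' ++ s) (by rw [hp]; simp) (by rw [hq]; simp) hpq

theorem Disj.neg {u v : List (ℤ × ℤ)} (h : Disj u v) : Disj (neg u) (neg v) := by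
  intro p q r s hp hq hpq
  have h1 : u = SH3.neg p ++ SH3.neg r := by rw [← neg_append, ← hp, neg_neg]
  have h2 : v = SH3.neg q ++ SH3.neg s := by rw [← neg_append, ← hq, neg_neg]
  obtain ⟨h3, h4⟩ := h _ _ _ _ h1 h2 (by rw [sum_neg, sum_neg, hpq])
  exact ⟨neg_eq_nil h3, neg_eq_nil h4⟩

/-- Joining the reversal of `u` and `v`. -/
theorem rev_append_mem {u v : List (ℤ × ℤ)} (hu : u ∈ saws t) (hv : v ∈ saws t)
    (h : Disj u v) : rev u ++ v ∈ saws t := by
  refine ⟨?_, ?_⟩
  · intro s hs
    rcases List.mem_append.mp hs with h | h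
    · exact (rev_mem_saws hu).1 s h
    · exact hv.1 s h
  · intro a b c habc hb
    rcases List.append_eq_append_iff.mp habc with ⟨a', ha, hv'⟩ | ⟨c', hu', hbc⟩
    · exact hv.2 a' b c (by rw [hv']) hb
    · rcases List.append_eq_append_iff.mp hbc with ⟨x, hx1, hx2⟩ | ⟨x, hx1, hx2⟩
      · exact (rev_mem_saws hu).2 a b x (by rw [hu', hx1]) hb
      · have h1 : u = rev c' ++ rev a := by
          rw [← rev_append, ← hu', rev_rev]
        have h2 : (rev c').sum = x.sum := by
          rw [rev_sum]
          rw [hx1, List.sum_append] at hb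
          exact neg_eq_of_add_eq_zero_right hb
        obtain ⟨h3, h4⟩ := h _ _ _ _ h1 hx2 h2
        rw [hx1, rev_eq_nil h3, h4]
        rfl

theorem disj_of_rev_append {u v : List (ℤ × ℤ)} (h : rev u ++ v ∈ saws t) : Disj u v := by
  intro p q r s hp hq hpq
  have h1 : (rev p ++ q).sum = 0 := by
    rw [List.sum_append, rev_sum, hpq]
    exact neg_add_cancel _
  have h2 := h.2 (rev r) (rev p ++ q) s (by rw [hp, hq, rev_append]; simp) h1
  obtain ⟨h3, h4⟩ := List.append_eq_nil_iff.mp h2
  exact ⟨rev_eq_nil h3, h4⟩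

theorem rev_append_mem_iff {u v : List (ℤ × ℤ)} :
    rev u ++ v ∈ saws t ↔ u ∈ saws t ∧ v ∈ saws t ∧ Disj u v := by
  refine ⟨fun h => ⟨?_, saws_append_right h, disj_of_rev_append h⟩, fun h =>
    rev_append_mem h.1 h.2.1 h.2.2⟩
  have := rev_mem_saws (saws_append_left h)
  rwa [rev_rev] at this

/-- Monotonicity of the weighted generating function. -/
theorem wgf_le {A : Set (List (ℤ × ℤ))} {F G : List (ℤ × ℤ) → ℝ≥0∞} (z : ℝ≥0)
    (h : ∀ l ∈ A, F l ≤ G l) : wgf A F z ≤ wgf A G z :=
  ENNReal.tsum_le_tsum fun l => mul_le_mul_left (h l l.2) _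

theorem wgf_const (A : Set (List (ℤ × ℤ))) (c : ℝ≥0∞) (z : ℝ≥0) :
    wgf A (fun _ => c) z = c * gf A z := by
  unfold wgf gf
  rw [ENNReal.tsum_mul_left]

theorem wgf_add (A : Set (List (ℤ × ℤ))) (F G : List (ℤ × ℤ) → ℝ≥0∞) (z : ℝ≥0) :
    wgf A (fun l => F l + G l) z = wgf A F z + wgf A G z := by
  unfold wgf
  rw [← ENNReal.tsum_add]
  exact tsum_congr fun l => add_mul _ _ _

theorem wgf_mul (A : Set (List (ℤ × ℤ))) (c : ℝ≥0∞) (F : List (ℤ × ℤ) → ℝ≥0∞) (z : ℝ≥0) :
    wgf A (fun l => c * F l) z = c * wgf A F z := by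
  unfold wgf
  rw [← ENNReal.tsum_mul_left]
  exact tsum_congr fun l => mul_assoc _ _ _

/-- A length preserving bijection of `A` onto itself may be inserted into the weight. -/
theorem wgf_comp {A : Set (List (ℤ × ℤ))} (f : List (ℤ × ℤ) → List (ℤ × ℤ))
    (hf : ∀ a ∈ A, f a ∈ A) (hinj : Set.InjOn f A) (hlen : ∀ a ∈ A, (f a).length = a.length)
    (F : List (ℤ × ℤ) → ℝ≥0∞) (z : ℝ≥0) : wgf A (fun l => F (f l)) z ≤ wgf A F z := by
  unfold wgf
  have hI : Function.Injective (fun a : A => (⟨f a, hf a a.2⟩ : A)) := by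
    intro a b hab
    exact Subtype.ext (hinj a.2 b.2 (congrArg Subtype.val hab))
  refine le_trans (le_of_eq ?_) (ENNReal.tsum_comp_le_tsum_of_injective hI
    (fun b : A => F b * (z : ℝ≥0∞) ^ (b : List (ℤ × ℤ)).length))
  refine tsum_congr fun a => ?_
  show _ = F (f a) * (z : ℝ≥0∞) ^ (f a).length
  rw [hlen a a.2]

end Pool.Agent.SH3
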