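import Pool.Agent.SH3.Slln

/-!
# Lower bound for the walks in the cone

`zig t M` is the word of length `2 M` with steps `(1, 0), (1, 0), ...` (square lattice) or
`(1, 0), (1, -1), (1, 0), (1, -1), ...` (triangular lattice).  Its sum is `(2 M, 0)` or `(2 M, -M)`, which
has height zero, all its vertices except the first one are in `cone t`, and each of its steps is an
irreducible bridge, so `zig t M ∈ irrPow t (2 M)`.

Paper proofs.

* `zig_append_mem`: let `β 0, ..., β (k-1)` be irreducible bridges with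
  `|∑_{i<j} ht (β i).sum| + 2 |β j| < 2 M + j` for all `j < k`.  Then
  `zig t M ++ (β 0 ++ ... ++ β (k-1)) ∈ conew t`.  It is a bridge (`bridge_append`), hence self-avoiding.  A
  nonempty start segment is a start segment of `zig t M` (in the cone), or
  `zig t M ++ (β 0 ++ ... ++ β (j-1)) ++ q` with `q` a start segment of `β j`: its
  first coordinate is `2 M + W_j + q.sum.1 ≥ 2 M + j` (`W_j ≥ j` by `bridge_sum_pos`,
  `q.sum.1 ≥ 0` by `halfs`), and its `ht` has absolute value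
  `≤ |S_j| + 2 |q| ≤ |S_j| + 2 |β j| < 2 M + j` (`ht` is additive, `htHom`, `steps_bound`).  A
  point with `|ht t p| < p.1` is in `cone t` (`omega`).
* `cone_sum`: for each `k` let `C_k` be the set of `β : Fin k → irrs t` such that the conditions above
  hold for `j < k` and `∑ |β i| ≤ L (k + 1)`.  If `ω ∈ Gd t M L` then the restriction of `ω` to `Fin k` is
  in `C_k`, so `1 / 2 ≤ QQ t (Gd t M L) ≤ ∑_{β ∈ C_k} ∏ zc ^ |β i|` (law of the first `k` coordinates:
  cylinder sets have measure `∏ nu t {β i}`, `Measure.infinitePi_pi` or `Measure.infinitePi_map_restrict`;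
  `nu_singleton`; the set `Fin k → irrs t` is countable, union bound over `β ∈ C_k` suffices).
  With `z = ρ zc`, `ρ ≤ 1`, `z ^ (2 M + |β|) = z ^ (2 M) zc ^ |β| ρ ^ |β| ≥ z ^ (2 M) ρ ^ (L (k + 1)) zc ^ |β|`.
  The words `zig t M ++ (β 0 ++ ... ++ β (k-1))` are in `irrPow t (2 M + k)` and determine
  `k` (`irrPow_inj`) and `β` (`irr_unique`, repeatedly; `irrPow_unique` removes `zig t M`).  Summing over all
  `k`: `(1 / 2) z ^ (2 M) ∑_k ρ ^ (L (k + 1)) ≤ gf (conew t) z`.
* `cone_large`: `∑_k ρ^(L (k+1)) = ρ^L / (1 - ρ^L) ≥ ρ^L / (L (1 - ρ))`, as `1 - ρ^L ≤ L (1 - ρ)`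
  (Bernoulli); for `z ≥ zc / 2` all the factors are bounded below.
-/

namespace Pool.Agent.SH3

open Pool.Agent.SHP
open scoped ENNReal NNReal
open MeasureTheory

variable {t : Bool}

/-- The straight (or zigzag) word of length `2 M`. -/
def zig (t : Bool) (M : ℕ) : List (ℤ × ℤ) :=
  (List.replicate M [((1 : ℤ), (0 : ℤ)), (1, if t then -1 else 0)]).flatten

/-- Concatenation of the first `k` words of a sequence. -/
def cat (β : ℕ → List (ℤ × ℤ)) : ℕ → List (ℤ × ℤ)
  | 0 => []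
  | k + 1 => cat β k ++ β k

private theorem Cone_zig_succ (t : Bool) (M : ℕ) :
    zig t (M + 1) = ((1 : ℤ), (0 : ℤ)) :: ((1 : ℤ), (if t then -1 else 0 : ℤ)) :: zig t M := by
  unfold zig
  rw [List.replicate_succ, List.flatten_cons]
  rfl

private theorem Cone_zig_zero (t : Bool) : zig t 0 = [] := rfl

private theorem Cone_one {s : ℤ × ℤ} (hs : s ∈ steps t) (h1 : s.1 = 1) : [s] ∈ irrs t := by
  have hsaw : [s] ∈ saws t := by
    refine ⟨fun a ha => ?_, fun u v w h hv => ?_⟩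
    · rw [List.mem_singleton.1 ha]
      exact hs
    · rcases List.cons_eq_append_iff.1 h with ⟨hu, hvw⟩ | ⟨u', hu, hvw⟩
      · rcases List.cons_eq_append_iff.1 hvw.symm with ⟨hv', hw⟩ | ⟨v', hv', hw⟩
        · exact hv'
        · exfalso
          have h2 : v' = [] := by
            have := hw.symm
            simp only [List.append_eq_nil_iff] at this
            exact this.1
          rw [hv', h2] at hv
          simp only [List.sum_cons, List.sum_nil, add_zero] at hv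
          rw [hv] at h1
          simp at h1
      · have := hvw.symm
        simp only [List.append_eq_nil_iff] at this
        exact this.2.1
  have hhalf : [s] ∈ halfs t := by
    refine ⟨hsaw, fun u v h hu => ?_⟩
    rcases List.cons_eq_append_iff.1 h with ⟨hu', _⟩ | ⟨u', hu', hvw⟩
    · exact absurd hu' hu
    · have h2 : u' = [] := by
        have := hvw.symm
        simp only [List.append_eq_nil_iff] at this
        exact this.1
      rw [hu', h2]
      simp [h1]
  have hbr : [s] ∈ bridges t := by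
    refine ⟨hhalf, fun u v h => ?_⟩
    rcases List.cons_eq_append_iff.1 h with ⟨_, hv⟩ | ⟨u', _, hv⟩
    · rw [hv]
      simp [h1]
    · have h2 : v = [] := by
        have := hv.symm
        simp only [List.append_eq_nil_iff] at this
        exact this.2
      rw [h2]
      simp
  refine ⟨hbr, by simp, fun u v h _ _ => ?_⟩
  rcases List.cons_eq_append_iff.1 h with ⟨hu, _⟩ | ⟨u', _, hv⟩
  · exact Or.inl hu
  · right
    have := hv.symm
    simp only [List.append_eq_nil_iff] at this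
    exact this.2

private theorem Cone_stepA (t : Bool) : ((1 : ℤ), (0 : ℤ)) ∈ steps t := by
  cases t <;> decide

private theorem Cone_stepB (t : Bool) : ((1 : ℤ), (if t then -1 else 0 : ℤ)) ∈ steps t := by
  cases t <;> decide

private theorem Cone_zig_irrPow (t : Bool) (M : ℕ) : zig t M ∈ irrPow t (2 * M) := by
  induction M with
  | zero => exact rfl
  | succ M ih =>
    rw [Cone_zig_succ]
    exact ⟨[((1 : ℤ), (0 : ℤ))], Cone_one (Cone_stepA t) rfl,
      ((1 : ℤ), (if t then -1 else 0 : ℤ)) :: zig t M,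
      ⟨[((1 : ℤ), (if t then -1 else 0 : ℤ))], Cone_one (Cone_stepB t) rfl, zig t M, ih, rfl⟩, rfl⟩

private theorem Cone_irrPow_append {J K : ℕ} {u v : List (ℤ × ℤ)} (hu : u ∈ irrPow t J)
    (hv : v ∈ irrPow t K) : u ++ v ∈ irrPow t (J + K) := by
  induction J generalizing u with
  | zero =>
    have h : u = [] := hu
    rw [h, Nat.zero_add]
    exact hv
  | succ J ih =>
    obtain ⟨a, ha, b, hb, rfl⟩ := hu
    rw [Nat.succ_add]
    exact ⟨a, ha, b ++ v, ih hb, List.append_assoc _ _ _⟩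

private theorem Cone_irrPow_one {u : List (ℤ × ℤ)} (hu : u ∈ irrs t) : u ∈ irrPow t 1 :=
  ⟨u, hu, [], rfl, (List.append_nil u).symm⟩

private theorem Cone_cat_irrPow {β : ℕ → List (ℤ × ℤ)} {k : ℕ} (h1 : ∀ j < k, β j ∈ irrs t) :
    cat β k ∈ irrPow t k := by
  induction k with
  | zero => exact rfl
  | succ k ih =>
    exact Cone_irrPow_append (ih fun j hj => h1 j (by omega)) (Cone_irrPow_one (h1 k (by omega)))

private theorem Cone_cat_inj {β γ : ℕ → List (ℤ × ℤ)} {k : ℕ} (h1 : ∀ j < k, β j ∈ irrs t)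
    (h2 : ∀ j < k, γ j ∈ irrs t) (h : cat β k = cat γ k) : ∀ j < k, β j = γ j := by
  induction k with
  | zero => intro j hj; omega
  | succ k ih =>
    have hb : cat β k ∈ irrPow t k := Cone_cat_irrPow fun j hj => h1 j (by omega)
    have hc : cat γ k ∈ irrPow t k := Cone_cat_irrPow fun j hj => h2 j (by omega)
    obtain ⟨e1, e2⟩ := irrPow_unique hb hc (h1 k (by omega)).1.1 (h2 k (by omega)).1.1 h
    intro j hj
    rcases Nat.lt_succ_iff_lt_or_eq.1 hj with hj' | hj'
    · exact ih (fun j hj => h1 j (by omega)) (fun j hj => h2 j (by omega)) e1 j hj'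
    · rw [hj']
      exact e2

private theorem Cone_word_irrPow {β : ℕ → List (ℤ × ℤ)} {k : ℕ} (M : ℕ)
    (h1 : ∀ j < k, β j ∈ irrs t) : zig t M ++ cat β k ∈ irrPow t (2 * M + k) :=
  Cone_irrPow_append (Cone_zig_irrPow t M) (Cone_cat_irrPow h1)

/-- The start segments of the zigzag word. -/
private theorem Cone_zig_take (t : Bool) (M : ℕ) : ∀ n ≤ 2 * M,
    ((zig t M).take n).sum = ((n : ℤ), if t then -((n : ℤ) / 2) else 0) := by
  induction M with
  | zero =>
    intro n hn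
    have : n = 0 := by omega
    subst this
    cases t <;> rfl
  | succ M ih =>
    intro n hn
    rw [Cone_zig_succ]
    rcases n with _ | _ | n
    · cases t <;> rfl
    · cases t <;> rfl
    · rw [List.take_succ_cons, List.take_succ_cons, List.sum_cons, List.sum_cons,
        ih n (by omega)]
      cases t
      · refine Prod.ext ?_ ?_
        · simp only [Bool.false_eq_true, if_false, Prod.fst_add]
          push_cast
          ring
        · simp
      · refine Prod.ext ?_ ?_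
        · simp only [if_true, Prod.fst_add]
          push_cast
          ring
        · simp only [if_true, Prod.snd_add]
          push_cast
          omega

private theorem Cone_zig_length (t : Bool) (M : ℕ) : (zig t M).length = 2 * M := by
  induction M with
  | zero => rfl
  | succ M ih =>
    rw [Cone_zig_succ, List.length_cons, List.length_cons, ih]
    omega

private theorem Cone_zig_sum (t : Bool) (M : ℕ) :
    (zig t M).sum = (2 * (M : ℤ), if t then -(M : ℤ) else 0) := by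
  have h := Cone_zig_take t M (2 * M) le_rfl
  rw [List.take_of_length_le (by rw [Cone_zig_length])] at h
  rw [h]
  cases t
  · simp
  · simp

private theorem Cone_zig_prefix {M : ℕ} {u v : List (ℤ × ℤ)} (h : zig t M = u ++ v)
    (hu : u ≠ []) : u.sum ∈ cone t := by
  have hl : u.length ≤ 2 * M := by
    have := congrArg List.length h
    rw [Cone_zig_length, List.length_append] at this
    omega
  have hup : 0 < u.length := List.length_pos_iff.2 hu
  have h1 := Cone_zig_take t M u.length hl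
  have h2 : (zig t M).take u.length = u := by
    rw [h, List.take_left']
    rfl
  rw [h2] at h1
  rw [h1]
  cases t
  · simp only [cone, Set.mem_ofPred_eq, Bool.false_eq_true, if_false]
    omega
  · simp only [cone, Set.mem_ofPred_eq, if_true]
    omega

private theorem Cone_mem_cone {p : ℤ × ℤ} (h : |ht t p| < p.1) : p ∈ cone t := by
  rw [abs_lt] at h
  cases t
  · simp only [cone, ht, Set.mem_ofPred_eq, Bool.false_eq_true, if_false] at h ⊢
    omega
  · simp only [cone, ht, Set.mem_ofPred_eq, if_true] at h ⊢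
    omega

private theorem Cone_ht_add (p q : ℤ × ℤ) : ht t (p + q) = ht t p + ht t q :=
  map_add (htHom t) p q

private theorem Cone_ht_bound {q : List (ℤ × ℤ)} (hq : ∀ s ∈ q, s ∈ steps t) :
    |ht t q.sum| ≤ 2 * (q.length : ℤ) := by
  induction q with
  | nil =>
    have : ht t (0 : ℤ × ℤ) = 0 := map_zero (htHom t)
    simp [this]
  | cons a q ih =>
    have h1 := (steps_bound (hq a (by simp))).2.2
    have h2 := ih fun s hs => hq s (by simp [hs])
    rw [List.sum_cons, Cone_ht_add, List.length_cons]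
    have h3 := abs_add_le (ht t a) (ht t q.sum)
    push_cast
    linarith

private theorem Cone_cat_ht (β : ℕ → List (ℤ × ℤ)) (j : ℕ) :
    ht t (cat β j).sum = ∑ i ∈ Finset.range j, ht t (β i).sum := by
  induction j with
  | zero => exact map_zero (htHom t)
  | succ j ih =>
    rw [Finset.sum_range_succ, ← ih, ← Cone_ht_add, ← List.sum_append]
    rfl

private theorem Cone_cat_fst {β : ℕ → List (ℤ × ℤ)} {k : ℕ} (h1 : ∀ j < k, β j ∈ irrs t) :
    ∀ j ≤ k, (j : ℤ) ≤ (cat β j).sum.1 := by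
  intro j
  induction j with
  | zero => intro _; simp [cat]
  | succ j ih =>
    intro hj
    have h2 := ih (by omega)
    have h3 := h1 j (by omega)
    have h4 := bridge_sum_pos h3.1 h3.2.1
    have h5 : (cat β (j + 1)).sum.1 = (cat β j).sum.1 + (β j).sum.1 := words_sum_fst _ _
    rw [h5]
    push_cast
    omega

private theorem Cone_cat_prefix (β : ℕ → List (ℤ × ℤ)) (k : ℕ) : ∀ q r : List (ℤ × ℤ),
    cat β k = q ++ r → q = [] ∨ ∃ j < k, ∃ q' r' : List (ℤ × ℤ), β j = q' ++ r' ∧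
      q = cat β j ++ q' := by
  induction k with
  | zero =>
    intro q r h
    left
    have h' : q ++ r = [] := h.symm
    exact (List.append_eq_nil_iff.1 h').1
  | succ k ih =>
    intro q r h
    have h' : cat β k ++ β k = q ++ r := h
    rcases List.append_eq_append_iff.1 h' with ⟨d, hd, hd'⟩ | ⟨d, hd, hd'⟩
    · exact Or.inr ⟨k, by omega, d, r, hd', hd⟩
    · rcases ih q d hd with h0 | ⟨j, hj, q', r', h3, h4⟩
      · exact Or.inl h0
      · exact Or.inr ⟨j, by omega, q', r', h3, h4⟩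

theorem zig_append_mem {β : ℕ → List (ℤ × ℤ)} {k M : ℕ} (h1 : ∀ j < k, β j ∈ irrs t)
    (h2 : ∀ j < k, |∑ i ∈ Finset.range j, ht t (β i).sum| + 2 * ((β j).length : ℤ) < 2 * M + j) :
    zig t M ++ cat β k ∈ conew t := by
  refine ⟨(irrPow_subset _ (Cone_word_irrPow M h1)).1.1, fun u v h hu => ?_⟩
  rcases List.append_eq_append_iff.1 h with ⟨d, hd, hd'⟩ | ⟨d, hd, _⟩
  · rcases Cone_cat_prefix β k d v hd' with h0 | ⟨j, hj, q, r, h3, h4⟩
    · rw [h0, List.append_nil] at hd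
      exact Cone_zig_prefix (v := []) (by rw [hd, List.append_nil]) hu
    · have hir := h1 j hj
      have hq1 : 0 ≤ q.sum.1 := by
        by_cases hq : q = []
        · rw [hq]
          simp
        · exact (hir.1.1.2 q r h3 hq).le
      have hq2 : |ht t q.sum| ≤ 2 * ((β j).length : ℤ) := by
        have h5 : |ht t q.sum| ≤ 2 * (q.length : ℤ) :=
          Cone_ht_bound fun s hs => hir.1.1.1.1 s (by rw [h3]; simp [hs])
        have h6 : q.length ≤ (β j).length := by
          rw [h3, List.length_append]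
          omega
        have h7 : (q.length : ℤ) ≤ ((β j).length : ℤ) := by exact_mod_cast h6
        linarith
      have hs : u.sum = (zig t M).sum + ((cat β j).sum + q.sum) := by
        rw [hd, h4, List.sum_append, List.sum_append]
      have hz : ht t (zig t M).sum = 0 := by
        rw [Cone_zig_sum]
        cases t
        · simp [ht]
        · simp [ht]
      have hh : ht t u.sum = ∑ i ∈ Finset.range j, ht t (β i).sum + ht t q.sum := by
        rw [hs, Cone_ht_add, Cone_ht_add, hz, Cone_cat_ht]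
        ring
      have hf : (2 * M + j : ℤ) ≤ u.sum.1 := by
        have h8 := Cone_cat_fst h1 j hj.le
        have h9 : (zig t M).sum.1 = 2 * (M : ℤ) := by rw [Cone_zig_sum]
        rw [hs, Prod.fst_add, Prod.fst_add, h9]
        linarith
      refine Cone_mem_cone ?_
      rw [hh]
      have h10 := abs_add_le (∑ i ∈ Finset.range j, ht t (β i).sum) (ht t q.sum)
      have h11 := h2 j hj
      linarith
  · exact Cone_zig_prefix hd hu

/-- Extension of a finite sequence of irreducible bridges by empty words. -/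
private def Cone_ext {k : ℕ} (β : Fin k → irrs t) (i : ℕ) : List (ℤ × ℤ) :=
  if h : i < k then (β ⟨i, h⟩ : List (ℤ × ℤ)) else []

private theorem Cone_ext_mem {k : ℕ} (β : Fin k → irrs t) : ∀ j < k, Cone_ext β j ∈ irrs t := by
  intro j hj
  unfold Cone_ext
  rw [dif_pos hj]
  exact (β ⟨j, hj⟩).2

/-- The finite sequences which satisfy the conditions of the good event. -/
private def Cone_C (t : Bool) (M L k : ℕ) : Set (Fin k → irrs t) :=
  {β | (∀ j < k, |∑ i ∈ Finset.range j, ht t (Cone_ext β i).sum| +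
    2 * ((Cone_ext β j).length : ℤ) < 2 * M + j) ∧
    ∑ i : Fin k, ((β i : List (ℤ × ℤ))).length ≤ L * (k + 1)}

private theorem Cone_cat_length (β : ℕ → List (ℤ × ℤ)) (k : ℕ) :
    (cat β k).length = ∑ i ∈ Finset.range k, (β i).length := by
  induction k with
  | zero => rfl
  | succ k ih =>
    rw [Finset.sum_range_succ, ← ih, ← List.length_append]
    rfl

private theorem Cone_sum_fin {k : ℕ} (β : Fin k → irrs t) :
    ∑ i ∈ Finset.range k, (Cone_ext β i).length = ∑ i : Fin k, ((β i : List (ℤ × ℤ))).length := by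
  rw [Finset.sum_range]
  refine Finset.sum_congr rfl fun i _ => ?_
  unfold Cone_ext
  rw [dif_pos i.2]

private theorem Cone_word_mem {M L k : ℕ} {β : Fin k → irrs t} (h : β ∈ Cone_C t M L k) :
    zig t M ++ cat (Cone_ext β) k ∈ conew t :=
  zig_append_mem (Cone_ext_mem β) h.1

private theorem Cone_word_length (M : ℕ) {k : ℕ} (β : Fin k → irrs t) :
    (zig t M ++ cat (Cone_ext β) k).length =
      2 * M + ∑ i : Fin k, ((β i : List (ℤ × ℤ))).length := by
  rw [List.length_append, Cone_zig_length, Cone_cat_length, Cone_sum_fin]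

private theorem Cone_word_inj {M k l : ℕ} {β : Fin k → irrs t} {γ : Fin l → irrs t}
    (h : zig t M ++ cat (Cone_ext β) k = zig t M ++ cat (Cone_ext γ) l) :
    ∃ e : k = l, e ▸ β = γ := by
  have h1 := Cone_word_irrPow (k := k) M (Cone_ext_mem β)
  have h2 := Cone_word_irrPow (k := l) M (Cone_ext_mem γ)
  have h3 := irrPow_inj h1 (h ▸ h2)
  have h4 : k = l := by omega
  subst h4
  refine ⟨rfl, ?_⟩
  have h5 := List.append_cancel_left h
  have h6 := Cone_cat_inj (Cone_ext_mem β) (Cone_ext_mem γ) h5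
  funext i
  have h7 := h6 i i.2
  unfold Cone_ext at h7
  rw [dif_pos i.2, dif_pos i.2] at h7
  exact Subtype.ext h7

private theorem Cone_gd_sub (M L k : ℕ) (ω : ℕ → irrs t) (hω : ω ∈ Gd t M L) :
    (fun i : Fin k => ω i) ∈ Cone_C t M L k := by
  have hext : ∀ i < k, Cone_ext (fun i : Fin k => ω i) i = (ω i : List (ℤ × ℤ)) := by
    intro i hi
    unfold Cone_ext
    rw [dif_pos hi]
  refine ⟨fun j hj => ?_, ?_⟩
  · rw [hext j hj]
    have h1 : ∑ i ∈ Finset.range j, ht t (Cone_ext (fun i : Fin k => ω i) i).sum = Sh ω j := by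
      unfold Sh
      refine Finset.sum_congr rfl fun i hi => ?_
      rw [hext i (by have := Finset.mem_range.1 hi; omega)]
    rw [h1]
    exact (hω j).1
  · have h2 := (hω k).2
    unfold Tl at h2
    rw [Finset.sum_range] at h2
    exact h2

private theorem Cone_cyl {k : ℕ} (β : Fin k → irrs t) :
    QQ t {ω | (fun i : Fin k => ω i) = β} =
      (zc t : ℝ≥0∞) ^ (∑ i : Fin k, ((β i : List (ℤ × ℤ))).length) := by
  let S : ℕ → Set (irrs t) := fun i => if h : i < k then {β ⟨i, h⟩} else Set.univ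
  have hS : ∀ i : Fin k, S i = {β i} := by
    intro i
    show (if h : (i : ℕ) < k then {β ⟨i, h⟩} else Set.univ : Set (irrs t)) = {β i}
    rw [dif_pos i.2]
  have hset : {ω : ℕ → irrs t | (fun i : Fin k => ω i) = β} =
      Set.pi (Finset.range k : Finset ℕ) S := by
    ext ω
    constructor
    · intro hω i hi
      have hi' : i < k := Finset.mem_range.1 (Finset.mem_coe.1 hi)
      have h1 : ω i = β ⟨i, hi'⟩ := congrFun (Set.mem_ofPred_eq.mp hω) ⟨i, hi'⟩
      have h2 := hS ⟨i, hi'⟩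
      have h3 : S i = {β ⟨i, hi'⟩} := h2
      rw [h3, h1]
      exact rfl
    · intro hω
      show (fun i : Fin k => ω i) = β
      funext i
      have h1 := hω (i : ℕ) (Finset.mem_coe.2 (Finset.mem_range.2 i.2))
      rw [hS i] at h1
      exact h1
  rw [hset]
  unfold QQ
  rw [Measure.infinitePi_pi _ (fun i _ => MeasurableSet.of_discrete), Finset.prod_range]
  rw [← Finset.prod_pow_eq_pow_sum]
  refine Finset.prod_congr rfl fun i _ => ?_
  rw [hS i, nu_singleton]

private theorem Cone_mass {M L : ℕ} (h : (1 / 2 : ℝ≥0∞) ≤ QQ t (Gd t M L)) (k : ℕ) :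
    (1 / 2 : ℝ≥0∞) ≤ ∑' β : Cone_C t M L k,
      (zc t : ℝ≥0∞) ^ (∑ i : Fin k, (((β : Fin k → irrs t) i : List (ℤ × ℤ))).length) := by
  refine h.trans ?_
  have hsub : Gd t M L ⊆ ⋃ β : Cone_C t M L k,
      {ω : ℕ → irrs t | (fun i : Fin k => ω i) = (β : Fin k → irrs t)} := by
    intro ω hω
    exact Set.mem_iUnion.2 ⟨⟨fun i : Fin k => ω i, Cone_gd_sub M L k ω hω⟩, rfl⟩
  refine (measure_mono hsub).trans ((measure_iUnion_le _).trans ?_)
  exact ENNReal.tsum_le_tsum fun β => le_of_eq (Cone_cyl _)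

theorem cone_sum {M L : ℕ} (h : (1 / 2 : ℝ≥0∞) ≤ QQ t (Gd t M L)) {z : ℝ≥0} (hz : z < zc t) :
    (1 / 2 : ℝ≥0∞) * (z : ℝ≥0∞) ^ (2 * M) *
      ∑' k : ℕ, ((z / zc t : ℝ≥0) : ℝ≥0∞) ^ (L * (k + 1)) ≤ gf (conew t) z := by
  obtain ⟨ρ, hρ⟩ : ∃ ρ : ℝ≥0, ρ = z / zc t := ⟨_, rfl⟩
  have hzc : zc t ≠ 0 := (zc_pos t).ne'
  have hz' : z = ρ * zc t := by rw [hρ, div_mul_cancel₀ _ hzc]
  have hρ1 : (ρ : ℝ≥0∞) ≤ 1 := by
    have : ρ ≤ 1 := by
      rw [hρ]
      exact div_le_one_of_le₀ hz.le zero_le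
    exact_mod_cast this
  rw [← hρ]
  let F : (Σ k : ℕ, Cone_C t M L k) → conew t :=
    fun p => ⟨zig t M ++ cat (Cone_ext (p.2 : Fin p.1 → irrs t)) p.1, Cone_word_mem p.2.2⟩
  have hF : Function.Injective F := by
    rintro ⟨k, β, hβ⟩ ⟨l, γ, hγ⟩ hh
    have h1 : zig t M ++ cat (Cone_ext β) k = zig t M ++ cat (Cone_ext γ) l :=
      congrArg Subtype.val hh
    obtain ⟨e, he⟩ := Cone_word_inj h1
    subst e
    have he' : β = γ := he
    subst he'
    rfl
  have h1 : ∑' p : (Σ k : ℕ, Cone_C t M L k),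
      (z : ℝ≥0∞) ^ ((F p : conew t) : List (ℤ × ℤ)).length ≤ gf (conew t) z :=
    ENNReal.tsum_comp_le_tsum_of_injective hF
      (fun l : conew t => (z : ℝ≥0∞) ^ (l : List (ℤ × ℤ)).length)
  refine le_trans ?_ h1
  rw [ENNReal.tsum_sigma', ← ENNReal.tsum_mul_left]
  refine ENNReal.tsum_le_tsum fun k => ?_
  have h2 := Cone_mass h k
  calc (1 / 2 : ℝ≥0∞) * (z : ℝ≥0∞) ^ (2 * M) * (ρ : ℝ≥0∞) ^ (L * (k + 1))
      ≤ (∑' β : Cone_C t M L k,
        (zc t : ℝ≥0∞) ^ (∑ i : Fin k, (((β : Fin k → irrs t) i : List (ℤ × ℤ))).length)) *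
          (z : ℝ≥0∞) ^ (2 * M) * (ρ : ℝ≥0∞) ^ (L * (k + 1)) := by
        gcongr
    _ ≤ _ := by
        rw [mul_assoc, ← ENNReal.tsum_mul_right]
        refine ENNReal.tsum_le_tsum fun β => ?_
        have hlen : ((F ⟨k, β⟩ : conew t) : List (ℤ × ℤ)).length =
            2 * M + ∑ i : Fin k, (((β : Fin k → irrs t) i : List (ℤ × ℤ))).length :=
          Cone_word_length M _
        rw [hlen, pow_add]
        obtain ⟨n, hn⟩ : ∃ n, n = ∑ i : Fin k, (((β : Fin k → irrs t) i : List (ℤ × ℤ))).length :=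
          ⟨_, rfl⟩
        have hnL : n ≤ L * (k + 1) := by
          rw [hn]
          exact β.2.2
        rw [← hn]
        have h3 : (z : ℝ≥0∞) ^ n = (ρ : ℝ≥0∞) ^ n * (zc t : ℝ≥0∞) ^ n := by
          rw [hz', ENNReal.coe_mul, mul_pow]
        rw [h3]
        have h4 : (ρ : ℝ≥0∞) ^ (L * (k + 1)) ≤ (ρ : ℝ≥0∞) ^ n :=
          pow_le_pow_right_of_le_one' hρ1 hnL
        calc (zc t : ℝ≥0∞) ^ n * ((z : ℝ≥0∞) ^ (2 * M) * (ρ : ℝ≥0∞) ^ (L * (k + 1)))
            ≤ (zc t : ℝ≥0∞) ^ n * ((z : ℝ≥0∞) ^ (2 * M) * (ρ : ℝ≥0∞) ^ n) := by gcongr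
          _ = (z : ℝ≥0∞) ^ (2 * M) * ((ρ : ℝ≥0∞) ^ n * (zc t : ℝ≥0∞) ^ n) := by ring

theorem cone_large (h : wgf (irrs t) (fun l => (l.length : ℝ≥0∞)) (zc t) ≠ ⊤) :
    ∃ c : ℝ≥0, 0 < c ∧ ∃ z₀ < zc t, ∀ z, z₀ < z → z < zc t →
      (c : ℝ≥0∞) * (1 - ((z / zc t : ℝ≥0) : ℝ≥0∞))⁻¹ ≤ gf (conew t) z := by
  obtain ⟨M, L, hL, hG⟩ := slln_event h
  have hzc : 0 < zc t := zc_pos t
  have hLpos : (0 : ℝ≥0) < (L : ℝ≥0) := by exact_mod_cast hL
  refine ⟨(1 / 2) * (zc t / 2) ^ (2 * M) * ((1 / 2) ^ L * (L : ℝ≥0)⁻¹), by positivity,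
    zc t / 2, by
      exact NNReal.half_lt_self hzc.ne', fun z hz1 hz2 => ?_⟩
  refine le_trans ?_ (cone_sum hG hz2)
  obtain ⟨ρ, hρ⟩ : ∃ ρ : ℝ≥0, ρ = z / zc t := ⟨_, rfl⟩
  rw [← hρ]
  have hρ1 : ρ < 1 := by
    rw [hρ]
    exact (div_lt_one hzc).2 hz2
  have hρ2 : 1 / 2 ≤ ρ := by
    rw [hρ, le_div_iff₀ hzc, one_div, inv_mul_eq_div]
    exact hz1.le
  have hsum : ∑' k : ℕ, (ρ : ℝ≥0∞) ^ (L * (k + 1)) =
      (ρ : ℝ≥0∞) ^ L * (1 - (ρ : ℝ≥0∞) ^ L)⁻¹ := by
    rw [← ENNReal.tsum_geometric, ← ENNReal.tsum_mul_left]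
    refine tsum_congr fun k => ?_
    rw [← pow_mul, ← pow_add]
    congr 1
    ring
  have hbern : 1 - (ρ : ℝ≥0∞) ^ L ≤ (L : ℝ≥0∞) * (1 - (ρ : ℝ≥0∞)) := by
    have h1 : 1 - ρ ^ L ≤ (L : ℝ≥0) * (1 - ρ) := by
      have hb : (1 : ℝ) + (L : ℝ) * ((ρ : ℝ) - 1) ≤ (ρ : ℝ) ^ L := by
        have := one_add_mul_le_pow (a := (ρ : ℝ) - 1)
          (by have : (0 : ℝ) ≤ (ρ : ℝ) := ρ.2; linarith) L
        have h2 : (1 : ℝ) + ((ρ : ℝ) - 1) = ρ := by ring
        rw [h2] at this
        exact this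
      rw [← NNReal.coe_le_coe, NNReal.coe_sub (pow_le_one₀ zero_le hρ1.le), NNReal.coe_mul,
        NNReal.coe_sub hρ1.le]
      push_cast
      linarith
    exact_mod_cast h1
  rw [hsum]
  have h5 : (L : ℝ≥0∞)⁻¹ * (1 - (ρ : ℝ≥0∞))⁻¹ ≤ (1 - (ρ : ℝ≥0∞) ^ L)⁻¹ := by
    rw [← ENNReal.mul_inv (Or.inl (by exact_mod_cast hL.ne')) (Or.inl (ENNReal.natCast_ne_top L))]
    exact ENNReal.inv_le_inv.2 hbern
  have h6 : ((1 / 2 : ℝ≥0) : ℝ≥0∞) ^ L ≤ (ρ : ℝ≥0∞) ^ L :=
    pow_le_pow_left' (ENNReal.coe_le_coe.2 hρ2) L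
  have h7 : ((zc t / 2 : ℝ≥0) : ℝ≥0∞) ^ (2 * M) ≤ (z : ℝ≥0∞) ^ (2 * M) :=
    pow_le_pow_left' (ENNReal.coe_le_coe.2 hz1.le) _
  have h8 : (((1 / 2) * (zc t / 2) ^ (2 * M) * ((1 / 2) ^ L * (L : ℝ≥0)⁻¹) : ℝ≥0) : ℝ≥0∞) =
      (1 / 2 : ℝ≥0∞) * ((zc t / 2 : ℝ≥0) : ℝ≥0∞) ^ (2 * M) *
        (((1 / 2 : ℝ≥0) : ℝ≥0∞) ^ L * (L : ℝ≥0∞)⁻¹) := by
    rw [ENNReal.coe_mul, ENNReal.coe_mul, ENNReal.coe_mul, ENNReal.coe_pow, ENNReal.coe_pow,
      ENNReal.coe_inv hLpos.ne', ENNReal.coe_natCast]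
    congr 2
    rw [ENNReal.coe_div (by norm_num)]
    rfl
  rw [h8]
  calc (1 / 2 : ℝ≥0∞) * ((zc t / 2 : ℝ≥0) : ℝ≥0∞) ^ (2 * M) *
        (((1 / 2 : ℝ≥0) : ℝ≥0∞) ^ L * (L : ℝ≥0∞)⁻¹) * (1 - (ρ : ℝ≥0∞))⁻¹
      = (1 / 2 : ℝ≥0∞) * ((zc t / 2 : ℝ≥0) : ℝ≥0∞) ^ (2 * M) *
        (((1 / 2 : ℝ≥0) : ℝ≥0∞) ^ L * ((L : ℝ≥0∞)⁻¹ * (1 - (ρ : ℝ≥0∞))⁻¹)) := by ring
    _ ≤ (1 / 2 : ℝ≥0∞) * (z : ℝ≥0∞) ^ (2 * M) *
        ((ρ : ℝ≥0∞) ^ L * (1 - (ρ : ℝ≥0∞) ^ L)⁻¹) := by gcongr

end Pool.Agent.SH3
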