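import Pool.Agent.SH3.Base

/-!
# The corner inequality

Paper proofs.

* `cone_rot`: no point is in the cone and in the rotated cone, and no point of the rotated cone is the
  negative of a point of the cone.  In coordinates (`cases t`, `omega`): if `p, q ∈ cone t` then
  `rot t q ≠ p` and `rot t q ≠ -p`.
* `corner_mem`: for `u, v ∈ conew t` the word `rev u ++ v.map (rot t)` is self-avoiding: by
  `rev_append_mem`, `rot_mem_saws`, since `Disj u (v.map (rot t))`: a common vertex `p.sum = q.sum` with
  `q = q'.map (rot t)`, `q.sum = rot t q'.sum` (`sum_map_rot`); if both are nonempty `cone_rot` applies;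
  if `p = []` then `q'.sum = 0`, so `q' = []` since `0 ∉ cone t`; if `q = []` then `p.sum = 0`, `p = []`.
* `corner_inj`: let `rev u ++ v.map (rot t) = rev u' ++ v'.map (rot t)` with `|u| < |u'|`; then
  `rev u' = rev u ++ x`, `v.map (rot t) = x ++ v'.map (rot t)`, `x ≠ []`, `u' = rev x ++ u`.  So
  `x.sum = rot t q` with `q ∈ cone t` (`x` is a nonempty start segment of `v.map (rot t)`), and
  `(rev x).sum = - x.sum ∈ cone t`: a contradiction to `cone_rot`.
* `corner`: `gf2_le_gf_of_inj` with `(u, v) ↦ rev u ++ v.map (rot t)` and `gf2_prod`.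
-/

namespace Pool.Agent.SH3

open Pool.Agent.SHP
open scoped ENNReal NNReal

variable {t : Bool}

theorem cone_rot {p q : ℤ × ℤ} (hp : p ∈ cone t) (hq : q ∈ cone t) :
    rot t q ≠ p ∧ rot t q ≠ -p := by
  obtain ⟨p1, p2⟩ := p
  obtain ⟨q1, q2⟩ := q
  cases t
  · simp only [cone, Set.mem_setOf_eq, Bool.false_eq_true, if_false] at hp hq
    simp only [rot, Bool.false_eq_true, if_false, ne_eq, Prod.neg_mk, Prod.mk.injEq]
    omega
  · simp only [cone, Set.mem_setOf_eq, if_true] at hp hq
    simp only [rot, if_true, ne_eq, Prod.neg_mk, Prod.mk.injEq]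
    omega

private theorem corner_zero_notMem : (0 : ℤ × ℤ) ∉ cone t := by
  intro h
  have := h.1
  simp at this

private theorem corner_rot_zero {p : ℤ × ℤ} (h : rot t p = 0) : p = 0 := by
  apply rot_inj t
  rw [h]
  exact ((rotHom t).map_zero).symm

theorem corner_mem {u v : List (ℤ × ℤ)} (hu : u ∈ conew t) (hv : v ∈ conew t) :
    rev u ++ v.map (rot t) ∈ saws t := by
  refine rev_append_mem hu.1 (rot_mem_saws hv.1) ?_
  intro p q r s hp hq hpq
  obtain ⟨a, b, h1, h2, h3⟩ := map_eq_append' hq
  subst h2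
  rw [sum_map_rot] at hpq
  by_cases hp0 : p = []
  · refine ⟨hp0, ?_⟩
    by_contra ha
    have ha' : a ≠ [] := fun h => ha (by rw [h]; rfl)
    have h4 := hv.2 a b h1 ha'
    rw [hp0, List.sum_nil] at hpq
    rw [corner_rot_zero hpq.symm] at h4
    exact corner_zero_notMem h4
  · exfalso
    have h5 := hu.2 p r hp hp0
    by_cases ha : a = []
    · rw [ha, List.sum_nil] at hpq
      have h6 : rot t 0 = 0 := (rotHom t).map_zero
      rw [hpq, h6] at h5
      exact corner_zero_notMem h5
    · exact (cone_rot h5 (hv.2 a b h1 ha)).1 hpq.symm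

private theorem corner_aux {u v u' v' : List (ℤ × ℤ)} (hv : v ∈ conew t)
    (hu' : u' ∈ conew t)
    (h : rev u ++ v.map (rot t) = rev u' ++ v'.map (rot t)) : u'.length ≤ u.length := by
  by_contra hlt
  push Not at hlt
  rcases List.append_eq_append_iff.mp h with ⟨x, h1, h2⟩ | ⟨x, h1, h2⟩
  · have hx : x ≠ [] := by
      intro hx
      rw [hx, List.append_nil] at h1
      have := congrArg List.length h1
      rw [rev_length, rev_length] at this
      omega
    obtain ⟨a, b, h3, h4, _⟩ := map_eq_append' h2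
    have ha : a ≠ [] := by
      intro ha
      rw [ha] at h4
      exact hx h4.symm
    have h5 := hv.2 a b h3 ha
    have h6 : u' = rev x ++ u := by
      have := congrArg rev h1
      rw [rev_rev, rev_append, rev_rev] at this
      exact this
    have h7 : rev x ≠ [] := fun h => hx (rev_eq_nil h)
    have h8 := hu'.2 _ _ h6 h7
    refine (cone_rot h8 h5).2 ?_
    rw [rev_sum, ← sum_map_rot, h4]
    simp
  · have := congrArg List.length h1
    rw [List.length_append, rev_length, rev_length] at this
    omega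

theorem corner_inj {u v u' v' : List (ℤ × ℤ)} (hu : u ∈ conew t) (hv : v ∈ conew t)
    (hu' : u' ∈ conew t) (hv' : v' ∈ conew t)
    (h : rev u ++ v.map (rot t) = rev u' ++ v'.map (rot t)) : u = u' ∧ v = v' := by
  have h1 := corner_aux hv hu' h
  have h2 := corner_aux hv' hu h.symm
  have h3 : (rev u).length = (rev u').length := by
    rw [rev_length, rev_length]
    omega
  obtain ⟨h4, h5⟩ := List.append_inj h h3
  exact ⟨rev_injective h4, (List.map_injective_iff.mpr (rot_inj t)) h5⟩

theorem corner (z : ℝ≥0) : gf (conew t) z ^ 2 ≤ gf (saws t) z := by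
  rw [sq, ← gf2_prod]
  refine gf2_le_gf_of_inj z (fun p => rev p.1 ++ p.2.map (rot t)) ?_ ?_ ?_
  · rintro ⟨u, v⟩ ⟨hu, hv⟩
    exact corner_mem hu hv
  · rintro ⟨u, v⟩ ⟨hu, hv⟩ ⟨u', v'⟩ ⟨hu', hv'⟩ h
    obtain ⟨h1, h2⟩ := corner_inj hu hv hu' hv' h
    exact Prod.ext h1 h2
  · rintro ⟨u, v⟩ ⟨hu, hv⟩
    simp [rev_length]

end Pool.Agent.SH3
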