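import Pool.Agent.SHP.Kesten
import Pool.Agent.SHP.Walks

/-!
# Three self-avoiding walks on the square and the triangular lattice: definitions

We go on using the words of `Pool.Agent.SHP`: a walk is the list of its steps, `saws t`, `halfs t`,
`bridges t`, `irrs t` are the self-avoiding, strict half-plane, bridge and irreducible bridge words of
the square (`t = false`) and the triangular (`t = true`) lattice, `gf A z = ∑_{l ∈ A} z ^ |l|`, `Disj u v`
says that the two walks meet only at their start, `rev l` is the reversed walk.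
-/

namespace Pool.Agent.SH3

open Pool.Agent.SHP
open scoped ENNReal NNReal

/-- Rotation by 90 degrees (square lattice) or 60 degrees (triangular lattice). -/
def rot (t : Bool) (p : ℤ × ℤ) : ℤ × ℤ := (-p.2, p.1 + if t then p.2 else 0)

/-- Twice the height of a point. -/
def ht (t : Bool) (p : ℤ × ℤ) : ℤ := 2 * p.2 + if t then p.1 else 0

/-- The reflection which keeps the first coordinate and reverses the height. -/
def vrefl (t : Bool) (p : ℤ × ℤ) : ℤ × ℤ := (p.1, -p.2 - if t then p.1 else 0)

/-- A cone of angle 90 degrees (square lattice) or 60 degrees (triangular lattice). -/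
def cone (t : Bool) : Set (ℤ × ℤ) :=
  {p | 0 < p.1 ∧ -p.1 < p.2 ∧ p.2 < if t then 1 else p.1}

/-- Self-avoiding walks all of whose vertices, except the first one, are in the cone. -/
def conew (t : Bool) : Set (List (ℤ × ℤ)) :=
  {l | l ∈ saws t ∧ ∀ u v : List (ℤ × ℤ), l = u ++ v → u ≠ [] → u.sum ∈ cone t}

/-- Strict half-plane walks which cannot be cut into a nonempty bridge and a strict half-plane walk. -/
def nocut (t : Bool) : Set (List (ℤ × ℤ)) :=
  {l | l ∈ halfs t ∧ ∀ u v : List (ℤ × ℤ), l = u ++ v → u ∈ bridges t → v ∈ halfs t → u = []}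

/-- Generating function with weights. -/
noncomputable def wgf (A : Set (List (ℤ × ℤ))) (F : List (ℤ × ℤ) → ℝ≥0∞) (z : ℝ≥0) : ℝ≥0∞ :=
  ∑' l : A, F l * (z : ℝ≥0∞) ^ (l : List (ℤ × ℤ)).length

/-- The last vertex of `u` is strictly to the right of all earlier vertices. -/
def IsRec (u : List (ℤ × ℤ)) : Prop :=
  ∀ p q : List (ℤ × ℤ), u = p ++ q → q ≠ [] → p.sum.1 < u.sum.1

open Classical in
/-- Number of records of a walk. -/
noncomputable def nrec (w : List (ℤ × ℤ)) : ℕ :=
  ((Finset.range (w.length + 1)).filter fun i => IsRec (w.take i)).card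

/-- The set of differences between a vertex of `X` and a vertex of `Y`. -/
def dset (X Y : List (ℤ × ℤ)) : Finset (ℤ × ℤ) :=
  ((Finset.range (X.length + 1)) ×ˢ (Finset.range (Y.length + 1))).image
    fun ij => (X.take ij.1).sum - (Y.take ij.2).sum

/-- The point reflection of a walk. -/
def neg (l : List (ℤ × ℤ)) : List (ℤ × ℤ) := l.map (fun s => -s)

/-- Pairs of walks which meet only at the start and which meet `g` only at the start. -/
def avoiding (t : Bool) (g : List (ℤ × ℤ)) : Set (List (ℤ × ℤ) × List (ℤ × ℤ)) :=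
  {p | p.1 ∈ saws t ∧ p.2 ∈ saws t ∧ Disj p.1 p.2 ∧ Disj g p.1 ∧ Disj g p.2}

/-- Generating function of the walks which meet `g` only at the start. -/
noncomputable def dg (t : Bool) (z : ℝ≥0) (g : List (ℤ × ℤ)) : ℝ≥0∞ :=
  gf {w | w ∈ saws t ∧ Disj g w} z

/-- Generating function of `avoiding t g`. -/
noncomputable def tg (t : Bool) (z : ℝ≥0) (g : List (ℤ × ℤ)) : ℝ≥0∞ := gf2 (avoiding t g) z

/-- Generating function of the triples of walks which pairwise meet only at the start. -/
noncomputable def gf3 (t : Bool) (z : ℝ≥0) : ℝ≥0∞ := wgf (saws t) (tg t z) z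

/-- Number of triples of walks of lengths `i`, `j`, `k` which pairwise meet only at the start. -/
noncomputable def cnt3 (t : Bool) (i j k : ℕ) : ℕ :=
  Set.ncard {p : List (ℤ × ℤ) × (List (ℤ × ℤ) × List (ℤ × ℤ)) |
    p.1 ∈ saws t ∧ p.2 ∈ avoiding t p.1 ∧ p.1.length = i ∧ p.2.1.length = j ∧ p.2.2.length = k}

/-- Number of pairs `(w, u)` of walks of lengths `m`, `n` such that `w` meets `u` and the point
reflection of `u` only at the start. -/
noncomputable def paircnt (t : Bool) (m n : ℕ) : ℕ :=
  Set.ncard {p : List (ℤ × ℤ) × List (ℤ × ℤ) |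
    p.1 ∈ saws t ∧ p.2 ∈ saws t ∧ Disj p.1 p.2 ∧ Disj p.1 (neg p.2) ∧ p.1.length = m ∧
      p.2.length = n}

end Pool.Agent.SH3
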