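import Pool.Agent.SH3.Rec

/-!
# The size of the difference set of two walks

Paper proofs.

* `ext_sum`: put `ext t w = nrec w ^ 2 + nrec (neg w) ^ 2 + nrec (w.map (rot t)) ^ 2 +
  nrec (neg (w.map (rot t))) ^ 2`.  By `wgf_comp` (with `neg`, `List.map (rot t)` and their composition,
  which are injective, preserve lengths and map `saws t` into `saws t`) and `rec_two` each of the four sums
  is at most `2 H ^ 2 A`.
* `dset_card`: let `X, Y ∈ saws t`.  For start segments `p` of `X` and `q` of `Y` the first coordinate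
  of `p.sum - q.sum` lies between `-(nrec (neg X) - 1) - (nrec Y - 1)` and
  `(nrec X - 1) + (nrec (neg Y) - 1)` (`nrec_ge` for `X`, `neg X`, `Y`, `neg Y`; the start segments of
  `neg X` are the `neg p`), so it takes at most `a := nrec X + nrec (neg X) + nrec Y + nrec (neg Y)` values.
  The second coordinate of a point `v` is `-(rot t v).1`, so in the same way it takes at most
  `b :=` (the same for `X.map (rot t)`, `Y.map (rot t)`) values.  Hence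
  `card ≤ a * b ≤ (a ^ 2 + b ^ 2) / 2` and `(x₁ + x₂ + x₃ + x₄) ^ 2 ≤ 4 (x₁ ^ 2 + ... + x₄ ^ 2)`.
* `dset_sum`: sum `dset_card` over `X` and `Y`.
-/

namespace Pool.Agent.SH3

open Pool.Agent.SHP
open scoped ENNReal NNReal

variable {t : Bool}

noncomputable def ext (t : Bool) (w : List (ℤ × ℤ)) : ℕ :=
  nrec w ^ 2 + nrec (neg w) ^ 2 + nrec (w.map (rot t)) ^ 2 + nrec (neg (w.map (rot t))) ^ 2

theorem ext_sum (z : ℝ≥0) :
    wgf (saws t) (fun w => (ext t w : ℝ≥0∞)) z ≤ 8 * gf (halfs t) z ^ 2 * gf (saws t) z := by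
  have h0 : (fun w : List (ℤ × ℤ) => (ext t w : ℝ≥0∞)) = fun w =>
      (((nrec w : ℝ≥0∞) ^ 2 + (nrec (neg w) : ℝ≥0∞) ^ 2) + (nrec (w.map (rot t)) : ℝ≥0∞) ^ 2) +
        (nrec (neg (w.map (rot t))) : ℝ≥0∞) ^ 2 := by
    funext w
    unfold ext
    push_cast
    rfl
  rw [h0, wgf_add, wgf_add, wgf_add]
  have h1 := rec_two (t := t) z
  have h2 : wgf (saws t) (fun w => (nrec (neg w) : ℝ≥0∞) ^ 2) z ≤
      2 * gf (halfs t) z ^ 2 * gf (saws t) z :=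
    le_trans (wgf_comp neg (fun a ha => neg_mem_saws ha) (neg_injective.injOn)
      (fun a _ => neg_length a) (fun w => (nrec w : ℝ≥0∞) ^ 2) z) h1
  have h3 : wgf (saws t) (fun w => (nrec (w.map (rot t)) : ℝ≥0∞) ^ 2) z ≤
      2 * gf (halfs t) z ^ 2 * gf (saws t) z :=
    le_trans (wgf_comp (List.map (rot t)) (fun a ha => rot_mem_saws ha)
      ((List.map_injective_iff.2 (rot_inj t)).injOn)
      (fun a _ => List.length_map _) (fun w => (nrec w : ℝ≥0∞) ^ 2) z) h1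
  have h4 : wgf (saws t) (fun w => (nrec (neg (w.map (rot t))) : ℝ≥0∞) ^ 2) z ≤
      2 * gf (halfs t) z ^ 2 * gf (saws t) z :=
    le_trans (wgf_comp (fun w => neg (w.map (rot t)))
      (fun a ha => neg_mem_saws (rot_mem_saws ha))
      ((neg_injective.comp (List.map_injective_iff.2 (rot_inj t))).injOn)
      (fun a _ => by rw [neg_length, List.length_map]) (fun w => (nrec w : ℝ≥0∞) ^ 2) z) h1
  calc wgf (saws t) (fun w => (nrec w : ℝ≥0∞) ^ 2) z +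
        wgf (saws t) (fun w => (nrec (neg w) : ℝ≥0∞) ^ 2) z +
        wgf (saws t) (fun w => (nrec (w.map (rot t)) : ℝ≥0∞) ^ 2) z +
        wgf (saws t) (fun w => (nrec (neg (w.map (rot t))) : ℝ≥0∞) ^ 2) z
      ≤ 2 * gf (halfs t) z ^ 2 * gf (saws t) z + 2 * gf (halfs t) z ^ 2 * gf (saws t) z +
        2 * gf (halfs t) z ^ 2 * gf (saws t) z + 2 * gf (halfs t) z ^ 2 * gf (saws t) z :=
        add_le_add (add_le_add (add_le_add h1 h2) h3) h4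
    _ = 8 * gf (halfs t) z ^ 2 * gf (saws t) z := by ring

/-- bounds for the first coordinate of a start segment -/
private theorem Ext_bound {X : List (ℤ × ℤ)} (hX : X ∈ saws t) (i : ℕ) :
    (X.take i).sum.1 + 1 ≤ (nrec X : ℤ) ∧ -(X.take i).sum.1 + 1 ≤ (nrec (neg X) : ℤ) := by
  have h := (List.take_append_drop i X).symm
  refine ⟨nrec_ge hX.1 h, ?_⟩
  have h1 : neg X = neg (X.take i) ++ neg (X.drop i) := by
    rw [← neg_append, List.take_append_drop]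
  have h2 := nrec_ge (neg_mem_saws hX).1 h1
  rw [sum_neg] at h2
  exact h2

private theorem Ext_rot (v : ℤ × ℤ) : (rot t v).1 = -v.2 := rfl

theorem dset_card {X Y : List (ℤ × ℤ)} (hX : X ∈ saws t) (hY : Y ∈ saws t) :
    (dset X Y).card ≤ 2 * ext t X + 2 * ext t Y := by
  obtain ⟨x₁, hx₁⟩ : ∃ x, x = nrec X := ⟨_, rfl⟩
  obtain ⟨x₂, hx₂⟩ : ∃ x, x = nrec (neg X) := ⟨_, rfl⟩
  obtain ⟨y₁, hy₁⟩ : ∃ x, x = nrec Y := ⟨_, rfl⟩
  obtain ⟨y₂, hy₂⟩ : ∃ x, x = nrec (neg Y) := ⟨_, rfl⟩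
  obtain ⟨x₃, hx₃⟩ : ∃ x, x = nrec (X.map (rot t)) := ⟨_, rfl⟩
  obtain ⟨x₄, hx₄⟩ : ∃ x, x = nrec (neg (X.map (rot t))) := ⟨_, rfl⟩
  obtain ⟨y₃, hy₃⟩ : ∃ x, x = nrec (Y.map (rot t)) := ⟨_, rfl⟩
  obtain ⟨y₄, hy₄⟩ : ∃ x, x = nrec (neg (Y.map (rot t))) := ⟨_, rfl⟩
  have hsub : dset X Y ⊆
      (Finset.Icc (-((x₂ : ℤ) - 1) - ((y₁ : ℤ) - 1)) (((x₁ : ℤ) - 1) + ((y₂ : ℤ) - 1))) ×ˢ
      (Finset.Icc (-((x₃ : ℤ) - 1) - ((y₄ : ℤ) - 1)) (((x₄ : ℤ) - 1) + ((y₃ : ℤ) - 1))) := by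
    intro d hd
    unfold dset at hd
    rw [Finset.mem_image] at hd
    obtain ⟨⟨i, j⟩, -, rfl⟩ := hd
    have h1 := Ext_bound hX i
    have h2 := Ext_bound hY j
    have h3 := Ext_bound (rot_mem_saws hX) i
    have h4 := Ext_bound (rot_mem_saws hY) j
    rw [← List.map_take, sum_map_rot, Ext_rot] at h3 h4
    rw [Finset.mem_product, Finset.mem_Icc, Finset.mem_Icc, Prod.fst_sub, Prod.snd_sub]
    dsimp only
    rw [← hx₁, ← hx₂] at h1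
    rw [← hy₁, ← hy₂] at h2
    rw [← hx₃, ← hx₄] at h3
    rw [← hy₃, ← hy₄] at h4
    omega
  have hcard := Finset.card_le_card hsub
  rw [Finset.card_product, Int.card_Icc, Int.card_Icc] at hcard
  have ha : ((((x₁ : ℤ) - 1) + ((y₂ : ℤ) - 1)) + 1 - (-((x₂ : ℤ) - 1) - ((y₁ : ℤ) - 1))).toNat ≤
      x₁ + x₂ + y₁ + y₂ := by omega
  have hb : ((((x₄ : ℤ) - 1) + ((y₃ : ℤ) - 1)) + 1 - (-((x₃ : ℤ) - 1) - ((y₄ : ℤ) - 1))).toNat ≤
      x₃ + x₄ + y₃ + y₄ := by omega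
  have h5 : (dset X Y).card ≤ (x₁ + x₂ + y₁ + y₂) * (x₃ + x₄ + y₃ + y₄) :=
    le_trans hcard (Nat.mul_le_mul ha hb)
  have h6 : 2 * ((x₁ + x₂ + y₁ + y₂) * (x₃ + x₄ + y₃ + y₄)) ≤
      4 * (x₁ ^ 2 + x₂ ^ 2 + x₃ ^ 2 + x₄ ^ 2) + 4 * (y₁ ^ 2 + y₂ ^ 2 + y₃ ^ 2 + y₄ ^ 2) := by
    zify
    nlinarith [sq_nonneg ((x₁ : ℤ) - x₂), sq_nonneg ((x₁ : ℤ) - y₁), sq_nonneg ((x₁ : ℤ) - y₂),
      sq_nonneg ((x₂ : ℤ) - y₁), sq_nonneg ((x₂ : ℤ) - y₂), sq_nonneg ((y₁ : ℤ) - y₂),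
      sq_nonneg ((x₃ : ℤ) - x₄), sq_nonneg ((x₃ : ℤ) - y₃), sq_nonneg ((x₃ : ℤ) - y₄),
      sq_nonneg ((x₄ : ℤ) - y₃), sq_nonneg ((x₄ : ℤ) - y₄), sq_nonneg ((y₃ : ℤ) - y₄),
      sq_nonneg (((x₁ : ℤ) + x₂ + y₁ + y₂) - (x₃ + x₄ + y₃ + y₄))]
  unfold ext
  rw [← hx₁, ← hx₂, ← hx₃, ← hx₄, ← hy₁, ← hy₂, ← hy₃, ← hy₄]
  omega

theorem dset_sum (z : ℝ≥0) :
    ∑' X : saws t, ∑' Y : saws t, ((dset (X : List (ℤ × ℤ)) Y).card : ℝ≥0∞) *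
      ((z : ℝ≥0∞) ^ (X : List (ℤ × ℤ)).length * (z : ℝ≥0∞) ^ (Y : List (ℤ × ℤ)).length) ≤
      32 * gf (halfs t) z ^ 2 * gf (saws t) z ^ 2 := by
  have hE := ext_sum (t := t) z
  unfold wgf at hE
  have hA : gf (saws t) z = ∑' Y : saws t, (z : ℝ≥0∞) ^ (Y : List (ℤ × ℤ)).length := rfl
  obtain ⟨A, hA'⟩ : ∃ A, A = gf (saws t) z := ⟨_, rfl⟩
  obtain ⟨E, hE'⟩ : ∃ E, E = ∑' X : saws t, (ext t (X : List (ℤ × ℤ)) : ℝ≥0∞) *
      (z : ℝ≥0∞) ^ (X : List (ℤ × ℤ)).length := ⟨_, rfl⟩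
  rw [← hA', ← hE'] at hE
  rw [← hA'] at hA
  rw [← hA']
  have h1 : ∑' X : saws t, ∑' Y : saws t, ((dset (X : List (ℤ × ℤ)) Y).card : ℝ≥0∞) *
      ((z : ℝ≥0∞) ^ (X : List (ℤ × ℤ)).length * (z : ℝ≥0∞) ^ (Y : List (ℤ × ℤ)).length) ≤
      ∑' X : saws t, ((2 * ((ext t (X : List (ℤ × ℤ)) : ℝ≥0∞) *
        (z : ℝ≥0∞) ^ (X : List (ℤ × ℤ)).length)) * A +
        (2 * (z : ℝ≥0∞) ^ (X : List (ℤ × ℤ)).length) * E) := by
    refine ENNReal.tsum_le_tsum fun X => ?_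
    rw [hA, hE', ← ENNReal.tsum_mul_left, ← ENNReal.tsum_mul_left, ← ENNReal.tsum_add]
    refine ENNReal.tsum_le_tsum fun Y => ?_
    have h2 : ((dset (X : List (ℤ × ℤ)) Y).card : ℝ≥0∞) ≤
        2 * (ext t (X : List (ℤ × ℤ)) : ℝ≥0∞) + 2 * (ext t (Y : List (ℤ × ℤ)) : ℝ≥0∞) := by
      exact_mod_cast dset_card X.2 Y.2
    refine le_trans (mul_le_mul_left h2 _) (le_of_eq ?_)
    ring
  refine le_trans h1 ?_
  rw [ENNReal.tsum_add, ENNReal.tsum_mul_right, ENNReal.tsum_mul_right, ENNReal.tsum_mul_left,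
    ENNReal.tsum_mul_left, ← hE', ← hA]
  calc 2 * E * A + 2 * A * E = 4 * A * E := by ring
    _ ≤ 4 * A * (8 * gf (halfs t) z ^ 2 * A) := mul_le_mul_right hE _
    _ = 32 * gf (halfs t) z ^ 2 * A ^ 2 := by ring

end Pool.Agent.SH3
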