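import Pool.Agent.SH3.Base

/-!
# Mean length of the irreducible bridges

Write `ρ = z / zc`, `I z = gf (irrs t) z`, `B z = gf (bridges t) z`.

Paper proofs.

* `saws_ge`: `gf (saws t) z = ∑ a_n z^n ≥ ∑ (mu z)^n = ∑ ρ^n = (1 - ρ)⁻¹` (`gf_eq_cnt`, `mu_pow_le`,
  `zc_mul_mu`, `ENNReal.tsum_geometric`; compare the proof of `gf_saws_large` in `SHP.Crit`).
* `bridges_le`: every irreducible bridge `b` is nonempty, so `z ^ |b| = zc ^ |b| ρ ^ |b| ≤ ρ zc ^ |b|` and
  `I z ≤ ρ I zc = ρ` (`kesten`), hence `B z = ∑ (I z)^J ≤ ∑ ρ^J = (1 - ρ)⁻¹` (`gf_bridges`).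
* `mean_finite`: suppose that for some `c > 0` there are `z < zc` arbitrarily close to `zc` with
  `c ≤ B z * (1 - ρ)`.  For such `z`, `I z < 1` and `B z * (1 - I z) = 1`, so `1 - I z ≤ (1 - ρ) / c`.
  Since `I zc = 1`, for every finite set `F` of irreducible bridges
  `∑_{b ∈ F} zc^|b| (1 - ρ^|b|) ≤ 1 - I z ≤ (1 - ρ) / c` (real numbers; the terms
  `zc^|b| (1 - ρ^|b|)` of the full series are nonnegative), and
  `1 - ρ^n = (1 - ρ) ∑_{j < n} ρ^j`, so `∑_{b ∈ F} zc^|b| ∑_{j < |b|} ρ^j ≤ 1 / c`.  The left side is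
  continuous in `ρ`; let `ρ → 1` (along the given `z`): `∑_{b ∈ F} |b| zc^|b| ≤ 1 / c`.  Take the supremum
  over `F`.
-/

namespace Pool.Agent.SH3

open Pool.Agent.SHP
open scoped ENNReal NNReal

variable {t : Bool}

private theorem Mean_ratio (t : Bool) (z : ℝ≥0) : (z / zc t) * zc t = z :=
  div_mul_cancel₀ z (zc_pos t).ne'

private theorem Mean_lt (t : Bool) {z : ℝ≥0} (hz : z < zc t) : z / zc t < 1 := by
  rw [div_lt_one (zc_pos t)]
  exact hz

private theorem Mean_real (t : Bool) (z : ℝ≥0) : ((z / zc t : ℝ≥0) : ℝ) = (z : ℝ) * mu t := by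
  have h := zc_mul_mu t
  have h1 : (zc t : ℝ) ≠ 0 := by
    have := zc_pos t
    exact_mod_cast this.ne'
  rw [NNReal.coe_div, div_eq_iff h1, mul_assoc, mul_comm (mu t), h, mul_one]

theorem saws_ge {z : ℝ≥0} (hz : z < zc t) :
    (1 - ((z / zc t : ℝ≥0) : ℝ≥0∞))⁻¹ ≤ gf (saws t) z := by
  rw [gf_eq_cnt (t := t) (fun l hl => hl.1)]
  have hle : ∀ n : ℕ, (((z / zc t : ℝ≥0) : ℝ≥0∞)) ^ n ≤
      (cnt (saws t) n : ℝ≥0∞) * (z : ℝ≥0∞) ^ n := by
    intro n
    have h1 : (z / zc t) ^ n ≤ ((cnt (saws t) n : ℝ≥0)) * z ^ n := by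
      rw [← NNReal.coe_le_coe, NNReal.coe_pow, Mean_real]
      push_cast
      rw [mul_pow]
      have h2 := mul_le_mul_of_nonneg_right (mu_pow_le t n)
        (show (0 : ℝ) ≤ (z : ℝ) ^ n by positivity)
      calc _ = _ := mul_comm _ _
        _ ≤ _ := h2
    exact_mod_cast h1
  refine le_trans (le_of_eq ?_) (ENNReal.tsum_le_tsum hle)
  rw [ENNReal.tsum_geometric]

theorem bridges_le {z : ℝ≥0} (hz : z < zc t) :
    gf (bridges t) z ≤ (1 - ((z / zc t : ℝ≥0) : ℝ≥0∞))⁻¹ := by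
  have hI : gf (irrs t) z ≤ ((z / zc t : ℝ≥0) : ℝ≥0∞) := by
    have h1 : gf (irrs t) z ≤ ((z / zc t : ℝ≥0) : ℝ≥0∞) * gf (irrs t) (zc t) := by
      unfold gf
      rw [← ENNReal.tsum_mul_left]
      refine ENNReal.tsum_le_tsum fun b => ?_
      have hn : 1 ≤ (b : List (ℤ × ℤ)).length := by
        have h2 := b.2.2.1
        exact Nat.one_le_iff_ne_zero.2 fun h => h2 (List.length_eq_zero_iff.1 h)
      set n := (b : List (ℤ × ℤ)).length
      have h3 : z ^ n ≤ (z / zc t) * (zc t) ^ n := by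
        have h4 : z ^ n = (z / zc t) ^ n * (zc t) ^ n := by
          rw [← mul_pow, Mean_ratio]
        rw [h4]
        refine mul_le_mul_left ?_ _
        calc (z / zc t) ^ n ≤ (z / zc t) ^ 1 :=
              pow_le_pow_of_le_one (by positivity) (Mean_lt t hz).le hn
          _ = z / zc t := pow_one _
      exact_mod_cast h3
    rw [kesten, mul_one] at h1
    exact h1
  rw [gf_bridges, ← ENNReal.tsum_geometric]
  exact ENNReal.tsum_le_tsum fun J => pow_le_pow_left' hI J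

/-- `wgf (irrs t) length zc` is the mean length of an irreducible bridge at the critical point. -/
theorem mean_finite {c : ℝ≥0} (hc : 0 < c)
    (h : ∀ z₀ < zc t, ∃ z, z₀ < z ∧ z < zc t ∧
      (c : ℝ≥0∞) * (1 - ((z / zc t : ℝ≥0) : ℝ≥0∞))⁻¹ ≤ gf (bridges t) z) :
    wgf (irrs t) (fun l => (l.length : ℝ≥0∞)) (zc t) ≠ ⊤ := by
  classical
  have hzc := zc_pos t
  -- the basic inequality
  have key : ∀ (F : Finset (irrs t)) (z : ℝ≥0), z < zc t →
      (c : ℝ≥0∞) * (1 - ((z / zc t : ℝ≥0) : ℝ≥0∞))⁻¹ ≤ gf (bridges t) z →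
      ∑ b ∈ F, ((zc t : ℝ) ^ (b : List (ℤ × ℤ)).length *
        ∑ j ∈ Finset.range (b : List (ℤ × ℤ)).length, ((z / zc t : ℝ≥0) : ℝ) ^ j) ≤ 1 / (c : ℝ) := by
    intro F z hz hB
    set ρ : ℝ≥0 := z / zc t with hρ
    have hρ1 : ρ < 1 := Mean_lt t hz
    have h1 : gf (irrs t) z + ∑ b ∈ F, (((zc t) ^ (b : List (ℤ × ℤ)).length -
        z ^ (b : List (ℤ × ℤ)).length : ℝ≥0) : ℝ≥0∞) ≤ 1 := by
      rw [← kesten t]
      unfold gf
      have h2 : ∑ b ∈ F, (((zc t) ^ (b : List (ℤ × ℤ)).length -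
          z ^ (b : List (ℤ × ℤ)).length : ℝ≥0) : ℝ≥0∞) =
          ∑' b : irrs t, if b ∈ F then (((zc t) ^ (b : List (ℤ × ℤ)).length -
          z ^ (b : List (ℤ × ℤ)).length : ℝ≥0) : ℝ≥0∞) else 0 := by
        rw [tsum_eq_sum (s := F)]
        · refine Finset.sum_congr rfl fun b hb => ?_
          rw [if_pos hb]
        · intro b hb
          rw [if_neg hb]
      rw [h2, ← ENNReal.tsum_add]
      refine ENNReal.tsum_le_tsum fun b => ?_
      have h3 : z ^ (b : List (ℤ × ℤ)).length ≤ (zc t) ^ (b : List (ℤ × ℤ)).length :=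
        pow_le_pow_left' hz.le _
      split_ifs
      · have h4 : z ^ (b : List (ℤ × ℤ)).length + ((zc t) ^ (b : List (ℤ × ℤ)).length -
            z ^ (b : List (ℤ × ℤ)).length) = (zc t) ^ (b : List (ℤ × ℤ)).length :=
          add_tsub_cancel_of_le h3
        refine le_of_eq ?_
        exact_mod_cast h4
      · rw [add_zero]
        exact_mod_cast h3
    rw [gf_bridges, ENNReal.tsum_geometric] at hB
    have h5 : 1 - gf (irrs t) z ≤ ((c⁻¹ * (1 - ρ) : ℝ≥0) : ℝ≥0∞) := by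
      have h6 := ENNReal.inv_le_inv.2 hB
      rw [inv_inv] at h6
      refine h6.trans (le_of_eq ?_)
      have h7 : (1 : ℝ≥0∞) - (ρ : ℝ≥0∞) = ((1 - ρ : ℝ≥0) : ℝ≥0∞) := by
        rw [ENNReal.coe_sub, ENNReal.coe_one]
      have h8 : (1 - ρ : ℝ≥0) ≠ 0 := (tsub_pos_of_lt hρ1).ne'
      rw [h7, ← ENNReal.coe_inv h8, ← ENNReal.coe_mul, ← ENNReal.coe_inv (by positivity)]
      congr 1
      rw [mul_inv, inv_inv]
    have h9 : ∑ b ∈ F, (((zc t) ^ (b : List (ℤ × ℤ)).length -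
        z ^ (b : List (ℤ × ℤ)).length : ℝ≥0) : ℝ≥0∞) ≤ ((c⁻¹ * (1 - ρ) : ℝ≥0) : ℝ≥0∞) := by
      refine le_trans ?_ h5
      refine ENNReal.le_sub_of_add_le_left ?_ h1
      intro htop
      rw [htop, top_add] at h1
      exact absurd h1 (by simp)
    have h10 : ∑ b ∈ F, ((zc t) ^ (b : List (ℤ × ℤ)).length -
        z ^ (b : List (ℤ × ℤ)).length : ℝ≥0) ≤ c⁻¹ * (1 - ρ) := by
      exact_mod_cast h9
    have h11 : ∑ b ∈ F, ((zc t : ℝ) ^ (b : List (ℤ × ℤ)).length -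
        (z : ℝ) ^ (b : List (ℤ × ℤ)).length) ≤ (c : ℝ)⁻¹ * (1 - (ρ : ℝ)) := by
      have h12 : ((∑ b ∈ F, ((zc t) ^ (b : List (ℤ × ℤ)).length -
          z ^ (b : List (ℤ × ℤ)).length : ℝ≥0) : ℝ≥0) : ℝ) ≤ ((c⁻¹ * (1 - ρ) : ℝ≥0) : ℝ) := by
        exact_mod_cast h10
      rw [NNReal.coe_sum, NNReal.coe_mul, NNReal.coe_sub hρ1.le, NNReal.coe_inv] at h12
      refine le_trans (le_of_eq ?_) h12
      refine Finset.sum_congr rfl fun b _ => ?_
      rw [NNReal.coe_sub (pow_le_pow_left' hz.le _)]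
      push_cast
      rfl
    have hρ1' : (0 : ℝ) < 1 - (ρ : ℝ) := by
      have : (ρ : ℝ) < 1 := by exact_mod_cast hρ1
      linarith
    have h13 : ∑ b ∈ F, ((zc t : ℝ) ^ (b : List (ℤ × ℤ)).length -
        (z : ℝ) ^ (b : List (ℤ × ℤ)).length) = (1 - (ρ : ℝ)) *
        ∑ b ∈ F, ((zc t : ℝ) ^ (b : List (ℤ × ℤ)).length *
          ∑ j ∈ Finset.range (b : List (ℤ × ℤ)).length, (ρ : ℝ) ^ j) := by
      rw [Finset.mul_sum]
      refine Finset.sum_congr rfl fun b _ => ?_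
      have hzr : (z : ℝ) = (ρ : ℝ) * (zc t : ℝ) := by
        rw [← NNReal.coe_mul, hρ, Mean_ratio]
      have h14 := mul_neg_geom_sum (ρ : ℝ) (b : List (ℤ × ℤ)).length
      rw [hzr, mul_pow]
      linear_combination (-(zc t : ℝ) ^ (b : List (ℤ × ℤ)).length) * h14
    rw [h13, mul_comm] at h11
    rw [one_div]
    exact le_of_mul_le_mul_right h11 hρ1'
  have hc' : (0 : ℝ) < c := by exact_mod_cast hc
  -- finite sums
  have hfin : ∀ F : Finset (irrs t), ∑ b ∈ F, (((b : List (ℤ × ℤ)).length : ℝ) *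
      (zc t : ℝ) ^ (b : List (ℤ × ℤ)).length) ≤ 1 / (c : ℝ) := by
    intro F
    by_contra hcon
    rw [not_le] at hcon
    set f : ℝ → ℝ := fun r => ∑ b ∈ F, ((zc t : ℝ) ^ (b : List (ℤ × ℤ)).length *
      ∑ j ∈ Finset.range (b : List (ℤ × ℤ)).length, r ^ j) with hf
    have hcont : Continuous f := by
      rw [hf]
      fun_prop
    have hf1 : 1 / (c : ℝ) < f 1 := by
      refine hcon.trans_le (le_of_eq ?_)
      rw [hf]
      refine Finset.sum_congr rfl fun b _ => ?_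
      simp only [one_pow, Finset.sum_const, Finset.card_range, nsmul_eq_mul, mul_one]
      rw [mul_comm]
    have hev : ∀ᶠ r in nhds (1 : ℝ), 1 / (c : ℝ) < f r := hcont.continuousAt.eventually (lt_mem_nhds hf1)
    obtain ⟨δ, hδ, hδf⟩ := Metric.eventually_nhds_iff.1 hev
    have hz0 : zc t * (1 - Real.toNNReal (min δ 1)) < zc t := by
      have h1 : (1 - Real.toNNReal (min δ 1) : ℝ≥0) < 1 := by
        refine tsub_lt_self one_pos ?_
        rw [Real.toNNReal_pos]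
        exact lt_min hδ one_pos
      calc zc t * (1 - Real.toNNReal (min δ 1)) < zc t * 1 := mul_lt_mul_of_pos_left h1 hzc
        _ = zc t := mul_one _
    obtain ⟨z, hz1, hz2, hz3⟩ := h _ hz0
    have h2 := key F z hz2 hz3
    have h3 : dist ((z / zc t : ℝ≥0) : ℝ) 1 < δ := by
      have h4 : (1 - Real.toNNReal (min δ 1) : ℝ≥0) < z / zc t := by
        rw [lt_div_iff₀ hzc, mul_comm]
        exact hz1
      have h5 : (1 : ℝ) - min δ 1 < ((z / zc t : ℝ≥0) : ℝ) := by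
        have h6 : ((1 - Real.toNNReal (min δ 1) : ℝ≥0) : ℝ) < ((z / zc t : ℝ≥0) : ℝ) := by
          exact_mod_cast h4
        have h7 : (1 : ℝ) - min δ 1 ≤ ((1 - Real.toNNReal (min δ 1) : ℝ≥0) : ℝ) := by
          have h8 : Real.toNNReal (min δ 1) ≤ 1 := by
            rw [Real.toNNReal_le_one]
            exact min_le_right _ _
          rw [NNReal.coe_sub h8, Real.coe_toNNReal _ (le_min hδ.le zero_le_one)]
          simp
        linarith
      have h9 : ((z / zc t : ℝ≥0) : ℝ) < 1 := by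
        exact_mod_cast Mean_lt t hz2
      rw [Real.dist_eq, abs_lt]
      constructor
      · have := min_le_left δ 1
        linarith
      · linarith
    exact absurd h2 (not_le.2 (hδf h3))
  -- conclusion
  have hle : wgf (irrs t) (fun l => (l.length : ℝ≥0∞)) (zc t) ≤ ((1 / c : ℝ≥0) : ℝ≥0∞) := by
    unfold wgf
    rw [ENNReal.tsum_eq_iSup_sum]
    refine iSup_le fun F => ?_
    have h1 : ∑ b ∈ F, (((b : List (ℤ × ℤ)).length : ℝ≥0) *
        (zc t) ^ (b : List (ℤ × ℤ)).length) ≤ 1 / c := by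
      rw [← NNReal.coe_le_coe]
      have h2 := hfin F
      push_cast
      exact h2
    refine le_trans (le_of_eq ?_) (ENNReal.coe_le_coe.2 h1)
    rw [ENNReal.ofNNReal_finsetSum]
    refine Finset.sum_congr rfl fun b _ => ?_
    push_cast
    rfl
  exact ne_top_of_le_ne_top ENNReal.coe_ne_top hle

end Pool.Agent.SH3
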