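import Pool.Agent.SH3.Base

/-!
# Last intersection identity (as an inequality)

Paper proof of `last_le`.  The left side is the sum of `z ^ (|g| + |w| + |p| + |f|)` over all quadruples
`(g, w, (p, f))` of walks with `Disj g w`, `Disj p f`, `Disj g p`, `Disj g f`.  The right side is the sum
of `z ^ (|X| + |Y|)` over all triples `(X, Y, δ)` with `X, Y ∈ saws t` and `δ ∈ dset X Y`.
Map the quadruple to `X = rev p ++ f`, `Y = rev w ++ g`, `δ = (rev p).sum - (rev w).sum`.  `X` and `Y` are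
self-avoiding (`rev_append_mem`), the lengths add up, and `δ` is the difference of the vertex number `|p|`
of `X` and the vertex number `|w|` of `Y`.  The map is injective: let `(g, w, (p, f))` and
`(g', w', (p', f'))` have the same image `(X, Y, δ)`, and let `|w| ≤ |w'|`.  Write
`rev w' = rev w ++ q` (both are start segments of `Y`), so that `g = q ++ g'`.  If `q ≠ []`: the point
`q.sum` is a vertex of `g`, other than its start, and since
`(rev p').sum - (rev w').sum = δ = (rev p).sum - (rev w).sum` we have `q.sum = (rev p').sum - (rev p).sum`,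
that is, `q.sum` is the difference of two vertices of `X` as seen from the vertex number `|p|`.  If
`|p'| ≤ |p|`, write `p = r ++ ...`: `rev p = rev p' ++ s`, `p = rev s ++ p'`, and
`(rev s).sum = - s.sum = (rev p').sum - (rev p).sum = q.sum`, so `Disj g p` gives `q = []`.
If `|p| ≤ |p'|`, then `rev p' = rev p ++ s`, `f = s ++ f'`, `s.sum = q.sum`, and `Disj g f` gives `q = []`.
Hence `q = []`, `w = w'`, `g = g'`, and `(rev p).sum = (rev p').sum`; since `X` is self-avoiding and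
`rev p`, `rev p'` are start segments of `X` with the same sum, they are equal, so `p = p'`, `f = f'`.
(`List.append_eq_append_iff` gives the comparisons of start segments.)
-/

namespace Pool.Agent.SH3

open Pool.Agent.SHP
open scoped ENNReal NNReal

variable {t : Bool}

private theorem Last_core {g w p f g' w' p' f' q : List (ℤ × ℤ)}
    (h3 : Disj g p) (h4 : Disj g f) (hX : rev p ++ f = rev p' ++ f')
    (hw : rev w' = rev w ++ q) (hg : g = q ++ g')
    (hδ : (rev p).sum - (rev w).sum = (rev p').sum - (rev w').sum) :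
    g = g' ∧ w = w' ∧ p = p' ∧ f = f' := by
  rw [hw, List.sum_append] at hδ
  have key : q = [] ∧ p = p' ∧ f = f' := by
    rcases List.append_eq_append_iff.mp hX with ⟨s, hs, hf⟩ | ⟨s, hs, hf⟩
    · rw [hs, List.sum_append] at hδ
      have h5 : q.sum = s.sum := by
        have e : (rev w).sum + q.sum - (rev w).sum =
            (rev p).sum + s.sum - ((rev p).sum - (rev w).sum) - (rev w).sum := by
          rw [hδ]
          abel
        calc q.sum = (rev w).sum + q.sum - (rev w).sum := by abel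
          _ = _ := e
          _ = s.sum := by abel
      obtain ⟨h6, h7⟩ := h4 q s g' f' hg hf h5
      refine ⟨h6, ?_, ?_⟩
      · rw [h7, List.append_nil] at hs
        exact (rev_injective hs).symm
      · rw [hf, h7, List.nil_append]
    · rw [hs, List.sum_append] at hδ
      have h5 : q.sum = (rev s).sum := by
        rw [rev_sum]
        have e : (rev w).sum + q.sum - (rev w).sum =
            (rev p').sum - ((rev p').sum + s.sum - (rev w).sum) - (rev w).sum := by
          rw [hδ]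
          abel
        calc q.sum = (rev w).sum + q.sum - (rev w).sum := by abel
          _ = _ := e
          _ = -s.sum := by abel
      have h8 : p = rev s ++ p' := by
        rw [← rev_rev p, hs, rev_append, rev_rev]
      obtain ⟨h6, h7⟩ := h3 q (rev s) g' p' hg h8 h5
      refine ⟨h6, ?_, ?_⟩
      · rw [h8, h7, List.nil_append]
      · rw [hf, rev_eq_nil h7, List.nil_append]
  obtain ⟨hq, h1, h2⟩ := key
  refine ⟨by rw [hg, hq, List.nil_append], ?_, h1, h2⟩
  rw [hq, List.append_nil] at hw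
  exact (rev_injective hw).symm

/-- The combinatorial core: injectivity. -/
theorem last_inj {g w p f g' w' p' f' : List (ℤ × ℤ)} (hg : g ∈ saws t) (hw : w ∈ saws t)
    (hp : p ∈ saws t) (hf : f ∈ saws t) (hg' : g' ∈ saws t) (hw' : w' ∈ saws t)
    (hp' : p' ∈ saws t) (hf' : f' ∈ saws t)
    (h1 : Disj g w) (h2 : Disj p f) (h3 : Disj g p) (h4 : Disj g f)
    (h1' : Disj g' w') (h2' : Disj p' f') (h3' : Disj g' p') (h4' : Disj g' f')
    (hX : rev p ++ f = rev p' ++ f') (hY : rev w ++ g = rev w' ++ g')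
    (hδ : (rev p).sum - (rev w).sum = (rev p').sum - (rev w').sum) :
    g = g' ∧ w = w' ∧ p = p' ∧ f = f' := by
  rcases List.append_eq_append_iff.mp hY with ⟨q, hq, hgq⟩ | ⟨q, hq, hgq⟩
  · exact Last_core h3 h4 hX hq hgq hδ
  · obtain ⟨e1, e2, e3, e4⟩ := Last_core h3' h4' hX.symm hq hgq hδ.symm
    exact ⟨e1.symm, e2.symm, e3.symm, e4.symm⟩

theorem last_mem {w p f g : List (ℤ × ℤ)} :
    (rev p).sum - (rev w).sum ∈ dset (rev p ++ f) (rev w ++ g) := by
  unfold dset
  refine Finset.mem_image.2 ⟨((rev p).length, (rev w).length), ?_, ?_⟩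
  · rw [Finset.mem_product, Finset.mem_range, Finset.mem_range, List.length_append,
      List.length_append]
    exact ⟨by omega, by omega⟩
  · simp only [List.take_left]

theorem last_le (z : ℝ≥0) :
    wgf (saws t) (fun g => dg t z g * tg t z g) z ≤
    ∑' X : saws t, ∑' Y : saws t, ((dset (X : List (ℤ × ℤ)) Y).card : ℝ≥0∞) *
      ((z : ℝ≥0∞) ^ (X : List (ℤ × ℤ)).length * (z : ℝ≥0∞) ^ (Y : List (ℤ × ℤ)).length) := by
  have hL : wgf (saws t) (fun g => dg t z g * tg t z g) z =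
      ∑' q : (Σ g : saws t, Σ _ : {w : List (ℤ × ℤ) | w ∈ saws t ∧ Disj (g : List (ℤ × ℤ)) w},
        avoiding t (g : List (ℤ × ℤ))),
        (z : ℝ≥0∞) ^ (q.2.1 : List (ℤ × ℤ)).length *
          (z : ℝ≥0∞) ^ (q.2.2.1.1.length + q.2.2.1.2.length) *
          (z : ℝ≥0∞) ^ (q.1 : List (ℤ × ℤ)).length := by
    rw [ENNReal.tsum_sigma']
    unfold wgf
    refine tsum_congr fun g => ?_
    rw [ENNReal.tsum_sigma']
    unfold dg tg gf gf2
    beta_reduce
    rw [← ENNReal.tsum_mul_right, ← ENNReal.tsum_mul_right]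
    refine tsum_congr fun w => ?_
    rw [← ENNReal.tsum_mul_left, ← ENNReal.tsum_mul_right]
  have hR : ∑' X : saws t, ∑' Y : saws t, ((dset (X : List (ℤ × ℤ)) Y).card : ℝ≥0∞) *
      ((z : ℝ≥0∞) ^ (X : List (ℤ × ℤ)).length * (z : ℝ≥0∞) ^ (Y : List (ℤ × ℤ)).length) =
      ∑' r : (Σ X : saws t, Σ Y : saws t, {δ : ℤ × ℤ // δ ∈ dset (X : List (ℤ × ℤ)) Y}),
        (z : ℝ≥0∞) ^ (r.1 : List (ℤ × ℤ)).length *
          (z : ℝ≥0∞) ^ (r.2.1 : List (ℤ × ℤ)).length := by
    rw [ENNReal.tsum_sigma']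
    refine tsum_congr fun X => ?_
    rw [ENNReal.tsum_sigma']
    refine tsum_congr fun Y => ?_
    have h : ∀ c : ℝ≥0∞, ((dset (X : List (ℤ × ℤ)) Y).card : ℝ≥0∞) * c =
        ∑' _ : {δ : ℤ × ℤ // δ ∈ dset (X : List (ℤ × ℤ)) Y}, c := by
      intro c
      rw [tsum_fintype, Finset.sum_const, Finset.card_univ, Fintype.card_coe, nsmul_eq_mul]
    exact h _
  rw [hL, hR]
  obtain ⟨F, hF⟩ : ∃ F : (Σ g : saws t, Σ _ : {w : List (ℤ × ℤ) | w ∈ saws t ∧
      Disj (g : List (ℤ × ℤ)) w}, avoiding t (g : List (ℤ × ℤ))) →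
      (Σ X : saws t, Σ Y : saws t, {δ : ℤ × ℤ // δ ∈ dset (X : List (ℤ × ℤ)) Y}),
      F = fun q => ⟨⟨rev q.2.2.1.1 ++ q.2.2.1.2,
        rev_append_mem q.2.2.2.1 q.2.2.2.2.1 q.2.2.2.2.2.1⟩,
        ⟨⟨rev (q.2.1 : List (ℤ × ℤ)) ++ q.1, rev_append_mem q.2.1.2.1 q.1.2
          (Disj.symm q.2.1.2.2)⟩,
          ⟨(rev q.2.2.1.1).sum - (rev (q.2.1 : List (ℤ × ℤ))).sum, last_mem⟩⟩⟩ := ⟨_, rfl⟩
  have hinj : Function.Injective F := by
    rintro ⟨⟨g, hg⟩, ⟨w, hw⟩, ⟨⟨p, f⟩, hpf⟩⟩ ⟨⟨g', hg'⟩, ⟨w', hw'⟩, ⟨⟨p', f'⟩, hpf'⟩⟩ h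
    rw [hF] at h
    have h1 := congrArg (fun r : (Σ X : saws t, Σ Y : saws t,
      {δ : ℤ × ℤ // δ ∈ dset (X : List (ℤ × ℤ)) Y}) => (r.1 : List (ℤ × ℤ))) h
    have h2 := congrArg (fun r : (Σ X : saws t, Σ Y : saws t,
      {δ : ℤ × ℤ // δ ∈ dset (X : List (ℤ × ℤ)) Y}) => (r.2.1 : List (ℤ × ℤ))) h
    have h3 := congrArg (fun r : (Σ X : saws t, Σ Y : saws t,
      {δ : ℤ × ℤ // δ ∈ dset (X : List (ℤ × ℤ)) Y}) => (r.2.2 : ℤ × ℤ)) h
    obtain ⟨rfl, rfl, rfl, rfl⟩ := last_inj (t := t) hg hw.1 hpf.1 hpf.2.1 hg' hw'.1 hpf'.1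
      hpf'.2.1 hw.2 hpf.2.2.1 hpf.2.2.2.1 hpf.2.2.2.2 hw'.2 hpf'.2.2.1 hpf'.2.2.2.1
      hpf'.2.2.2.2 h1 h2 h3
    rfl
  refine le_trans (le_of_eq ?_) (ENNReal.tsum_comp_le_tsum_of_injective hinj _)
  refine tsum_congr fun q => ?_
  rw [hF]
  simp only [List.length_append, rev_length]
  rw [← pow_add, ← pow_add, ← pow_add]
  congr 1
  omega

end Pool.Agent.SH3
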