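import Pool.Agent.SH3.Ext
import Pool.Agent.SH3.Last

/-!
# Three walks, at fixed `z < zc`

Paper proofs.

* `tg_le_sq`: `avoiding t g ⊆ {w | Disj g w} ×ˢ {w | Disj g w}` and `gf2_prod`.
* `three_le`: write `A = gf (saws t) z` (finite, `gf_saws_ne_top`, and `≥ 1` since `[] ∈ saws t`),
  `H = gf (halfs t) z`.  For every `g`: `tg g ≤ ε ^ 2 A ^ 2 + dg g * tg g / (ε A)`: if `dg g ≤ ε A` then
  `tg g ≤ dg g ^ 2 ≤ ε ^ 2 A ^ 2`; if `dg g > ε A` then `1 ≤ dg g / (ε A)`.  Sum over `g`: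
  `gf3 ≤ ε ^ 2 A ^ 3 + (ε A)⁻¹ * ∑ dg g * tg g * z ^ |g| ≤ ε ^ 2 A ^ 3 + (ε A)⁻¹ * 32 H ^ 2 A ^ 2`
  by `last_le` and `dset_sum`.
-/

namespace Pool.Agent.SH3

open Pool.Agent.SHP
open scoped ENNReal NNReal

variable {t : Bool}

theorem tg_le_sq (z : ℝ≥0) (g : List (ℤ × ℤ)) : tg t z g ≤ dg t z g ^ 2 := by
  unfold tg dg
  rw [sq, ← gf2_prod]
  refine gf2_mono_set ?_ z
  rintro ⟨u, v⟩ ⟨h1, h2, _, h4, h5⟩
  exact ⟨⟨h1, h4⟩, ⟨h2, h5⟩⟩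

private theorem Three_one_le (t : Bool) (z : ℝ≥0) : 1 ≤ gf (saws t) z := by
  unfold gf
  refine le_trans (le_of_eq ?_) (ENNReal.le_tsum (⟨[], nil_mem_saws t⟩ : saws t))
  simp

theorem three_le {ε : ℝ≥0} (hε : 0 < ε) {z : ℝ≥0} (hz : z < zc t) :
    gf3 t z ≤ (ε : ℝ≥0∞) ^ 2 * gf (saws t) z ^ 3 +
      32 * (ε : ℝ≥0∞)⁻¹ * gf (halfs t) z ^ 2 * gf (saws t) z := by
  obtain ⟨A, hA⟩ : ∃ A, A = gf (saws t) z := ⟨_, rfl⟩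
  obtain ⟨H, hH⟩ : ∃ H, H = gf (halfs t) z := ⟨_, rfl⟩
  have hAtop : A ≠ ⊤ := by rw [hA]; exact gf_saws_ne_top t hz
  have hA1 : 1 ≤ A := by rw [hA]; exact Three_one_le t z
  have hA0 : A ≠ 0 := fun h => by rw [h] at hA1; exact absurd hA1 (by simp)
  have hε0 : (ε : ℝ≥0∞) ≠ 0 := by exact_mod_cast hε.ne'
  have hεtop : (ε : ℝ≥0∞) ≠ ⊤ := ENNReal.coe_ne_top
  have hB0 : (ε : ℝ≥0∞) * A ≠ 0 := mul_ne_zero hε0 hA0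
  have hBtop : (ε : ℝ≥0∞) * A ≠ ⊤ := ENNReal.mul_ne_top hεtop hAtop
  have hpt : ∀ g ∈ saws t, tg t z g ≤ ((ε : ℝ≥0∞) * A) ^ 2 +
      ((ε : ℝ≥0∞) * A)⁻¹ * (dg t z g * tg t z g) := by
    intro g _
    rcases le_or_gt (dg t z g) ((ε : ℝ≥0∞) * A) with h | h
    · refine le_trans ?_ le_self_add
      exact (tg_le_sq z g).trans (pow_le_pow_left' h 2)
    · refine le_trans ?_ le_add_self
      have h1 : 1 ≤ ((ε : ℝ≥0∞) * A)⁻¹ * dg t z g := by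
        rw [← ENNReal.inv_mul_cancel hB0 hBtop]
        exact mul_le_mul_right h.le _
      calc tg t z g = 1 * tg t z g := (one_mul _).symm
        _ ≤ (((ε : ℝ≥0∞) * A)⁻¹ * dg t z g) * tg t z g := mul_le_mul_left h1 _
        _ = ((ε : ℝ≥0∞) * A)⁻¹ * (dg t z g * tg t z g) := mul_assoc _ _ _
  have h2 : wgf (saws t) (fun g => dg t z g * tg t z g) z ≤ 32 * H ^ 2 * A ^ 2 := by
    rw [hH, hA]
    exact (last_le z).trans (dset_sum z)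
  rw [← hA, ← hH]
  unfold gf3
  calc wgf (saws t) (tg t z) z
      ≤ wgf (saws t) (fun g => ((ε : ℝ≥0∞) * A) ^ 2 +
        ((ε : ℝ≥0∞) * A)⁻¹ * (dg t z g * tg t z g)) z := wgf_le z hpt
    _ = ((ε : ℝ≥0∞) * A) ^ 2 * A +
        ((ε : ℝ≥0∞) * A)⁻¹ * wgf (saws t) (fun g => dg t z g * tg t z g) z := by
        rw [wgf_add, wgf_const, wgf_mul, ← hA]
    _ ≤ ((ε : ℝ≥0∞) * A) ^ 2 * A + ((ε : ℝ≥0∞) * A)⁻¹ * (32 * H ^ 2 * A ^ 2) := by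
        gcongr
    _ = (ε : ℝ≥0∞) ^ 2 * A ^ 3 + 32 * (ε : ℝ≥0∞)⁻¹ * H ^ 2 * A := by
        rw [ENNReal.mul_inv (Or.inl hε0) (Or.inl hεtop)]
        have h3 : A⁻¹ * A = 1 := ENNReal.inv_mul_cancel hA0 hAtop
        congr 1
        · ring
        · calc (ε : ℝ≥0∞)⁻¹ * A⁻¹ * (32 * H ^ 2 * A ^ 2) =
              32 * (ε : ℝ≥0∞)⁻¹ * H ^ 2 * A * (A⁻¹ * A) := by ring
            _ = _ := by rw [h3, mul_one]

end Pool.Agent.SH3
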