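import Pool.Agent.SH3.NoCut
import Pool.Agent.SH3.Corner
import Pool.Agent.SH3.Mean
import Pool.Agent.SH3.Cone
import Pool.Agent.SH3.Three

/-!
# A self-avoiding walk stays in a half-plane with probability tending to zero

Paper proof of `half_small`.  Write `ρ = z / zc` and `A, H, B, R` for the generating functions of
`saws`, `halfs`, `bridges`, `nocut` at `z < zc`; all are finite (`gf_saws_ne_top`) and at least one.
Suppose that for some `ε > 0` (we may take `ε ≤ 1`) there are `z < zc` arbitrarily close to `zc` with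
`ε A < H`.  For such `z`: `ε R ^ 2 B ≤ ε A < H ≤ B R` (`nocut_sq`, `halfs_le_nocut`), so `ε R < 1`; then
`ε A < B R < B / ε`, that is `ε ^ 2 A ≤ B`.  By `saws_ge`, `ε ^ 2 (1 - ρ)⁻¹ ≤ B`, so by `mean_finite` the mean
length of the irreducible bridges is finite, and `cone_large` gives `c > 0`, `z₁ < zc` with
`c (1 - ρ)⁻¹ ≤ gf (conew t) z` for all `z` in `(z₁, zc)`.  Take such a `z` with `ε A < H` and
`1 - ρ < c ^ 2 ε ^ 2`: by `corner` and `bridges_le`,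
`c ^ 2 (1 - ρ)⁻² ≤ A ≤ ε⁻² B ≤ ε⁻² (1 - ρ)⁻¹`, so `c ^ 2 ε ^ 2 ≤ 1 - ρ`, a contradiction.

`three_small`: given `ε > 0` choose `η` with `η ^ 2 ≤ ε / 2` and `δ > 0` with `32 η⁻¹ δ ^ 2 ≤ ε / 2`; for
`z` close to `zc`, `H ≤ δ A` and `three_le` (with `η`) gives
`gf3 ≤ η ^ 2 A ^ 3 + 32 η⁻¹ δ ^ 2 A ^ 3 ≤ ε A ^ 3`.
-/

namespace Pool.Agent.SH3

open Pool.Agent.SHP
open scoped ENNReal NNReal

variable {t : Bool}

private theorem HoA_key (t : Bool) {ε z : ℝ≥0}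
    (h : (ε : ℝ≥0∞) * gf (saws t) z < gf (halfs t) z) :
    (ε : ℝ≥0∞) ^ 2 * gf (saws t) z ≤ gf (bridges t) z := by
  have h1 := halfs_le_nocut (t := t) z
  have h2 := nocut_sq (t := t) z
  have h3 : (ε : ℝ≥0∞) * gf (nocut t) z ≤ 1 := by
    by_contra hc
    have hc' : (1 : ℝ≥0∞) ≤ (ε : ℝ≥0∞) * gf (nocut t) z := (not_le.1 hc).le
    have h4 : gf (bridges t) z * gf (nocut t) z ≤ (ε : ℝ≥0∞) * gf (saws t) z := by
      calc gf (bridges t) z * gf (nocut t) z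
          = 1 * (gf (bridges t) z * gf (nocut t) z) := (one_mul _).symm
        _ ≤ ((ε : ℝ≥0∞) * gf (nocut t) z) * (gf (bridges t) z * gf (nocut t) z) :=
            mul_le_mul' hc' le_rfl
        _ = (ε : ℝ≥0∞) * (gf (nocut t) z ^ 2 * gf (bridges t) z) := by ring
        _ ≤ (ε : ℝ≥0∞) * gf (saws t) z := mul_le_mul' le_rfl h2
    exact absurd (h.trans_le (h1.trans h4)) (lt_irrefl _)
  calc (ε : ℝ≥0∞) ^ 2 * gf (saws t) z = (ε : ℝ≥0∞) * ((ε : ℝ≥0∞) * gf (saws t) z) := by ring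
    _ ≤ (ε : ℝ≥0∞) * (gf (bridges t) z * gf (nocut t) z) :=
        mul_le_mul' le_rfl (h.le.trans h1)
    _ = gf (bridges t) z * ((ε : ℝ≥0∞) * gf (nocut t) z) := by ring
    _ ≤ gf (bridges t) z * 1 := mul_le_mul' le_rfl h3
    _ = gf (bridges t) z := mul_one _

theorem half_small (t : Bool) {ε : ℝ≥0} (hε : 0 < ε) :
    ∃ z₀ < zc t, ∀ z, z₀ < z → z < zc t →
      gf (halfs t) z ≤ (ε : ℝ≥0∞) * gf (saws t) z := by
  by_contra hcon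
  have hcon' : ∀ z₀ < zc t, ∃ z, z₀ < z ∧ z < zc t ∧
      (ε : ℝ≥0∞) * gf (saws t) z < gf (halfs t) z := by
    intro z₀ hz₀
    by_contra h
    refine hcon ⟨z₀, hz₀, fun z h1 h2 => ?_⟩
    by_contra h3
    exact h ⟨z, h1, h2, not_le.1 h3⟩
  have hmean : wgf (irrs t) (fun l => (l.length : ℝ≥0∞)) (zc t) ≠ ⊤ := by
    refine mean_finite (c := ε ^ 2) (by positivity) ?_
    intro z₀ hz₀
    obtain ⟨z, h1, h2, h3⟩ := hcon' z₀ hz₀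
    refine ⟨z, h1, h2, ?_⟩
    refine le_trans ?_ (HoA_key t h3)
    rw [ENNReal.coe_pow]
    exact mul_le_mul' le_rfl (saws_ge h2)
  obtain ⟨c, hc, z₁, hz₁, hcone⟩ := cone_large hmean
  have hzc := zc_pos t
  have hδ : 0 < c ^ 2 * ε ^ 2 := by positivity
  have hz₂ : zc t * (1 - c ^ 2 * ε ^ 2) < zc t := by
    have : (1 : ℝ≥0) - c ^ 2 * ε ^ 2 < 1 := tsub_lt_self one_pos hδ
    calc zc t * (1 - c ^ 2 * ε ^ 2) < zc t * 1 := mul_lt_mul_of_pos_left this hzc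
      _ = zc t := mul_one _
  obtain ⟨z, h1, h2, h3⟩ := hcon' (max z₁ (zc t * (1 - c ^ 2 * ε ^ 2))) (max_lt hz₁ hz₂)
  have hz1 : z₁ < z := lt_of_le_of_lt (le_max_left _ _) h1
  have hz2 : zc t * (1 - c ^ 2 * ε ^ 2) < z := lt_of_le_of_lt (le_max_right _ _) h1
  have hρ1 : z / zc t < 1 := (div_lt_one hzc).2 h2
  have hρ2 : 1 - c ^ 2 * ε ^ 2 < z / zc t := by
    rw [lt_div_iff₀ hzc, mul_comm]
    exact hz2
  have hx0 : 0 < 1 - z / zc t := tsub_pos_of_lt hρ1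
  have hx1 : 1 - z / zc t < c ^ 2 * ε ^ 2 := by
    rw [tsub_lt_iff_left hρ1.le]
    have := (tsub_lt_iff_right (a := (1 : ℝ≥0)) (b := c ^ 2 * ε ^ 2) (c := z / zc t))
    by_cases hle : c ^ 2 * ε ^ 2 ≤ 1
    · exact (this hle).1 hρ2
    · exact lt_of_lt_of_le (not_le.1 hle) le_add_self
  set x : ℝ≥0 := 1 - z / zc t with hx
  have hinv : (1 - ((z / zc t : ℝ≥0) : ℝ≥0∞))⁻¹ = ((x⁻¹ : ℝ≥0) : ℝ≥0∞) := by
    rw [ENNReal.coe_inv hx0.ne', hx, ENNReal.coe_sub, ENNReal.coe_one]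
  have e1 := hcone z hz1 h2
  have e2 := corner (t := t) z
  have e3 := bridges_le h2
  have e4 := HoA_key t h3
  rw [hinv] at e1 e3
  have e5 : (ε : ℝ≥0∞) ^ 2 * ((c : ℝ≥0∞) * ((x⁻¹ : ℝ≥0) : ℝ≥0∞)) ^ 2 ≤ ((x⁻¹ : ℝ≥0) : ℝ≥0∞) :=
    calc (ε : ℝ≥0∞) ^ 2 * ((c : ℝ≥0∞) * ((x⁻¹ : ℝ≥0) : ℝ≥0∞)) ^ 2
        ≤ (ε : ℝ≥0∞) ^ 2 * gf (conew t) z ^ 2 := mul_le_mul' le_rfl (pow_le_pow_left' e1 2)
      _ ≤ (ε : ℝ≥0∞) ^ 2 * gf (saws t) z := mul_le_mul' le_rfl e2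
      _ ≤ gf (bridges t) z := e4
      _ ≤ _ := e3
  have e6 : ε ^ 2 * (c * x⁻¹) ^ 2 ≤ x⁻¹ := by exact_mod_cast e5
  have e7 : c ^ 2 * ε ^ 2 ≤ x := by
    have h5 : ε ^ 2 * (c * x⁻¹) ^ 2 * x ^ 2 ≤ x⁻¹ * x ^ 2 := mul_le_mul' e6 le_rfl
    have h6 : ε ^ 2 * (c * x⁻¹) ^ 2 * x ^ 2 = c ^ 2 * ε ^ 2 := by
      field_simp
    have h7 : x⁻¹ * x ^ 2 = x := by
      field_simp
    rwa [h6, h7] at h5
  exact absurd hx1 (not_lt.2 e7)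

theorem three_small (t : Bool) {ε : ℝ≥0} (hε : 0 < ε) :
    ∃ z₀ < zc t, ∀ z, z₀ < z → z < zc t →
      gf3 t z ≤ (ε : ℝ≥0∞) * gf (saws t) z ^ 3 := by
  set η : ℝ≥0 := min 1 (ε / 2) with hη
  have hη0 : 0 < η := lt_min one_pos (by positivity)
  have hη1 : η ^ 2 ≤ ε / 2 := by
    calc η ^ 2 = η * η := sq η
      _ ≤ 1 * (ε / 2) := mul_le_mul' (min_le_left _ _) (min_le_right _ _)
      _ = ε / 2 := one_mul _
  set δ : ℝ≥0 := min 1 (ε * η / 64) with hδ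
  have hδ0 : 0 < δ := lt_min one_pos (by positivity)
  have hδ1 : δ ^ 2 ≤ ε * η / 64 := by
    calc δ ^ 2 = δ * δ := sq δ
      _ ≤ 1 * (ε * η / 64) := mul_le_mul' (min_le_left _ _) (min_le_right _ _)
      _ = ε * η / 64 := one_mul _
  have hδ2 : 32 * η⁻¹ * δ ^ 2 ≤ ε / 2 := by
    calc 32 * η⁻¹ * δ ^ 2 ≤ 32 * η⁻¹ * (ε * η / 64) := mul_le_mul' le_rfl hδ1
      _ = ε / 2 := by
        field_simp
        norm_num
  obtain ⟨z₀, hz₀, h⟩ := half_small t hδ0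
  refine ⟨z₀, hz₀, fun z h1 h2 => ?_⟩
  have e1 := h z h1 h2
  have e2 := three_le hη0 h2
  have e3 : ((η ^ 2 + 32 * η⁻¹ * δ ^ 2 : ℝ≥0) : ℝ≥0∞) ≤ (ε : ℝ≥0∞) := by
    rw [ENNReal.coe_le_coe]
    calc η ^ 2 + 32 * η⁻¹ * δ ^ 2 ≤ ε / 2 + ε / 2 := add_le_add hη1 hδ2
      _ = ε := add_halves ε
  calc gf3 t z ≤ (η : ℝ≥0∞) ^ 2 * gf (saws t) z ^ 3 +
      32 * (η : ℝ≥0∞)⁻¹ * gf (halfs t) z ^ 2 * gf (saws t) z := e2
    _ ≤ (η : ℝ≥0∞) ^ 2 * gf (saws t) z ^ 3 +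
      32 * (η : ℝ≥0∞)⁻¹ * ((δ : ℝ≥0∞) * gf (saws t) z) ^ 2 * gf (saws t) z := by
        refine add_le_add le_rfl (mul_le_mul' (mul_le_mul' le_rfl ?_) le_rfl)
        exact pow_le_pow_left' e1 2
    _ = ((η ^ 2 + 32 * η⁻¹ * δ ^ 2 : ℝ≥0) : ℝ≥0∞) * gf (saws t) z ^ 3 := by
        push_cast
        rw [ENNReal.coe_inv hη0.ne']
        ring
    _ ≤ (ε : ℝ≥0∞) * gf (saws t) z ^ 3 := mul_le_mul' e3 le_rfl

end Pool.Agent.SH3
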