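import Pool.Agent.SH3.Base

/-!
# Half-plane walks cut at their last cut point

Paper proofs.

* `halfs_le_nocut`: for `l ∈ halfs t` let `k` be the largest index with `l.take k ∈ bridges t` and
  `l.drop k ∈ halfs t` (`k = 0` is possible).  Then `l.drop k ∈ nocut t`: if `l.drop k = u ++ v` with
  `u ∈ bridges t`, `v ∈ halfs t`, then `l.take k ++ u ∈ bridges t` (`bridge_append`) and maximality give
  `u = []`.  So `l ↦ (l.take k, l.drop k)` is an injection of `halfs t` into
  `bridges t ×ˢ nocut t` (`gf_le_gf2_of_inj`, `gf2_prod`).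
* `nocut_sq`: the map `((r, b), r') ↦ r.reverse ++ (b ++ r')` from `(nocut × bridges) × nocut` to `saws t`
  is injective.  It is self-avoiding by `joint_mem` (`SHP.Walks`), since `b ++ r' ∈ halfs t`
  (`bridge_append_half`).  Injectivity: let `r.reverse ++ (b ++ r') = s.reverse ++ (c ++ s')` with
  `|r| < |s|`.  Then `s.reverse = r.reverse ++ x`, `b ++ r' = x ++ (c ++ s')` with `x ≠ []`, so
  `s = x.reverse ++ r`.  `x` is a start segment of the half-plane word `b ++ r'`, so `x ∈ halfs t`, and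
  `x.reverse` is a start segment of `s ∈ halfs t`, so `x.reverse ∈ halfs t`.  Hence `x.reverse` is a bridge
  (for an end segment `v` of `x.reverse`, `v.reverse` is a start segment of `x`, so
  `v.sum.1 ≥ 0`), and `r ∈ halfs t`: this contradicts `s ∈ nocut t`.  By symmetry `|r| = |s|`, `r = s`,
  `b ++ r' = c ++ s'`.  If `|b| < |c|`: `c = b ++ x`, `r' = x ++ s'`, `x ≠ []`, `x` is a start segment of
  `r' ∈ halfs t` and an end segment of the bridge `c`, hence a bridge, and `s' ∈ halfs t`, a contradiction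
  to `r' ∈ nocut t`.
-/

set_option linter.all false

namespace Pool.Agent.SH3

open Pool.Agent.SHP
open scoped ENNReal NNReal

variable {t : Bool}

private theorem nil_mem_nocut : ([] : List (ℤ × ℤ)) ∈ nocut t := by
  refine ⟨nil_mem_bridges.1, ?_⟩
  intro u v h _ _
  exact (List.append_eq_nil_iff.mp h.symm).1

private theorem half_split (n : ℕ) : ∀ l : List (ℤ × ℤ), l.length ≤ n → l ∈ halfs t →
    ∃ u ∈ bridges t, ∃ v ∈ nocut t, l = u ++ v := by
  induction n with
  | zero =>
    intro l hn hl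
    have : l = [] := List.length_eq_zero_iff.mp (by omega)
    subst this
    exact ⟨[], nil_mem_bridges, [], nil_mem_nocut, rfl⟩
  | succ n ih =>
    intro l hn hl
    by_cases h : l ∈ nocut t
    · exact ⟨[], nil_mem_bridges, l, h, rfl⟩
    · have : ∃ u v : List (ℤ × ℤ), l = u ++ v ∧ u ∈ bridges t ∧ v ∈ halfs t ∧ u ≠ [] := by
        by_contra hcon
        push Not at hcon
        exact h ⟨hl, fun u v h1 h2 h3 => hcon u v h1 h2 h3⟩
      obtain ⟨u, v, huv, hu, hv, hne⟩ := this
      have hpos : 0 < u.length := List.length_pos_iff.mpr hne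
      have hvl : v.length ≤ n := by
        have := congrArg List.length huv
        rw [List.length_append] at this
        omega
      obtain ⟨u', hu', v', hv', hv2⟩ := ih v hvl hv
      exact ⟨u ++ u', bridge_append hu hu', v', hv', by rw [huv, hv2]; simp⟩

theorem halfs_le_nocut (z : ℝ≥0) :
    gf (halfs t) z ≤ gf (bridges t) z * gf (nocut t) z := by
  classical
  have hex : ∀ l : List (ℤ × ℤ), ∃ p : List (ℤ × ℤ) × List (ℤ × ℤ), l ∈ halfs t →
      p ∈ bridges t ×ˢ nocut t ∧ l = p.1 ++ p.2 := by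
    intro l
    by_cases h : l ∈ halfs t
    · obtain ⟨u, hu, v, hv, huv⟩ := half_split l.length l le_rfl h
      exact ⟨(u, v), fun _ => ⟨⟨hu, hv⟩, huv⟩⟩
    · exact ⟨([], l), fun h' => absurd h' h⟩
  choose f hf using hex
  rw [← gf2_prod]
  refine gf_le_gf2_of_inj z f (fun a ha => (hf a ha).1) ?_ ?_
  · intro a ha b hb hab
    rw [(hf a ha).2, (hf b hb).2, hab]
  · intro a ha
    have := congrArg List.length (hf a ha).2
    rw [List.length_append] at this
    exact this.symm

private theorem overA {r x w : List (ℤ × ℤ)} (hr : r ∈ halfs t) (hs : x.reverse ++ r ∈ nocut t)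
    (hx : x ++ w ∈ halfs t) : x = [] := by
  have h1 : x ∈ halfs t := halfs_prefix hx
  have h2 : x.reverse ∈ halfs t := halfs_prefix hs.1
  have h3 : x.reverse ∈ bridges t := by
    refine ⟨h2, ?_⟩
    intro u v huv
    have hxe : x = v.reverse ++ u.reverse := by
      rw [← List.reverse_reverse x, huv]; simp
    by_cases hv : v = []
    · subst hv; simp
    · have := h1.2 _ _ hxe (by simpa using hv)
      rw [List.sum_reverse] at this
      exact this.le
  have h4 := hs.2 x.reverse r rfl h3 hr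
  simpa using h4

private theorem overB {b x s' : List (ℤ × ℤ)} (hc : b ++ x ∈ bridges t)
    (hr : x ++ s' ∈ nocut t) (hs : s' ∈ halfs t) : x = [] := by
  refine hr.2 x s' rfl ⟨halfs_prefix hr.1, ?_⟩ hs
  intro u v huv
  exact hc.2 (b ++ u) v (by rw [huv]; simp)

theorem nocut_inj {r b r' s c s' : List (ℤ × ℤ)} (hr : r ∈ nocut t) (hb : b ∈ bridges t)
    (hr' : r' ∈ nocut t) (hs : s ∈ nocut t) (hc : c ∈ bridges t) (hs' : s' ∈ nocut t)
    (h : r.reverse ++ (b ++ r') = s.reverse ++ (c ++ s')) : r = s ∧ b = c ∧ r' = s' := by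
  have h1 : r = s ∧ b ++ r' = c ++ s' := by
    rcases List.append_eq_append_iff.mp h with ⟨x, hx1, hx2⟩ | ⟨x, hx1, hx2⟩
    · have e1 : s = x.reverse ++ r := by
        rw [← List.reverse_reverse s, hx1]; simp
      have e2 : x = [] := by
        refine overA hr.1 (e1 ▸ hs) (w := c ++ s') ?_
        rw [← hx2]
        exact bridge_append_half hb hr'.1
      subst e2
      exact ⟨by rw [e1]; simp, by rw [hx2]; simp⟩
    · have e1 : r = x.reverse ++ s := by
        rw [← List.reverse_reverse r, hx1]; simp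
      have e2 : x = [] := by
        refine overA hs.1 (e1 ▸ hr) (w := b ++ r') ?_
        rw [← hx2]
        exact bridge_append_half hc hs'.1
      subst e2
      exact ⟨by rw [e1]; simp, by rw [hx2]; simp⟩
  refine ⟨h1.1, ?_⟩
  rcases List.append_eq_append_iff.mp h1.2 with ⟨x, hx1, hx2⟩ | ⟨x, hx1, hx2⟩
  · have e2 : x = [] := overB (hx1 ▸ hc) (hx2 ▸ hr') hs'.1
    subst e2
    exact ⟨by rw [hx1]; simp, by rw [hx2]; simp⟩
  · have e2 : x = [] := overB (hx1 ▸ hb) (hx2 ▸ hs') hr'.1
    subst e2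
    exact ⟨by rw [hx1]; simp, by rw [hx2]; simp⟩

theorem nocut_sq (z : ℝ≥0) :
    gf (nocut t) z ^ 2 * gf (bridges t) z ≤ gf (saws t) z := by
  set A : Set (List (ℤ × ℤ)) := {l | ∃ b ∈ bridges t, ∃ r ∈ nocut t, l = b ++ r} with hA
  have s1 : gf (bridges t) z * gf (nocut t) z ≤ gf A z := by
    rw [← gf2_prod]
    refine gf2_le_gf_of_inj z (fun p => p.1 ++ p.2) ?_ ?_ ?_
    · rintro ⟨b, r⟩ ⟨hb, hr⟩
      exact ⟨b, hb, r, hr, rfl⟩
    · rintro ⟨b, r⟩ ⟨hb, hr⟩ ⟨c, s⟩ ⟨hc, hs⟩ h
      have h' : b ++ r = c ++ s := h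
      obtain ⟨_, h2, h3⟩ := nocut_inj (t := t) nil_mem_nocut hb hr nil_mem_nocut hc hs
        (by rw [h'])
      exact Prod.ext h2 h3
    · rintro ⟨b, r⟩ _
      exact List.length_append
  have s2 : gf (nocut t) z * gf A z ≤ gf (saws t) z := by
    rw [← gf2_prod]
    refine gf2_le_gf_of_inj z (fun p => p.1.reverse ++ p.2) ?_ ?_ ?_
    · rintro ⟨r, l⟩ ⟨hr, b, hb, r', hr', hl⟩
      have hl' : l = b ++ r' := hl
      show r.reverse ++ l ∈ saws t
      rw [hl']
      exact joint_mem hr.1 (bridge_append_half hb hr'.1)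
    · rintro ⟨r, l⟩ ⟨hr, b, hb, r', hr', hl⟩ ⟨s, m⟩ ⟨hs, c, hc, s', hs', hm⟩ h
      have hl' : l = b ++ r' := hl
      have hm' : m = c ++ s' := hm
      have h' : r.reverse ++ l = s.reverse ++ m := h
      rw [hl', hm'] at h'
      obtain ⟨h1, h2, h3⟩ := nocut_inj hr hb hr' hs hc hs' h'
      exact Prod.ext h1 (by show l = m; rw [hl', hm', h2, h3])
    · rintro ⟨r, l⟩ _
      simp
  calc gf (nocut t) z ^ 2 * gf (bridges t) z
      = gf (nocut t) z * (gf (bridges t) z * gf (nocut t) z) := by ring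
    _ ≤ gf (nocut t) z * gf A z := mul_le_mul_right s1 _
    _ ≤ _ := s2

end Pool.Agent.SH3
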