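import Pool.Agent.SH3.Base

/-!
# Two walks, their point reflections and a long walk: a parity argument

For a point `v = (a, b)` and an (unoriented) edge `p q` put `chi v p q = 1` (in `ZMod 2`) if one end of the
edge is in the row `y = b`, with first coordinate `< a`, and the other end is in the row `y = b + 1`.
`sg p = 1` if `p.2 > 0` or (`p.2 = 0` and `p.1 > 0`).

Paper proofs.

* `chi_move`: for two adjacent points `v`, `v'` there is a function `s : ℤ × ℤ → ZMod 2` such that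
  `chi v p q + chi v' p q = s p + s q` for every edge `p q` (`q - p ∈ steps t`) with `p, q ∉ {v, v'}`.
  Let `v = (a, b)`.  For `v' = v ± (1, 0)` take `s = 0`.  For `v' = (a, b + 1)` take `s` the indicator of
  `{(x, b + 1) | x < a}`; for `v' = (a - 1, b + 1)` (only `t = true`) the indicator of
  `{(x, b + 1) | x < a - 1}`; the other cases are obtained by exchanging `v` and `v'`.  Check
  each step `q - p ∈ steps t` (`fin_cases`/`simp [steps]`, `split_ifs`, `omega`).
* `chi_zero`: for every edge `p q` with `p, q ≠ 0`: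
  `chi 0 p q + chi 0 (-p) (-q) = sg p + sg q`.
* `chi_out`: if `v` is outside the box `|x| ≤ n, |y| ≤ n` there is `s` with `chi v p q = s p + s q` for
  all edges `p q` inside the box: if `v.1 > n` take `s` the indicator of `y ≤ v.2`, otherwise `s = 0`.
* `tele`: `∑_{k ∈ Ico m M} (s (f k) + s (f (k + 1))) = s (f m) + s (f M)` in `ZMod 2`.
* `sym_cross`.  Write `P1 i = (u1.take i).sum`, `P2 j = (u2.take j).sum`.  Suppose that neither `Disj u1 u2` nor
  `Disj u1 (neg u2)`.  Then there are `i1, j1 ≥ 1` with `P1 i1 = P2 j1 =: a` and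
  `i2, j2 ≥ 1` with `P1 i2 = - P2 j2 =: b` (if one of the two start segments is empty, the other one has
  sum zero, so it is empty as well, because the words are self-avoiding).  For a point `v` put
  `Pi v = ∑ chi v (P1 k) (P1 (k+1)) + ∑ chi v (-P1 k) (-P1 (k+1))` over `k` between `i1` and `i2` (that is
  `k ∈ Ico (min i1 i2) (max i1 i2)`) plus
  `∑ chi v (P2 k) (P2 (k+1)) + ∑ chi v (-P2 k) (-P2 (k+1))` over `k` between `j1` and `j2`.
  (i) If all edges in `Pi` satisfy `chi v p q = s p + s q`, then, by `tele`, `Pi v = s a + s b + s (-a) + s (-b) +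
  s a + s (-b) + s (-a) + s b = 0`; the same for `chi v + chi v'`.
  (ii) All vertices used in `Pi` are `≠ 0` (indices between two positive indices are positive, `u1`, `u2`
  are self-avoiding), lie in the box `|x|, |y| ≤ n` (`steps_bound`), and are not vertices of `w`: this is
  `Disj w u1`, `Disj w (neg u1)`, `Disj w u2`, `Disj w (neg u2)` with nonempty start segments.
  (iii) By (i) with `chi_move`, `Pi` has the same value at two consecutive vertices of `w`.  `w` has at least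
  `(2 n + 1) ^ 2 + 1` distinct vertices, so one of them is outside the box; there `Pi = 0` by (i) and
  `chi_out`.  So `Pi 0 = 0`.
  (iv) By `chi_zero` and `tele`, `Pi 0 = sg a + sg b + sg a + sg (-b) = sg b + sg (-b) = 1`, since `b ≠ 0`.
-/

namespace Pool.Agent.SH3

open Pool.Agent.SHP
open scoped ENNReal NNReal

variable {t : Bool}

open Classical in
noncomputable def chi (v p q : ℤ × ℤ) : ZMod 2 :=
  if (p.2 = v.2 ∧ q.2 = v.2 + 1 ∧ p.1 < v.1) ∨ (q.2 = v.2 ∧ p.2 = v.2 + 1 ∧ q.1 < v.1) then 1 else 0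

open Classical in
noncomputable def sg (p : ℤ × ℤ) : ZMod 2 :=
  if 0 < p.2 ∨ (p.2 = 0 ∧ 0 < p.1) then 1 else 0

private theorem Par_steps_cases {s : ℤ × ℤ} (h : s ∈ steps t) :
    (s = (1, 0) ∨ s = (-1, 0) ∨ s = (0, 1) ∨ s = (0, -1)) ∨ (s = (1, -1) ∨ s = (-1, 1)) := by
  cases t
  · simp only [steps, Bool.false_eq_true, if_false, Finset.mem_insert,
      Finset.mem_singleton] at h
    exact Or.inl h
  · simp only [steps, if_true, Finset.mem_insert, Finset.mem_singleton] at h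
    tauto

private theorem Par_two : (1 : ZMod 2) + 1 = 0 := by decide

private theorem Par_move1 {v v' : ℤ × ℤ} (h : v'.1 = v.1 + 1 ∧ v'.2 = v.2) :
    ∃ s : ℤ × ℤ → ZMod 2, ∀ p q : ℤ × ℤ, q - p ∈ steps t → p ≠ v → p ≠ v' → q ≠ v → q ≠ v' →
      chi v p q + chi v' p q = s p + s q := by
  refine ⟨fun _ => 0, ?_⟩
  intro p q hpq hp hp' hq hq'
  obtain ⟨h1, h2⟩ := h
  have e : chi v p q = chi v' p q := by
    unfold chi
    rw [h2, h1]
    congr 1
    rw [Ne, Prod.ext_iff] at hp hq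
    apply propext
    constructor
    · rintro (⟨a1, a2, a3⟩ | ⟨a1, a2, a3⟩)
      · exact Or.inl ⟨a1, a2, by omega⟩
      · exact Or.inr ⟨a1, a2, by omega⟩
    · rintro (⟨a1, a2, a3⟩ | ⟨a1, a2, a3⟩)
      · exact Or.inl ⟨a1, a2, by omega⟩
      · exact Or.inr ⟨a1, a2, by omega⟩
  rw [e, CharTwo.add_self_eq_zero, CharTwo.add_self_eq_zero]

open Classical in
private theorem Par_move2 {v v' : ℤ × ℤ} (h : v'.2 = v.2 + 1 ∧ (v'.1 = v.1 ∨ v'.1 = v.1 - 1)) :
    ∃ s : ℤ × ℤ → ZMod 2, ∀ p q : ℤ × ℤ, q - p ∈ steps t → p ≠ v → p ≠ v' → q ≠ v → q ≠ v' →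
      chi v p q + chi v' p q = s p + s q := by
  refine ⟨fun p => if p.2 = v'.2 ∧ p.1 < v'.1 then 1 else 0, ?_⟩
  intro p q hpq hp hp' hq hq'
  obtain ⟨h1, h2⟩ := h
  rw [Ne, Prod.ext_iff] at hp hp' hq hq'
  have hs := Par_steps_cases hpq
  simp only [Prod.ext_iff, Prod.fst_sub, Prod.snd_sub] at hs
  unfold chi
  simp only []
  split_ifs <;> first | rfl | (exfalso; omega)

theorem chi_move {v v' : ℤ × ℤ} (h : v' - v ∈ steps t) :
    ∃ s : ℤ × ℤ → ZMod 2, ∀ p q : ℤ × ℤ, q - p ∈ steps t → p ≠ v → p ≠ v' → q ≠ v → q ≠ v' →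
      chi v p q + chi v' p q = s p + s q := by
  have hs := Par_steps_cases h
  simp only [Prod.ext_iff, Prod.fst_sub, Prod.snd_sub] at hs
  have sw : (∃ s : ℤ × ℤ → ZMod 2, ∀ p q : ℤ × ℤ, q - p ∈ steps t → p ≠ v' → p ≠ v → q ≠ v' →
      q ≠ v → chi v' p q + chi v p q = s p + s q) →
      ∃ s : ℤ × ℤ → ZMod 2, ∀ p q : ℤ × ℤ, q - p ∈ steps t → p ≠ v → p ≠ v' → q ≠ v → q ≠ v' →
      chi v p q + chi v' p q = s p + s q := by
    rintro ⟨s, hs⟩
    refine ⟨s, fun p q h1 h2 h3 h4 h5 => ?_⟩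
    rw [add_comm]
    exact hs p q h1 h3 h2 h5 h4
  rcases hs with (h1 | h1 | h1 | h1) | (h1 | h1)
  · exact Par_move1 ⟨by omega, by omega⟩
  · exact sw (Par_move1 ⟨by omega, by omega⟩)
  · exact Par_move2 ⟨by omega, Or.inl (by omega)⟩
  · exact sw (Par_move2 ⟨by omega, Or.inl (by omega)⟩)
  · exact sw (Par_move2 ⟨by omega, Or.inr (by omega)⟩)
  · exact Par_move2 ⟨by omega, Or.inr (by omega)⟩

theorem chi_zero {p q : ℤ × ℤ} (h : q - p ∈ steps t) (hp : p ≠ 0) (hq : q ≠ 0) :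
    chi 0 p q + chi 0 (-p) (-q) = sg p + sg q := by
  rw [Ne, Prod.ext_iff] at hp hq
  have hs := Par_steps_cases h
  simp only [Prod.ext_iff, Prod.fst_sub, Prod.snd_sub] at hs
  simp only [Prod.fst_zero, Prod.snd_zero] at hp hq
  unfold chi sg
  simp only [Prod.fst_zero, Prod.snd_zero, Prod.fst_neg, Prod.snd_neg]
  split_ifs <;> first | rfl | (exfalso; omega)

open Classical in
theorem chi_out {v : ℤ × ℤ} {n : ℕ} (h : (n : ℤ) < |v.1| ∨ (n : ℤ) < |v.2|) :
    ∃ s : ℤ × ℤ → ZMod 2, ∀ p q : ℤ × ℤ, q - p ∈ steps t → |p.1| ≤ n → |p.2| ≤ n →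
      |q.1| ≤ n → |q.2| ≤ n → chi v p q = s p + s q := by
  by_cases hv : (n : ℤ) < v.1
  · refine ⟨fun p => if p.2 ≤ v.2 then 1 else 0, ?_⟩
    intro p q hpq h1 h2 h3 h4
    have hs := Par_steps_cases hpq
    simp only [Prod.ext_iff, Prod.fst_sub, Prod.snd_sub] at hs
    rw [abs_le] at h1 h2 h3 h4
    unfold chi
    simp only []
    split_ifs <;> first | rfl | (exfalso; omega)
  · refine ⟨fun p => 0, ?_⟩
    intro p q hpq h1 h2 h3 h4
    rw [abs_le] at h1 h2 h3 h4
    rw [lt_abs, lt_abs] at h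
    unfold chi
    simp only []
    split_ifs <;> first | rfl | (exfalso; omega)

theorem tele (s : ℤ × ℤ → ZMod 2) (f : ℕ → ℤ × ℤ) {m M : ℕ} (h : m ≤ M) :
    ∑ k ∈ Finset.Ico m M, (s (f k) + s (f (k + 1))) = s (f m) + s (f M) := by
  induction M, h using Nat.le_induction with
  | base => rw [Finset.Ico_self, Finset.sum_empty, CharTwo.add_self_eq_zero]
  | succ M hM ih =>
    rw [Finset.sum_Ico_succ_top hM, ih]
    have h2 := CharTwo.add_self_eq_zero (s (f M))
    linear_combination h2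

private theorem Par_step {l : List (ℤ × ℤ)} (hl : l ∈ saws t) {k : ℕ} (hk : k < l.length) :
    (l.take (k + 1)).sum - (l.take k).sum ∈ steps t := by
  rw [List.sum_take_succ l k hk, add_sub_cancel_left]
  exact hl.1 _ (List.getElem_mem hk)

private theorem Par_inj {l : List (ℤ × ℤ)} (hl : l ∈ saws t) {i j : ℕ} (hij : i < j)
    (hj : j ≤ l.length) : (l.take i).sum ≠ (l.take j).sum := by
  intro h
  have h0 : l.take i ++ (l.take j).drop i = l.take j := by
    have h' := List.take_append_drop i (l.take j)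
    rwa [List.take_take, min_eq_left hij.le] at h'
  have h1 : l = l.take i ++ ((l.take j).drop i ++ l.drop j) := by
    rw [← List.append_assoc, h0, List.take_append_drop]
  have h2 : ((l.take j).drop i).sum = 0 := by
    have h' : (l.take i ++ (l.take j).drop i).sum = (l.take j).sum := by rw [h0]
    rw [List.sum_append, ← h] at h'
    exact add_eq_left.1 h'
  have h3 := hl.2 _ _ _ h1 h2
  have h4 := congrArg List.length h3
  rw [List.length_drop, List.length_take, List.length_nil] at h4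
  omega

private theorem Par_bound {l : List (ℤ × ℤ)} (hl : l ∈ saws t) {i : ℕ} (hi : i ≤ l.length) :
    |(l.take i).sum.1| ≤ i ∧ |(l.take i).sum.2| ≤ i := by
  induction i with
  | zero => simp
  | succ i ih =>
    obtain ⟨h1, h2⟩ := ih (by omega)
    rw [List.sum_take_succ l i (by omega)]
    obtain ⟨h3, h4, -⟩ := steps_bound (hl.1 _ (List.getElem_mem (show i < l.length by omega)))
    push_cast
    rw [Prod.fst_add, Prod.snd_add]
    exact ⟨(abs_add_le _ _).trans (by omega), (abs_add_le _ _).trans (by omega)⟩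

/-- A long walk leaves the box. -/
theorem leaves_box {w : List (ℤ × ℤ)} (hw : w ∈ saws t) {n : ℕ} (h : (2 * n + 1) ^ 2 ≤ w.length) :
    ∃ i ≤ w.length, (n : ℤ) < |(w.take i).sum.1| ∨ (n : ℤ) < |(w.take i).sum.2| := by
  by_contra hcon
  push Not at hcon
  have hcard : (Finset.range (w.length + 1)).card ≤
      ((Finset.Icc (-(n : ℤ)) n) ×ˢ (Finset.Icc (-(n : ℤ)) n)).card := by
    refine Finset.card_le_card_of_injOn (fun i => (w.take i).sum) ?_ ?_
    · intro i hi
      have hi' : i ≤ w.length := by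
        have := Finset.mem_range.1 hi
        omega
      obtain ⟨h1, h2⟩ := hcon i hi'
      simp only [Finset.coe_product, Finset.coe_Icc, Set.mem_prod, Set.mem_Icc]
      exact ⟨abs_le.1 h1, abs_le.1 h2⟩
    · intro i hi j hj hij
      have hi' : i ≤ w.length := by
        have := Finset.mem_range.1 hi
        omega
      have hj' : j ≤ w.length := by
        have := Finset.mem_range.1 hj
        omega
      rcases lt_trichotomy i j with h1 | h1 | h1
      · exact absurd hij (Par_inj hw h1 hj')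
      · exact h1
      · exact absurd hij.symm (Par_inj hw h1 hi')
  rw [Finset.card_range, Finset.card_product, Int.card_Icc] at hcard
  have e : ((n : ℤ) + 1 - -(n : ℤ)).toNat = 2 * n + 1 := by omega
  rw [e, ← pow_two] at hcard
  omega

private theorem Par_disj {w u : List (ℤ × ℤ)} (h : Disj w u) {i k : ℕ} (hi : i ≤ w.length)
    (hk : k ≤ u.length) (h1 : 1 ≤ k) : (u.take k).sum ≠ (w.take i).sum := by
  intro he
  obtain ⟨-, h3⟩ := h (w.take i) (u.take k) (w.drop i) (u.drop k) (List.take_append_drop _ _).symm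
    (List.take_append_drop _ _).symm he.symm
  have h4 := congrArg List.length h3
  rw [List.length_take, List.length_nil] at h4
  omega

private theorem Par_neg_take (u : List (ℤ × ℤ)) (k : ℕ) :
    ((neg u).take k).sum = -(u.take k).sum := by
  rw [← sum_neg]
  unfold neg
  rw [List.map_take]

private theorem Par_notdisj {u v : List (ℤ × ℤ)} (hu : u ∈ saws t) (hv : v ∈ saws t)
    (h : ¬ Disj u v) : ∃ i j : ℕ, 1 ≤ i ∧ i ≤ u.length ∧ 1 ≤ j ∧ j ≤ v.length ∧
      (u.take i).sum = (v.take j).sum := by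
  unfold Disj at h
  push Not at h
  obtain ⟨p, q, r, s, hp, hq, hpq, hne⟩ := h
  have e1 : u.take p.length = p := by rw [hp, List.take_left']; rfl
  have e2 : v.take q.length = q := by rw [hq, List.take_left']; rfl
  have l1 : p.length ≤ u.length := by rw [hp, List.length_append]; omega
  have l2 : q.length ≤ v.length := by rw [hq, List.length_append]; omega
  have hp0 : p ≠ [] := by
    intro h0
    have h1 : q = [] := by
      refine hv.2 [] q s (by rw [hq]; rfl) ?_
      rw [← hpq, h0, List.sum_nil]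
    exact hne h0 h1
  have hq0 : q ≠ [] := by
    intro h0
    have h1 : p = [] := by
      refine hu.2 [] p r (by rw [hp]; rfl) ?_
      rw [hpq, h0, List.sum_nil]
    exact hp0 h1
  refine ⟨p.length, q.length, List.length_pos_iff.2 hp0, l1, List.length_pos_iff.2 hq0, l2, ?_⟩
  rw [e1, e2, hpq]

/-- The sum over the edges of the two arcs and their reflections. -/
private def ParS (c : ℤ × ℤ → ℤ × ℤ → ZMod 2) (P1 P2 : ℕ → ℤ × ℤ) (m1 M1 m2 M2 : ℕ) : ZMod 2 :=
  ∑ k ∈ Finset.Ico m1 M1, (c (P1 k) (P1 (k + 1)) + c (-P1 k) (-P1 (k + 1))) +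
  ∑ k ∈ Finset.Ico m2 M2, (c (P2 k) (P2 (k + 1)) + c (-P2 k) (-P2 (k + 1)))

private theorem ParS_zero {P1 P2 : ℕ → ℤ × ℤ} {i1 i2 j1 j2 : ℕ} (ha : P1 i1 = P2 j1)
    (hb : P1 i2 = -P2 j2) (c : ℤ × ℤ → ℤ × ℤ → ZMod 2) (s : ℤ × ℤ → ZMod 2)
    (h1 : ∀ k ∈ Finset.Ico (min i1 i2) (max i1 i2),
      c (P1 k) (P1 (k + 1)) = s (P1 k) + s (P1 (k + 1)) ∧
      c (-P1 k) (-P1 (k + 1)) = s (-P1 k) + s (-P1 (k + 1)))
    (h2 : ∀ k ∈ Finset.Ico (min j1 j2) (max j1 j2),
      c (P2 k) (P2 (k + 1)) = s (P2 k) + s (P2 (k + 1)) ∧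
      c (-P2 k) (-P2 (k + 1)) = s (-P2 k) + s (-P2 (k + 1))) :
    ParS c P1 P2 (min i1 i2) (max i1 i2) (min j1 j2) (max j1 j2) = 0 := by
  have hs2 : ∀ z : ZMod 2, z + z = 0 := CharTwo.add_self_eq_zero
  have g1 : ∀ (f : ℕ → ℤ × ℤ) (m n : ℕ), s (f (min m n)) + s (f (max m n)) = s (f m) + s (f n) := by
    intro f m n
    rcases le_total m n with h | h
    · rw [min_eq_left h, max_eq_right h]
    · rw [min_eq_right h, max_eq_left h, add_comm]
  have e1 : ∑ k ∈ Finset.Ico (min i1 i2) (max i1 i2),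
      (c (P1 k) (P1 (k + 1)) + c (-P1 k) (-P1 (k + 1))) =
      (s (P1 i1) + s (P1 i2)) + (s (-P1 i1) + s (-P1 i2)) := by
    have t1 := tele s P1 (m := min i1 i2) (M := max i1 i2) (min_le_max)
    have t2 := tele s (fun k => -P1 k) (m := min i1 i2) (M := max i1 i2) (min_le_max)
    rw [g1 P1] at t1
    rw [g1 (fun k => -P1 k)] at t2
    rw [← t1, ← t2, ← Finset.sum_add_distrib]
    exact Finset.sum_congr rfl fun k hk => by rw [(h1 k hk).1, (h1 k hk).2]
  have e2 : ∑ k ∈ Finset.Ico (min j1 j2) (max j1 j2),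
      (c (P2 k) (P2 (k + 1)) + c (-P2 k) (-P2 (k + 1))) =
      (s (P2 j1) + s (P2 j2)) + (s (-P2 j1) + s (-P2 j2)) := by
    have t1 := tele s P2 (m := min j1 j2) (M := max j1 j2) (min_le_max)
    have t2 := tele s (fun k => -P2 k) (m := min j1 j2) (M := max j1 j2) (min_le_max)
    rw [g1 P2] at t1
    rw [g1 (fun k => -P2 k)] at t2
    rw [← t1, ← t2, ← Finset.sum_add_distrib]
    exact Finset.sum_congr rfl fun k hk => by rw [(h2 k hk).1, (h2 k hk).2]
  unfold ParS
  rw [e1, e2, ha, hb, _root_.neg_neg]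
  have k1 := hs2 (s (P2 j1))
  have k2 := hs2 (s (P2 j2))
  have k3 := hs2 (s (-P2 j1))
  have k4 := hs2 (s (-P2 j2))
  linear_combination k1 + k2 + k3 + k4

private theorem ParS_add (c c' : ℤ × ℤ → ℤ × ℤ → ZMod 2) (P1 P2 : ℕ → ℤ × ℤ) (m1 M1 m2 M2 : ℕ) :
    ParS (fun p q => c p q + c' p q) P1 P2 m1 M1 m2 M2 =
      ParS c P1 P2 m1 M1 m2 M2 + ParS c' P1 P2 m1 M1 m2 M2 := by
  unfold ParS
  have e : ∀ (P : ℕ → ℤ × ℤ) (m M : ℕ), ∑ k ∈ Finset.Ico m M,
      ((c (P k) (P (k + 1)) + c' (P k) (P (k + 1))) +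
        (c (-P k) (-P (k + 1)) + c' (-P k) (-P (k + 1)))) =
      ∑ k ∈ Finset.Ico m M, (c (P k) (P (k + 1)) + c (-P k) (-P (k + 1))) +
      ∑ k ∈ Finset.Ico m M, (c' (P k) (P (k + 1)) + c' (-P k) (-P (k + 1))) := by
    intro P m M
    rw [← Finset.sum_add_distrib]
    exact Finset.sum_congr rfl fun k _ => by ring
  rw [e P1, e P2]
  ring

theorem sym_cross {w u1 u2 : List (ℤ × ℤ)} {n : ℕ} (hw : w ∈ saws t) (hu1 : u1 ∈ saws t)
    (hu2 : u2 ∈ saws t) (h1 : u1.length ≤ n) (h2 : u2.length ≤ n)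
    (hN : (2 * n + 1) ^ 2 ≤ w.length) (d1 : Disj w u1) (d2 : Disj w (neg u1)) (d3 : Disj w u2)
    (d4 : Disj w (neg u2)) : Disj u1 u2 ∨ Disj u1 (neg u2) := by
  by_contra hcon
  push Not at hcon
  obtain ⟨n1, n2⟩ := hcon
  obtain ⟨i1, j1, hi1, hi1', hj1, hj1', hab⟩ := Par_notdisj hu1 hu2 n1
  obtain ⟨i2, j2, hi2, hi2', hj2, hj2', hbb⟩ := Par_notdisj hu1 (neg_mem_saws hu2) n2
  rw [neg_length] at hj2'
  rw [Par_neg_take] at hbb
  set P1 : ℕ → ℤ × ℤ := fun i => (u1.take i).sum with hP1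
  set P2 : ℕ → ℤ × ℤ := fun i => (u2.take i).sum with hP2
  have ha : P1 i1 = P2 j1 := hab
  have hb : P1 i2 = -P2 j2 := hbb
  -- facts about the vertices of the arcs
  have A1 : ∀ k ∈ Finset.Ico (min i1 i2) (max i1 i2), 1 ≤ k ∧ k + 1 ≤ u1.length := by
    intro k hk
    rw [Finset.mem_Ico] at hk
    omega
  have A2 : ∀ k ∈ Finset.Ico (min j1 j2) (max j1 j2), 1 ≤ k ∧ k + 1 ≤ u2.length := by
    intro k hk
    rw [Finset.mem_Ico] at hk
    omega
  have D1 : ∀ i ≤ w.length, ∀ k, 1 ≤ k → k ≤ u1.length → P1 k ≠ (w.take i).sum ∧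
      -P1 k ≠ (w.take i).sum := by
    intro i hi k hk hk'
    refine ⟨Par_disj d1 hi hk' hk, ?_⟩
    have := Par_disj d2 hi (by rw [neg_length]; exact hk') hk
    rwa [Par_neg_take] at this
  have D2 : ∀ i ≤ w.length, ∀ k, 1 ≤ k → k ≤ u2.length → P2 k ≠ (w.take i).sum ∧
      -P2 k ≠ (w.take i).sum := by
    intro i hi k hk hk'
    refine ⟨Par_disj d3 hi hk' hk, ?_⟩
    have := Par_disj d4 hi (by rw [neg_length]; exact hk') hk
    rwa [Par_neg_take] at this
  have S1 : ∀ k, k + 1 ≤ u1.length → P1 (k + 1) - P1 k ∈ steps t ∧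
      -P1 (k + 1) - -P1 k ∈ steps t := by
    intro k hk
    have h := Par_step hu1 (show k < u1.length by omega)
    refine ⟨h, ?_⟩
    have h' := steps_neg h
    rwa [show -P1 (k + 1) - -P1 k = -((u1.take (k + 1)).sum - (u1.take k).sum) by
      simp only [hP1]; abel]
  have S2 : ∀ k, k + 1 ≤ u2.length → P2 (k + 1) - P2 k ∈ steps t ∧
      -P2 (k + 1) - -P2 k ∈ steps t := by
    intro k hk
    have h := Par_step hu2 (show k < u2.length by omega)
    refine ⟨h, ?_⟩
    have h' := steps_neg h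
    rwa [show -P2 (k + 1) - -P2 k = -((u2.take (k + 1)).sum - (u2.take k).sum) by
      simp only [hP2]; abel]
  have B1 : ∀ k, k ≤ u1.length → (|(P1 k).1| ≤ n ∧ |(P1 k).2| ≤ n) ∧
      (|(-P1 k).1| ≤ n ∧ |(-P1 k).2| ≤ n) := by
    intro k hk
    obtain ⟨b1, b2⟩ := Par_bound hu1 hk
    have hk' : (k : ℤ) ≤ n := by exact_mod_cast hk.trans h1
    rw [Prod.fst_neg, Prod.snd_neg, abs_neg, abs_neg]
    exact ⟨⟨b1.trans hk', b2.trans hk'⟩, ⟨b1.trans hk', b2.trans hk'⟩⟩
  have B2 : ∀ k, k ≤ u2.length → (|(P2 k).1| ≤ n ∧ |(P2 k).2| ≤ n) ∧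
      (|(-P2 k).1| ≤ n ∧ |(-P2 k).2| ≤ n) := by
    intro k hk
    obtain ⟨b1, b2⟩ := Par_bound hu2 hk
    have hk' : (k : ℤ) ≤ n := by exact_mod_cast hk.trans h2
    rw [Prod.fst_neg, Prod.snd_neg, abs_neg, abs_neg]
    exact ⟨⟨b1.trans hk', b2.trans hk'⟩, ⟨b1.trans hk', b2.trans hk'⟩⟩
  set Q : (ℤ × ℤ) → ZMod 2 := fun v => ParS (chi v) P1 P2 (min i1 i2) (max i1 i2) (min j1 j2)
    (max j1 j2) with hQ
  -- Q is constant along w
  have C : ∀ i ≤ w.length, Q (w.take i).sum = Q 0 := by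
    intro i
    induction i with
    | zero => intro _; simp
    | succ i ih =>
      intro hi
      rw [← ih (by omega)]
      have hst := Par_step hw (show i < w.length by omega)
      obtain ⟨s, hs⟩ := chi_move hst
      have hz : ParS (fun p q => chi (w.take i).sum p q + chi (w.take (i + 1)).sum p q) P1 P2
          (min i1 i2) (max i1 i2) (min j1 j2) (max j1 j2) = 0 := by
        refine ParS_zero ha hb _ s ?_ ?_
        · intro k hk
          obtain ⟨k1, k2⟩ := A1 k hk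
          have x1 := D1 i (by omega) k k1 (by omega)
          have x2 := D1 (i + 1) hi k k1 (by omega)
          have x3 := D1 i (by omega) (k + 1) (by omega) k2
          have x4 := D1 (i + 1) hi (k + 1) (by omega) k2
          exact ⟨hs _ _ (S1 k k2).1 x1.1 x2.1 x3.1 x4.1, hs _ _ (S1 k k2).2 x1.2 x2.2 x3.2 x4.2⟩
        · intro k hk
          obtain ⟨k1, k2⟩ := A2 k hk
          have x1 := D2 i (by omega) k k1 (by omega)
          have x2 := D2 (i + 1) hi k k1 (by omega)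
          have x3 := D2 i (by omega) (k + 1) (by omega) k2
          have x4 := D2 (i + 1) hi (k + 1) (by omega) k2
          exact ⟨hs _ _ (S2 k k2).1 x1.1 x2.1 x3.1 x4.1, hs _ _ (S2 k k2).2 x1.2 x2.2 x3.2 x4.2⟩
      rw [ParS_add] at hz
      have hz' : Q (w.take i).sum + Q (w.take (i + 1)).sum = 0 := hz
      have h3 := CharTwo.add_self_eq_zero (Q (w.take i).sum)
      exact add_left_cancel (hz'.trans h3.symm)
  -- outside the box Q vanishes
  obtain ⟨i, hi, hout⟩ := leaves_box hw hN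
  have hQ0 : Q 0 = 0 := by
    rw [← C i hi]
    obtain ⟨s, hs⟩ := chi_out (t := t) hout
    refine ParS_zero ha hb _ s ?_ ?_
    · intro k hk
      obtain ⟨k1, k2⟩ := A1 k hk
      have y1 := B1 k (by omega)
      have y2 := B1 (k + 1) k2
      exact ⟨hs _ _ (S1 k k2).1 y1.1.1 y1.1.2 y2.1.1 y2.1.2,
        hs _ _ (S1 k k2).2 y1.2.1 y1.2.2 y2.2.1 y2.2.2⟩
    · intro k hk
      obtain ⟨k1, k2⟩ := A2 k hk
      have y1 := B2 k (by omega)
      have y2 := B2 (k + 1) k2
      exact ⟨hs _ _ (S2 k k2).1 y1.1.1 y1.1.2 y2.1.1 y2.1.2,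
        hs _ _ (S2 k k2).2 y1.2.1 y1.2.2 y2.2.1 y2.2.2⟩
  -- the value at zero
  have g1 : ∀ (f : ℕ → ℤ × ℤ) (m n : ℕ),
      sg (f (min m n)) + sg (f (max m n)) = sg (f m) + sg (f n) := by
    intro f m n
    rcases le_total m n with h | h
    · rw [min_eq_left h, max_eq_right h]
    · rw [min_eq_right h, max_eq_left h, add_comm]
  have N1 : ∀ k, 1 ≤ k → k ≤ u1.length → P1 k ≠ 0 := by
    intro k hk hk'
    have := (D1 0 (Nat.zero_le _) k hk hk').1
    simpa using this
  have N2 : ∀ k, 1 ≤ k → k ≤ u2.length → P2 k ≠ 0 := by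
    intro k hk hk'
    have := (D2 0 (Nat.zero_le _) k hk hk').1
    simpa using this
  have V : Q 0 = (sg (P1 i1) + sg (P1 i2)) + (sg (P2 j1) + sg (P2 j2)) := by
    have t1 := tele sg P1 (m := min i1 i2) (M := max i1 i2) (min_le_max)
    have t2 := tele sg P2 (m := min j1 j2) (M := max j1 j2) (min_le_max)
    rw [g1 P1] at t1
    rw [g1 P2] at t2
    rw [← t1, ← t2]
    simp only [hQ]
    unfold ParS
    refine congrArg₂ (· + ·) (Finset.sum_congr rfl fun k hk => ?_)
      (Finset.sum_congr rfl fun k hk => ?_)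
    · obtain ⟨k1, k2⟩ := A1 k hk
      exact chi_zero (S1 k k2).1 (N1 k k1 (by omega)) (N1 (k + 1) (by omega) k2)
    · obtain ⟨k1, k2⟩ := A2 k hk
      exact chi_zero (S2 k k2).1 (N2 k k1 (by omega)) (N2 (k + 1) (by omega) k2)
  have hb0 : P2 j2 ≠ 0 := N2 j2 hj2 hj2'
  have hsg : sg (-P2 j2) + sg (P2 j2) = 1 := by
    rw [Ne, Prod.ext_iff] at hb0
    simp only [Prod.fst_zero, Prod.snd_zero] at hb0
    unfold sg
    simp only [Prod.fst_neg, Prod.snd_neg]
    split_ifs <;> first | rfl | (exfalso; omega)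
  rw [hQ0, ha, hb] at V
  have k1 := CharTwo.add_self_eq_zero (sg (P2 j1))
  have : (0 : ZMod 2) = 1 := by linear_combination V + k1 + hsg
  exact absurd this (by decide)

end Pool.Agent.SH3
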