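import Pool.Agent.SH3.Uni
import Pool.Agent.SH3.Par

/-!
# A walk and a symmetrised walk

Write `a n = cnt (saws t) n`, `q m n = paircnt t m n`.

Paper proofs.

* `pair_sq`: let `(2 n + 1) ^ 2 ≤ m`.  For a walk `w` of length `m` let `k w` be the number of walks `u` of
  length `n` with `Disj w u` and `Disj w (neg u)`.  By `sym_cross` each of the `(k w) ^ 2` pairs
  `(u1, u2)` of such walks satisfies `Disj u1 u2` or `Disj u1 (neg u2)`; in both cases
  (`u2 ↦ neg u2` in the second one) the pair is counted in the number `T w` of pairs in `avoiding t w` with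
  lengths `n, n`.  So `(k w) ^ 2 ≤ 2 T w`.  Sum over `w`: `∑ k w = q m n`, `∑ T w = cnt3 m n n`, and
  Cauchy-Schwarz (`Finset.inner_mul_le_norm_mul_norm` or `sq_sum_le_card_mul_sum_sq`) gives
  `(q m n) ^ 2 ≤ a m * ∑ (k w) ^ 2 ≤ 2 * a m * cnt3 m n n`.
* `pair_restrict`: `q (i + a) (j + b) ≤ q i j * (a_a * a_b)` (as `cnt3_restrict`).
* `pair_le`: `q n n ≤ a (2 n)` (`pairs_le`).
* `uni2`: suppose `ε > 0` and `q n n > ε a_n ^ 2` for all `n ≥ N`.  By `pair_le` and `dichotomy`,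
  `a_n ≤ C μ ^ n` for all `n`.  By `pair_restrict` (as in the proof of `uni3`)
  `q i j ≥ (ε / C ^ 2) μ ^ (i + j)` for all `i`, `j`.  Let `n` be arbitrary and `m = (2 n + 1) ^ 2 ≥ n`.  By
  `pair_sq`, `cnt3 m n n ≥ (ε / C ^ 2) ^ 2 μ ^ (2 (m + n)) / (2 a_m) ≥
  (ε ^ 2 / (2 C ^ 5)) μ ^ (m + 2 n)`, and `cnt3_restrict` gives `cnt3 m n n ≤ cnt3 n n n * a_{m - n} ≤
  cnt3 n n n * C μ ^ (m - n)`.  So
  `cnt3 n n n ≥ (ε ^ 2 / (2 C ^ 6)) μ ^ (3 n) ≥ (ε ^ 2 / (2 C ^ 9)) a_n ^ 3` for all `n`: a contradiction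
  to `uni3` (take half of this constant).
-/

namespace Pool.Agent.SH3

open Pool.Agent.SHP
open scoped ENNReal NNReal

variable {t : Bool}

open Classical in
/-- The walks of length `n`. -/
private noncomputable def Pair_fin (t : Bool) (n : ℕ) : Finset (List (ℤ × ℤ)) :=
  (finite_words (saws t) (steps_of_saws t) n).toFinset

private theorem Pair_mem {n : ℕ} {l : List (ℤ × ℤ)} :
    l ∈ Pair_fin t n ↔ l ∈ saws t ∧ l.length = n := by
  unfold Pair_fin
  rw [Set.Finite.mem_toFinset]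
  rfl

private theorem Pair_card (t : Bool) (n : ℕ) : (Pair_fin t n).card = cnt (saws t) n := by
  unfold Pair_fin cnt
  rw [Set.ncard_eq_toFinset_card _ (finite_words (saws t) (steps_of_saws t) n)]

open Classical in
private theorem Pair_paircnt (t : Bool) (m n : ℕ) :
    paircnt t m n = ∑ w ∈ Pair_fin t m,
      ((Pair_fin t n).filter fun u => Disj w u ∧ Disj w (neg u)).card := by
  have h1 : {p : List (ℤ × ℤ) × List (ℤ × ℤ) |
      p.1 ∈ saws t ∧ p.2 ∈ saws t ∧ Disj p.1 p.2 ∧ Disj p.1 (neg p.2) ∧ p.1.length = m ∧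
        p.2.length = n} = ↑((Pair_fin t m ×ˢ Pair_fin t n).filter
          fun p => Disj p.1 p.2 ∧ Disj p.1 (neg p.2)) := by
    ext p
    simp only [Set.mem_ofPred_eq, Finset.coe_filter, Finset.mem_product, Pair_mem]
    tauto
  unfold paircnt
  rw [h1, Set.ncard_coe_finset, Finset.card_filter, Finset.sum_product]
  exact Finset.sum_congr rfl fun w _ => (Finset.card_filter _ _).symm

open Classical in
private theorem Pair_cnt3 (t : Bool) (i j k : ℕ) :
    cnt3 t i j k = ∑ w ∈ Pair_fin t i,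
      ((Pair_fin t j ×ˢ Pair_fin t k).filter fun p => p ∈ avoiding t w).card := by
  have h1 : {p : List (ℤ × ℤ) × (List (ℤ × ℤ) × List (ℤ × ℤ)) |
      p.1 ∈ saws t ∧ p.2 ∈ avoiding t p.1 ∧ p.1.length = i ∧ p.2.1.length = j ∧
        p.2.2.length = k} = ↑((Pair_fin t i ×ˢ (Pair_fin t j ×ˢ Pair_fin t k)).filter
          fun p => p.2 ∈ avoiding t p.1) := by
    ext p
    simp only [Set.mem_ofPred_eq, Finset.coe_filter, Finset.mem_product, Pair_mem, avoiding]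
    tauto
  unfold cnt3
  rw [h1, Set.ncard_coe_finset, Finset.card_filter, Finset.sum_product]
  exact Finset.sum_congr rfl fun w _ => (Finset.card_filter _ _).symm

open Classical in
private theorem Pair_local {w : List (ℤ × ℤ)} {m n : ℕ} (h : (2 * n + 1) ^ 2 ≤ m)
    (hw : w ∈ Pair_fin t m) :
    ((Pair_fin t n).filter fun u => Disj w u ∧ Disj w (neg u)).card ^ 2 ≤
      2 * ((Pair_fin t n ×ˢ Pair_fin t n).filter fun p => p ∈ avoiding t w).card := by
  set A := (Pair_fin t n).filter fun u => Disj w u ∧ Disj w (neg u) with hA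
  set T := (Pair_fin t n ×ˢ Pair_fin t n).filter fun p => p ∈ avoiding t w with hT
  have hw' := Pair_mem.1 hw
  have hAm : ∀ u, u ∈ A ↔ (u ∈ saws t ∧ u.length = n) ∧ Disj w u ∧ Disj w (neg u) := by
    intro u
    rw [hA, Finset.mem_filter, Pair_mem]
  have hTm : ∀ p, p ∈ T ↔ ((p.1 ∈ saws t ∧ p.1.length = n) ∧ (p.2 ∈ saws t ∧ p.2.length = n)) ∧
      p ∈ avoiding t w := by
    intro p
    rw [hT, Finset.mem_filter, Finset.mem_product, Pair_mem, Pair_mem]
  have h1 : A ×ˢ A ⊆ T ∪ T.image (fun p => (p.1, neg p.2)) := by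
    intro p hp
    obtain ⟨hp1, hp2⟩ := Finset.mem_product.1 hp
    obtain ⟨⟨a1, a2⟩, a3, a4⟩ := (hAm _).1 hp1
    obtain ⟨⟨b1, b2⟩, b3, b4⟩ := (hAm _).1 hp2
    rcases sym_cross hw'.1 a1 b1 a2.le b2.le (by rw [hw'.2]; exact h) a3 a4 b3 b4 with c | c
    · exact Finset.mem_union_left _ ((hTm p).2 ⟨⟨⟨a1, a2⟩, b1, b2⟩, a1, b1, c, a3, b3⟩)
    · refine Finset.mem_union_right _ (Finset.mem_image.2 ⟨(p.1, neg p.2), ?_, ?_⟩)
      · refine (hTm _).2 ⟨⟨⟨a1, a2⟩, neg_mem_saws b1, ?_⟩, a1, neg_mem_saws b1, c, a3, b4⟩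
        show (neg p.2).length = n
        rw [neg_length, b2]
      · show (p.1, neg (neg p.2)) = p
        rw [neg_neg]
  calc A.card ^ 2 = (A ×ˢ A).card := by rw [Finset.card_product, sq]
    _ ≤ (T ∪ T.image (fun p => (p.1, neg p.2))).card := Finset.card_le_card h1
    _ ≤ T.card + (T.image (fun p => (p.1, neg p.2))).card := Finset.card_union_le _ _
    _ ≤ T.card + T.card := Nat.add_le_add_left Finset.card_image_le _
    _ = 2 * T.card := by ring

theorem pair_sq (t : Bool) {m n : ℕ} (h : (2 * n + 1) ^ 2 ≤ m) :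
    paircnt t m n ^ 2 ≤ 2 * cnt (saws t) m * cnt3 t m n n := by
  classical
  rw [Pair_paircnt, Pair_cnt3, ← Pair_card t m]
  calc (∑ w ∈ Pair_fin t m,
        ((Pair_fin t n).filter fun u => Disj w u ∧ Disj w (neg u)).card) ^ 2
      ≤ (Pair_fin t m).card * ∑ w ∈ Pair_fin t m,
        ((Pair_fin t n).filter fun u => Disj w u ∧ Disj w (neg u)).card ^ 2 :=
        sq_sum_le_card_mul_sum_sq
    _ ≤ (Pair_fin t m).card * ∑ w ∈ Pair_fin t m,
        2 * ((Pair_fin t n ×ˢ Pair_fin t n).filter fun p => p ∈ avoiding t w).card :=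
        Nat.mul_le_mul_left _ (Finset.sum_le_sum fun w hw => Pair_local h hw)
    _ = 2 * (Pair_fin t m).card * ∑ w ∈ Pair_fin t m,
        ((Pair_fin t n ×ˢ Pair_fin t n).filter fun p => p ∈ avoiding t w).card := by
        rw [← Finset.mul_sum]
        ring

private theorem Pair_finite (t : Bool) (m n : ℕ) :
    {p : List (ℤ × ℤ) × List (ℤ × ℤ) | p.1 ∈ saws t ∧ p.2 ∈ saws t ∧ Disj p.1 p.2 ∧
      p.1.length = m ∧ p.2.length = n}.Finite := by
  refine (Finset.finite_toSet (Pair_fin t m ×ˢ Pair_fin t n)).subset ?_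
  intro p hp
  exact Finset.mem_coe.2 (Finset.mem_product.2 ⟨Pair_mem.2 ⟨hp.1, hp.2.2.2.1⟩,
    Pair_mem.2 ⟨hp.2.1, hp.2.2.2.2⟩⟩)

private theorem Pair_pre {u v r s : List (ℤ × ℤ)} (h : Disj (u ++ r) (v ++ s)) : Disj u v := by
  intro p q r' s' hp hq hpq
  exact h p q (r' ++ r) (s' ++ s) (by rw [hp]; simp) (by rw [hq]; simp) hpq

theorem pair_restrict (t : Bool) (i j a b : ℕ) :
    paircnt t (i + a) (j + b) ≤ paircnt t i j * (cnt (saws t) a * cnt (saws t) b) := by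
  unfold paircnt cnt
  rw [← Set.ncard_prod, ← Set.ncard_prod]
  refine Set.ncard_le_ncard_of_injOn
    (fun p => ((p.1.take i, p.2.take j), (p.1.drop i, p.2.drop j))) ?_ ?_ ?_
  · intro p hp
    obtain ⟨h1, h2, h3, h4, h5, h6⟩ := hp
    have e1 : p.1 = p.1.take i ++ p.1.drop i := (List.take_append_drop i p.1).symm
    have e2 : p.2 = p.2.take j ++ p.2.drop j := (List.take_append_drop j p.2).symm
    refine ⟨⟨?_, ?_, ?_, ?_, ?_, ?_⟩, ⟨?_, ?_⟩, ?_, ?_⟩
    · rw [e1] at h1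
      exact saws_append_left h1
    · rw [e2] at h2
      exact saws_append_left h2
    · rw [e1, e2] at h3
      exact Pair_pre h3
    · rw [e1, e2, neg_append] at h4
      exact Pair_pre h4
    · simp [h5]
    · simp [h6]
    · rw [e1] at h1
      exact saws_append_right h1
    · simp [h5]
    · rw [e2] at h2
      exact saws_append_right h2
    · simp [h6]
  · intro p _ q _ hpq
    simp only [Prod.mk.injEq] at hpq
    obtain ⟨⟨h1, h2⟩, h3, h4⟩ := hpq
    refine Prod.ext ?_ ?_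
    · rw [← List.take_append_drop i p.1, ← List.take_append_drop i q.1, h1, h3]
    · rw [← List.take_append_drop j p.2, ← List.take_append_drop j q.2, h2, h4]
  · refine Set.Finite.prod ?_ (Set.Finite.prod ?_ ?_)
    · exact (Pair_finite t i j).subset fun p hp => ⟨hp.1, hp.2.1, hp.2.2.1, hp.2.2.2.2⟩
    · exact finite_words (saws t) (steps_of_saws t) a
    · exact finite_words (saws t) (steps_of_saws t) b

theorem pair_le (t : Bool) (n : ℕ) : paircnt t n n ≤ cnt (saws t) (n + n) := by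
  refine le_trans ?_ (pairs_le t n n)
  unfold paircnt
  exact Set.ncard_le_ncard (fun p hp => ⟨hp.1, hp.2.1, hp.2.2.1, hp.2.2.2.2⟩)
    (Pair_finite t n n)

theorem uni2 (t : Bool) {ε : ℝ} (hε : 0 < ε) (N : ℕ) :
    ∃ n ≥ N, (paircnt t n n : ℝ) ≤ ε * (cnt (saws t) n : ℝ) ^ 2 := by
  by_contra hcon
  push Not at hcon
  obtain ⟨C, hC1, hC⟩ := dichotomy t hε (n₀ := N) (fun n hn => (hcon n hn).le.trans
    (by exact_mod_cast pair_le t n))
  have hC0 : 0 < C := by linarith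
  have hmu1 := one_le_mu t
  have hmu0 : 0 < mu t := by linarith
  have hge : ∀ n, mu t ^ n ≤ (cnt (saws t) n : ℝ) := mu_pow_le t
  have hpos : ∀ n : ℕ, 0 < mu t ^ n := fun n => pow_pos hmu0 n
  -- lower bound of all pair counts
  have hq : ∀ i j : ℕ, ε * mu t ^ (i + j) ≤ C ^ 2 * (paircnt t i j : ℝ) := by
    intro i j
    obtain ⟨n, hnN, hni, hnj⟩ : ∃ n, N ≤ n ∧ i ≤ n ∧ j ≤ n :=
      ⟨max N (max i j), le_max_left _ _, (le_max_left _ _).trans (le_max_right _ _),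
        (le_max_right _ _).trans (le_max_right _ _)⟩
    have h1 := pair_restrict t i j (n - i) (n - j)
    rw [Nat.add_sub_cancel' hni, Nat.add_sub_cancel' hnj] at h1
    have h2 : (paircnt t n n : ℝ) ≤
        (paircnt t i j : ℝ) * ((cnt (saws t) (n - i) : ℝ) * (cnt (saws t) (n - j) : ℝ)) := by
      exact_mod_cast h1
    have h3 := hcon n hnN
    have h4 : (mu t ^ n) ^ 2 ≤ (cnt (saws t) n : ℝ) ^ 2 :=
      pow_le_pow_left₀ (hpos n).le (hge n) 2
    have h5 : (cnt (saws t) (n - i) : ℝ) * (cnt (saws t) (n - j) : ℝ) ≤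
        (C * mu t ^ (n - i)) * (C * mu t ^ (n - j)) :=
      mul_le_mul (hC _) (hC _) (Nat.cast_nonneg _) (mul_pos hC0 (hpos _)).le
    have h6 : ε * (mu t ^ n) ^ 2 ≤
        (paircnt t i j : ℝ) * ((C * mu t ^ (n - i)) * (C * mu t ^ (n - j))) :=
      calc ε * (mu t ^ n) ^ 2 ≤ ε * (cnt (saws t) n : ℝ) ^ 2 :=
            mul_le_mul_of_nonneg_left h4 hε.le
        _ ≤ (paircnt t n n : ℝ) := h3.le
        _ ≤ _ := h2
        _ ≤ _ := mul_le_mul_of_nonneg_left h5 (Nat.cast_nonneg _)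
    have h7 : (mu t ^ n) ^ 2 = mu t ^ (i + j) * (mu t ^ (n - i) * mu t ^ (n - j)) := by
      rw [← pow_mul, ← pow_add, ← pow_add]
      congr 1
      omega
    have h8 : 0 < mu t ^ (n - i) * mu t ^ (n - j) := mul_pos (hpos _) (hpos _)
    rw [h7] at h6
    refine le_of_mul_le_mul_right ?_ h8
    calc ε * mu t ^ (i + j) * (mu t ^ (n - i) * mu t ^ (n - j))
        = ε * (mu t ^ (i + j) * (mu t ^ (n - i) * mu t ^ (n - j))) := by ring
      _ ≤ (paircnt t i j : ℝ) * ((C * mu t ^ (n - i)) * (C * mu t ^ (n - j))) := h6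
      _ = C ^ 2 * (paircnt t i j : ℝ) * (mu t ^ (n - i) * mu t ^ (n - j)) := by ring
  -- lower bound of the number of triples
  have h3 : ∀ n : ℕ, ε ^ 2 / (2 * C ^ 8) * mu t ^ (3 * n) ≤ (cnt3 t n n n : ℝ) := by
    intro n
    obtain ⟨m, hm⟩ : ∃ m, m = (2 * n + 1) ^ 2 := ⟨_, rfl⟩
    have hnm : n ≤ m := by
      rw [hm]
      nlinarith
    have g1 := pair_sq t (m := m) (n := n) hm.ge
    have g2 : (paircnt t m n : ℝ) ^ 2 ≤ 2 * (cnt (saws t) m : ℝ) * (cnt3 t m n n : ℝ) := by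
      exact_mod_cast g1
    have g3 := cnt3_restrict t n n n (m - n) 0 0
    rw [Nat.add_sub_cancel' hnm, Nat.add_zero] at g3
    have g4 : (cnt3 t m n n : ℝ) ≤ (cnt3 t n n n : ℝ) *
        ((cnt (saws t) (m - n) : ℝ) * (cnt (saws t) 0 : ℝ) * (cnt (saws t) 0 : ℝ)) := by
      exact_mod_cast g3
    have g0 : (cnt (saws t) 0 : ℝ) ≤ C := by
      have := hC 0
      rwa [pow_zero, mul_one] at this
    have g5 : (cnt (saws t) (m - n) : ℝ) * (cnt (saws t) 0 : ℝ) * (cnt (saws t) 0 : ℝ) ≤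
        (C * mu t ^ (m - n)) * C * C := by
      refine mul_le_mul (mul_le_mul (hC _) g0 (Nat.cast_nonneg _) ?_) g0 (Nat.cast_nonneg _) ?_
      · exact (mul_pos hC0 (hpos _)).le
      · exact (mul_pos (mul_pos hC0 (hpos _)) hC0).le
    have g6 : (cnt3 t m n n : ℝ) ≤ (cnt3 t n n n : ℝ) * ((C * mu t ^ (m - n)) * C * C) :=
      g4.trans (mul_le_mul_of_nonneg_left g5 (Nat.cast_nonneg _))
    have g7 : (ε * mu t ^ (m + n)) ^ 2 ≤ (C ^ 2 * (paircnt t m n : ℝ)) ^ 2 :=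
      pow_le_pow_left₀ (mul_pos hε (hpos _)).le (hq m n) 2
    have g8 : (ε * mu t ^ (m + n)) ^ 2 ≤
        C ^ 4 * (2 * (C * mu t ^ m) * ((cnt3 t n n n : ℝ) * ((C * mu t ^ (m - n)) * C * C))) :=
      calc (ε * mu t ^ (m + n)) ^ 2 ≤ (C ^ 2 * (paircnt t m n : ℝ)) ^ 2 := g7
        _ = C ^ 4 * (paircnt t m n : ℝ) ^ 2 := by ring
        _ ≤ C ^ 4 * (2 * (cnt (saws t) m : ℝ) * (cnt3 t m n n : ℝ)) :=
            mul_le_mul_of_nonneg_left g2 (pow_pos hC0 4).le
        _ ≤ C ^ 4 * (2 * (C * mu t ^ m) *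
            ((cnt3 t n n n : ℝ) * ((C * mu t ^ (m - n)) * C * C))) := by
            refine mul_le_mul_of_nonneg_left ?_ (pow_pos hC0 4).le
            refine mul_le_mul (mul_le_mul_of_nonneg_left (hC m) (by norm_num)) g6
              (Nat.cast_nonneg _) ?_
            exact (mul_pos (by norm_num) (mul_pos hC0 (hpos _))).le
    have g9 : (mu t ^ (m + n)) ^ 2 = mu t ^ (3 * n) * (mu t ^ m * mu t ^ (m - n)) := by
      rw [← pow_mul, ← pow_add, ← pow_add]
      congr 1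
      omega
    have g10 : 0 < mu t ^ m * mu t ^ (m - n) := mul_pos (hpos _) (hpos _)
    have g11 : ε ^ 2 * mu t ^ (3 * n) ≤ 2 * C ^ 8 * (cnt3 t n n n : ℝ) := by
      refine le_of_mul_le_mul_right ?_ g10
      calc ε ^ 2 * mu t ^ (3 * n) * (mu t ^ m * mu t ^ (m - n))
          = (ε * mu t ^ (m + n)) ^ 2 := by rw [mul_pow, g9]; ring
        _ ≤ _ := g8
        _ = 2 * C ^ 8 * (cnt3 t n n n : ℝ) * (mu t ^ m * mu t ^ (m - n)) := by ring
    have g12 : 0 < 2 * C ^ 8 := by positivity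
    calc ε ^ 2 / (2 * C ^ 8) * mu t ^ (3 * n) = ε ^ 2 * mu t ^ (3 * n) / (2 * C ^ 8) := by ring
      _ ≤ (cnt3 t n n n : ℝ) := by
        rw [div_le_iff₀ g12]
        linarith
  obtain ⟨n, -, hn⟩ := uni3 t (ε := ε ^ 2 / (4 * C ^ 11)) (by positivity) 0
  have k1 := h3 n
  have k2 : (cnt (saws t) n : ℝ) ^ 3 ≤ C ^ 3 * mu t ^ (3 * n) := by
    have := pow_le_pow_left₀ (Nat.cast_nonneg _) (hC n) 3
    calc (cnt (saws t) n : ℝ) ^ 3 ≤ (C * mu t ^ n) ^ 3 := this
      _ = C ^ 3 * mu t ^ (3 * n) := by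
        rw [mul_pow, ← pow_mul, mul_comm n 3]
  have k3 : ε ^ 2 / (4 * C ^ 11) * (cnt (saws t) n : ℝ) ^ 3 ≤
      ε ^ 2 / (4 * C ^ 8) * mu t ^ (3 * n) := by
    calc ε ^ 2 / (4 * C ^ 11) * (cnt (saws t) n : ℝ) ^ 3
        ≤ ε ^ 2 / (4 * C ^ 11) * (C ^ 3 * mu t ^ (3 * n)) :=
          mul_le_mul_of_nonneg_left k2 (by positivity)
      _ = ε ^ 2 / (4 * C ^ 8) * mu t ^ (3 * n) := by
        field_simp
  have k4 : ε ^ 2 / (4 * C ^ 8) * mu t ^ (3 * n) < ε ^ 2 / (2 * C ^ 8) * mu t ^ (3 * n) := by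
    refine mul_lt_mul_of_pos_right ?_ (hpos _)
    refine div_lt_div_of_pos_left (by positivity) (by positivity) ?_
    have : 0 < C ^ 8 := by positivity
    linarith
  linarith

end Pool.Agent.SH3
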