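import Pool.Agent.SH3.Pair
import Pool.Agent.SHP.Final

/-!
# Three walks and symmetrised pairs in the plane
-/

namespace Pool.Agent.SH3.Plane

open Pool.Agent.SHP
open Pool.Agent.SHP.Plane
open scoped ENNReal NNReal

/-- Triples `(w, w', w'')` of self-avoiding paths of lengths `i`, `j`, `k` from the origin which pairwise
have no common vertex except the origin: `w {1, ..., i}` avoids `w' {0, ..., j}` and
`w'' {0, ..., k}`, and `w' {1, ..., j}` avoids `w'' {0, ..., k}`. -/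
def DisjointTriples (L : Set ℂ) (i j k : ℕ) :
    Set ((Fin (i + 1) → ℂ) × (Fin (j + 1) → ℂ) × (Fin (k + 1) → ℂ)) :=
  {p | p.1 ∈ Omega L i ∧ p.2.1 ∈ Omega L j ∧ p.2.2 ∈ Omega L k ∧
    (∀ x y, x ≠ 0 → p.1 x ≠ p.2.1 y) ∧ (∀ x y, x ≠ 0 → p.1 x ≠ p.2.2 y) ∧
    ∀ x y, x ≠ 0 → p.2.1 x ≠ p.2.2 y}

/-- The number of these triples. -/
noncomputable def T (L : Set ℂ) (i j k : ℕ) : ℝ := (DisjointTriples L i j k).ncard

/-- Pairs `(w, w')` of self-avoiding paths of length `n` from the origin such that `w {1, ..., n}` avoids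
`w' {0, ..., n}` and its reflection in the origin. -/
def SymPairs (L : Set ℂ) (n : ℕ) : Set ((Fin (n + 1) → ℂ) × (Fin (n + 1) → ℂ)) :=
  {p | p.1 ∈ Omega L n ∧ p.2 ∈ Omega L n ∧ ∀ x y, x ≠ 0 → p.1 x ≠ p.2 y ∧ p.1 x ≠ - p.2 y}

/-- The number of these pairs. -/
noncomputable def S (L : Set ℂ) (n : ℕ) : ℝ := (SymPairs L n).ncard

/-- Disjointness in terms of words. -/
theorem disj_word {t : Bool} {m n : ℕ} {w : Fin (m + 1) → ℤ × ℤ} {w' : Fin (n + 1) → ℤ × ℤ}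
    (hw : w ∈ Om t m) (hw' : w' ∈ Om t n) :
    (∀ x y, x ≠ 0 → w x ≠ w' y) ↔ Disj (word w) (word w') := by
  have h10 := hw.1
  have h20 := hw'.1
  constructor
  · intro h p q r s hp hq hs
    obtain ⟨i, hi, hi2⟩ := sum_prefix h10 hp
    obtain ⟨j, hj, hj2⟩ := sum_prefix h20 hq
    rw [hi2, hj2] at hs
    have hi0 : i = 0 := by
      by_contra hne
      exact h i j hne hs
    rw [hi0] at hi hs
    rw [h10, ← h20] at hs
    have hj0 : (0 : Fin (n + 1)) = j := hw'.2.2 hs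
    rw [← hj0] at hj
    exact ⟨List.length_eq_zero_iff.mp (by simpa using hi.symm),
      List.length_eq_zero_iff.mp (by simpa using hj.symm)⟩
  · intro h i j hi he
    have h4 := (h ((word w).take i) ((word w').take j) ((word w).drop i) ((word w').drop j)
      (List.take_append_drop _ _).symm (List.take_append_drop _ _).symm
      (by rw [take_word h10, take_word h20]; exact he)).1
    have h5 := congrArg List.length h4
    rw [List.length_take, length_word, List.length_nil] at h5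
    have := i.2
    have h6 : (i : ℕ) ≠ 0 := fun h => hi (Fin.ext h)
    omega

def Tz (t : Bool) (i j k : ℕ) :
    Set ((Fin (i + 1) → ℤ × ℤ) × (Fin (j + 1) → ℤ × ℤ) × (Fin (k + 1) → ℤ × ℤ)) :=
  {p | p.1 ∈ Om t i ∧ p.2.1 ∈ Om t j ∧ p.2.2 ∈ Om t k ∧
    (∀ x y, x ≠ 0 → p.1 x ≠ p.2.1 y) ∧ (∀ x y, x ≠ 0 → p.1 x ≠ p.2.2 y) ∧
    ∀ x y, x ≠ 0 → p.2.1 x ≠ p.2.2 y}

theorem mem_Om_unword {t : Bool} {n : ℕ} {l : List (ℤ × ℤ)} (hl : l ∈ saws t)
    (h : l.length = n) : unword n l ∈ Om t n := by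
  rw [mem_Om_iff, word_unword h]
  exact ⟨unword_zero n l, hl⟩

theorem ncard_Tz (t : Bool) (i j k : ℕ) : (Tz t i j k).ncard = cnt3 t i j k := by
  unfold cnt3
  have himg : (Prod.map (word (n := i)) (Prod.map (word (n := j)) (word (n := k)))) ''
      (Tz t i j k) = {p : List (ℤ × ℤ) × (List (ℤ × ℤ) × List (ℤ × ℤ)) |
    p.1 ∈ saws t ∧ p.2 ∈ avoiding t p.1 ∧ p.1.length = i ∧ p.2.1.length = j ∧
      p.2.2.length = k} := by
    ext ⟨a, b, c⟩
    constructor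
    · rintro ⟨⟨w, w', w''⟩, ⟨h1, h2, h3, h4, h5, h6⟩, he⟩
      simp only [Prod.map_apply, Prod.mk.injEq] at he h1 h2 h3 h4 h5 h6
      obtain ⟨rfl, rfl, rfl⟩ := he
      exact ⟨(mem_Om_iff.mp h1).2, ⟨(mem_Om_iff.mp h2).2, (mem_Om_iff.mp h3).2,
        (disj_word h2 h3).1 h6, (disj_word h1 h2).1 h4, (disj_word h1 h3).1 h5⟩,
        length_word w, length_word w', length_word w''⟩
    · rintro ⟨h1, ⟨h2, h3, h4, h5, h6⟩, h7, h8, h9⟩
      simp only at h1 h2 h3 h4 h5 h6 h7 h8 h9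
      refine ⟨(unword i a, unword j b, unword k c), ?_, ?_⟩
      · have e1 := mem_Om_unword h1 h7
        have e2 := mem_Om_unword h2 h8
        have e3 := mem_Om_unword h3 h9
        refine ⟨e1, e2, e3, ?_, ?_, ?_⟩
        · rw [disj_word e1 e2, word_unword h7, word_unword h8]; exact h5
        · rw [disj_word e1 e3, word_unword h7, word_unword h9]; exact h6
        · rw [disj_word e2 e3, word_unword h8, word_unword h9]; exact h4
      · simp only [Prod.map_apply]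
        rw [word_unword h7, word_unword h8, word_unword h9]
  rw [← himg, Set.InjOn.ncard_image]
  rintro ⟨w, w', w''⟩ ⟨h1, h2, h3, -⟩ ⟨x, x', x''⟩ ⟨h1', h2', h3', -⟩ he
  simp only [Prod.map_apply, Prod.mk.injEq] at he h1 h2 h3 h1' h2' h3'
  rw [word_injOn h1.1 h1'.1 he.1, word_injOn h2.1 h2'.1 he.2.1, word_injOn h3.1 h3'.1 he.2.2]

theorem DisjointTriples_eq (t : Bool) (i j k : ℕ) :
    DisjointTriples (lat t) i j k =
      (fun p : (Fin (i + 1) → ℤ × ℤ) × (Fin (j + 1) → ℤ × ℤ) × (Fin (k + 1) → ℤ × ℤ) =>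
        ((fun x => pt t (p.1 x)), (fun x => pt t (p.2.1 x)), (fun x => pt t (p.2.2 x)))) ''
          Tz t i j k := by
  ext ⟨w, w', w''⟩
  constructor
  · rintro ⟨h1, h2, h3, h4, h5, h6⟩
    simp only at h1 h2 h3 h4 h5 h6
    obtain ⟨v, rfl⟩ := exists_of_mem_Omega h1
    obtain ⟨v', rfl⟩ := exists_of_mem_Omega h2
    obtain ⟨v'', rfl⟩ := exists_of_mem_Omega h3
    exact ⟨(v, v', v''), ⟨comp_mem_Omega.1 h1, comp_mem_Omega.1 h2, comp_mem_Omega.1 h3,
      fun x y hx hxy => h4 x y hx (congrArg (pt t) hxy),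
      fun x y hx hxy => h5 x y hx (congrArg (pt t) hxy),
      fun x y hx hxy => h6 x y hx (congrArg (pt t) hxy)⟩, rfl⟩
  · rintro ⟨⟨v, v', v''⟩, ⟨h1, h2, h3, h4, h5, h6⟩, h⟩
    simp only [Prod.mk.injEq] at h h1 h2 h3 h4 h5 h6
    obtain ⟨rfl, rfl, rfl⟩ := h
    exact ⟨comp_mem_Omega.2 h1, comp_mem_Omega.2 h2, comp_mem_Omega.2 h3,
      fun x y hx hxy => h4 x y hx (pt_injective t hxy),
      fun x y hx hxy => h5 x y hx (pt_injective t hxy),
      fun x y hx hxy => h6 x y hx (pt_injective t hxy)⟩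

theorem T_eq (t : Bool) (i j k : ℕ) : T (lat t) i j k = (cnt3 t i j k : ℝ) := by
  unfold T
  rw [DisjointTriples_eq, Set.ncard_image_of_injective, ncard_Tz]
  rintro ⟨w, v, u⟩ ⟨w', v', u'⟩ h
  simp only [Prod.mk.injEq] at h
  rw [comp_injective t i h.1, comp_injective t j h.2.1, comp_injective t k h.2.2]

def Sz (t : Bool) (n : ℕ) : Set ((Fin (n + 1) → ℤ × ℤ) × (Fin (n + 1) → ℤ × ℤ)) :=
  {p | p.1 ∈ Om t n ∧ p.2 ∈ Om t n ∧ ∀ x y, x ≠ 0 → p.1 x ≠ p.2 y ∧ p.1 x ≠ - p.2 y}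

theorem neg_mem_Om {t : Bool} {n : ℕ} {w : Fin (n + 1) → ℤ × ℤ} (hw : w ∈ Om t n) :
    (fun x => - w x) ∈ Om t n := by
  refine ⟨by simp [hw.1], fun i => ?_, fun x y h => hw.2.2 (neg_inj.1 h)⟩
  have := steps_neg (hw.2.1 i)
  simpa [sub_eq_add_neg, add_comm] using this

theorem word_neg {n : ℕ} (w : Fin (n + 1) → ℤ × ℤ) :
    word (fun x => - w x) = neg (word w) := by
  unfold word neg
  rw [List.map_ofFn]
  congr 1
  funext i
  simp only [Function.comp_apply]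
  abel

theorem ncard_Sz (t : Bool) (n : ℕ) : (Sz t n).ncard = paircnt t n n := by
  unfold paircnt
  have himg : (Prod.map (word (n := n)) (word (n := n))) '' (Sz t n) =
      {p : List (ℤ × ℤ) × List (ℤ × ℤ) |
    p.1 ∈ saws t ∧ p.2 ∈ saws t ∧ Disj p.1 p.2 ∧ Disj p.1 (neg p.2) ∧ p.1.length = n ∧
      p.2.length = n} := by
    ext ⟨a, b⟩
    constructor
    · rintro ⟨⟨w, w'⟩, ⟨h1, h2, h3⟩, he⟩
      simp only [Prod.map_apply, Prod.mk.injEq] at he h1 h2 h3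
      obtain ⟨rfl, rfl⟩ := he
      refine ⟨(mem_Om_iff.mp h1).2, (mem_Om_iff.mp h2).2,
        (disj_word h1 h2).1 fun x y hx => (h3 x y hx).1, ?_, length_word w, length_word w'⟩
      rw [← word_neg]
      exact (disj_word h1 (neg_mem_Om h2)).1 fun x y hx => (h3 x y hx).2
    · rintro ⟨h1, h2, h3, h4, h5, h6⟩
      simp only at h1 h2 h3 h4 h5 h6
      refine ⟨(unword n a, unword n b), ?_, ?_⟩
      · have e1 := mem_Om_unword h1 h5
        have e2 := mem_Om_unword h2 h6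
        refine ⟨e1, e2, fun x y hx => ⟨?_, ?_⟩⟩
        · refine (disj_word e1 e2).2 ?_ x y hx
          rw [word_unword h5, word_unword h6]; exact h3
        · refine (disj_word e1 (neg_mem_Om e2)).2 ?_ x y hx
          rw [word_neg, word_unword h5, word_unword h6]; exact h4
      · simp only [Prod.map_apply]
        rw [word_unword h5, word_unword h6]
  rw [← himg, Set.InjOn.ncard_image]
  rintro ⟨w, w'⟩ ⟨h1, h2, -⟩ ⟨x, x'⟩ ⟨h1', h2', -⟩ he
  simp only [Prod.map_apply, Prod.mk.injEq] at he h1 h2 h1' h2'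
  rw [word_injOn h1.1 h1'.1 he.1, word_injOn h2.1 h2'.1 he.2]

theorem pt_neg (t : Bool) (p : ℤ × ℤ) : pt t (-p) = - pt t p := by
  have := pt_sub t 0 p
  rwa [zero_sub, pt_zero, zero_sub] at this

theorem SymPairs_eq (t : Bool) (n : ℕ) :
    SymPairs (lat t) n = (fun p : (Fin (n + 1) → ℤ × ℤ) × (Fin (n + 1) → ℤ × ℤ) =>
        ((fun x => pt t (p.1 x)), (fun x => pt t (p.2 x)))) '' Sz t n := by
  ext ⟨w, w'⟩
  constructor
  · rintro ⟨h1, h2, h3⟩
    simp only at h1 h2 h3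
    obtain ⟨v, rfl⟩ := exists_of_mem_Omega h1
    obtain ⟨v', rfl⟩ := exists_of_mem_Omega h2
    refine ⟨(v, v'), ⟨comp_mem_Omega.1 h1, comp_mem_Omega.1 h2, fun x y hx =>
      ⟨fun hxy => (h3 x y hx).1 (congrArg (pt t) hxy), fun hxy => (h3 x y hx).2 ?_⟩⟩, rfl⟩
    simp only at hxy ⊢
    rw [hxy, pt_neg]
  · rintro ⟨⟨v, v'⟩, ⟨h1, h2, h3⟩, h⟩
    simp only [Prod.mk.injEq] at h h1 h2 h3
    obtain ⟨rfl, rfl⟩ := h
    refine ⟨comp_mem_Omega.2 h1, comp_mem_Omega.2 h2, fun x y hx =>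
      ⟨fun hxy => (h3 x y hx).1 (pt_injective t hxy), fun hxy => (h3 x y hx).2 ?_⟩⟩
    rw [← pt_neg] at hxy
    exact pt_injective t hxy

theorem S_eq (t : Bool) (n : ℕ) : S (lat t) n = (paircnt t n n : ℝ) := by
  unfold S
  rw [SymPairs_eq, Set.ncard_image_of_injective, ncard_Sz]
  rintro ⟨w, v⟩ ⟨w', v'⟩ h
  simp only [Prod.mk.injEq] at h
  rw [comp_injective t n h.1, comp_injective t n h.2]

theorem a_pos (t : Bool) (n : ℕ) : 0 < a (lat t) n := by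
  rw [a_eq]
  exact_mod_cast one_le_cnt t n

theorem three_n (t : Bool) {ε : ℝ} (hε : 0 < ε) (N : ℕ) :
    ∃ n ≥ N, T (lat t) n n n / a (lat t) n ^ 3 ≤ ε := by
  obtain ⟨n, hn, h⟩ := uni3 t hε N
  refine ⟨n, hn, ?_⟩
  rw [div_le_iff₀ (pow_pos (a_pos t n) 3), T_eq, a_eq]
  exact h

theorem sym_n (t : Bool) {ε : ℝ} (hε : 0 < ε) (N : ℕ) :
    ∃ n ≥ N, S (lat t) n / a (lat t) n ^ 2 ≤ ε := by
  obtain ⟨n, hn, h⟩ := uni2 t hε N
  refine ⟨n, hn, ?_⟩
  rw [div_le_iff₀ (pow_pos (a_pos t n) 2), S_eq, a_eq]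
  exact h

end Pool.Agent.SH3.Plane
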