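import Pool.Agent.SH3.Base

/-!
# Records: the second moment of the number of records

Paper proofs.

* `nrec_ge`: let `w = p ++ q`, all steps in `steps t` (so the first coordinate changes by at most one in
  each step, `steps_fst`).  For every integer `0 ≤ c ≤ p.sum.1` let `i_c` be the least index `i` with
  `(w.take i).sum.1 = c` (exists by the discrete intermediate value theorem, or take the least `i` with
  `(w.take i).sum.1 ≥ c`); `w.take i_c` is a record, and different `c` give different indices.  Hence at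
  least `p.sum.1 + 1` records.  If `p.sum.1 < 0` the claim is trivial.  (Alternatively: induction on `p`
  from the right: if `(p ++ [s]).sum.1 ≤ max` of the earlier ones nothing is to be shown, otherwise the
  first coordinate of the last vertex exceeds the maximum by one and `p ++ [s]` is a record.)
* `rec_step` (for arbitrary weights `F`): the map `(w, i) ↦ ((w.take i).reverse, w.drop i)` from pairs
  with `w ∈ saws t`, `i ≤ |w|`, `IsRec (w.take i)` is injective (recover `i` as the length of the first
  component) and lands in `halfs t × saws t`: a start segment of `(w.take i).reverse` is the reversal of an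
  end segment `q` of `w.take i = p ++ q`, and `q.sum.1 = (w.take i).sum.1 - p.sum.1 > 0` if `q ≠ []`.
  (`saws_reverse` in `SHP.Walks`: the reversal of a self-avoiding word is self-avoiding.)
  Write the left side as a sum over the subtype / sigma type of pairs `(w, i)` and use
  `ENNReal.tsum_comp_le_tsum_of_injective`, `ENNReal.tsum_prod`, `ENNReal.tsum_mul_left`.
* `rec_one`: `F = 1`.
* `nrec_sq_le`: if `i_1 < ... < i_N` are the record indices of `w` (`N = nrec w`), then for `j ≤ k` the word
  `(w.take i_k).drop i_j = (w.drop i_j).take (i_k - i_j)` is a record word (its proper start segments `q`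
  satisfy `((w.take i_j) ++ q).sum.1 < (w.take i_k).sum.1`), hence `nrec (w.drop i_j) ≥ N - j + 1` and the
  sum over `j` is at least `N (N + 1) / 2 ≥ N ^ 2 / 2`.
  (Formally: twice the number of pairs `(i, k)` of record indices with `i ≤ k` is at least the number of
  all pairs.)
* `rec_two`: `rec_step` with `F = nrec`, `nrec_sq_le` and `rec_one`.
-/

namespace Pool.Agent.SH3

open Pool.Agent.SHP
open scoped ENNReal NNReal

variable {t : Bool}

theorem nrec_ge {w : List (ℤ × ℤ)} (hw : ∀ s ∈ w, s ∈ steps t) {p q : List (ℤ × ℤ)}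
    (h : w = p ++ q) : p.sum.1 + 1 ≤ (nrec w : ℤ) := by
  classical
  rcases lt_or_ge p.sum.1 0 with hneg | hpos
  · have : (0 : ℤ) ≤ (nrec w : ℤ) := Int.natCast_nonneg _
    omega
  have hex : ∀ c : ℕ, (c : ℤ) ≤ p.sum.1 → ∃ i : ℕ, i ≤ w.length ∧ (w.take i).sum.1 = (c : ℤ) ∧
      IsRec (w.take i) := by
    intro c hc
    have hE : ∃ i : ℕ, (c : ℤ) ≤ (w.take i).sum.1 := ⟨p.length, by
      rw [h, List.take_left']
      · exact hc
      · rfl⟩
    have hmin : ∀ j < Nat.find hE, (w.take j).sum.1 < (c : ℤ) := by
      intro j hj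
      have := Nat.find_min hE hj
      exact not_le.mp this
    have hspec : (c : ℤ) ≤ (w.take (Nat.find hE)).sum.1 := Nat.find_spec hE
    have hle : Nat.find hE ≤ w.length := by
      refine le_trans (Nat.find_min' hE ?_ : _ ≤ p.length) ?_
      · rw [h, List.take_left']
        · exact hc
        · rfl
      · rw [h, List.length_append]
        omega
    have heq : (w.take (Nat.find hE)).sum.1 = (c : ℤ) := by
      rcases Nat.eq_zero_or_pos (Nat.find hE) with h0 | h0
      · rw [h0] at hspec ⊢
        simp only [List.take_zero, List.sum_nil, Prod.fst_zero] at hspec ⊢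
        omega
      · obtain ⟨j, hj⟩ : ∃ j, Nat.find hE = j + 1 := ⟨Nat.find hE - 1, by omega⟩
        have h1 := hmin j (by omega)
        rw [hj] at hspec ⊢
        have hjl : j < w.length := by omega
        rw [List.sum_take_succ w j hjl] at hspec ⊢
        rw [Prod.fst_add] at hspec ⊢
        have h2 := steps_fst (hw _ (List.getElem_mem hjl))
        rcases h2 with h2 | h2 | h2 <;> omega
    refine ⟨Nat.find hE, hle, heq, ?_⟩
    intro a b hab hb
    rw [heq]
    have hla : a.length < Nat.find hE := by
      have := congrArg List.length hab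
      rw [List.length_take, List.length_append] at this
      have hb' : 0 < b.length := List.length_pos_iff.mpr hb
      omega
    have ha : a = w.take a.length := by
      have h3 : (w.take (Nat.find hE)).take a.length = a := by
        rw [hab, List.take_left']
        rfl
      rw [List.take_take, min_eq_left hla.le] at h3
      exact h3.symm
    rw [ha]
    exact hmin _ hla
  choose! f hf using hex
  obtain ⟨n, hn⟩ := Int.eq_ofNat_of_zero_le hpos
  have hcard : ((Finset.range (n + 1)).image f).card ≤
      ((Finset.range (w.length + 1)).filter fun i => IsRec (w.take i)).card := by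
    refine Finset.card_le_card ?_
    intro i hi
    obtain ⟨c, hc, rfl⟩ := Finset.mem_image.1 hi
    have hc' := Finset.mem_range.1 hc
    obtain ⟨h1, h2, h3⟩ := hf c (by omega)
    exact Finset.mem_filter.2 ⟨Finset.mem_range.2 (by omega), h3⟩
  rw [Finset.card_image_of_injOn, Finset.card_range] at hcard
  · unfold nrec
    rw [hn]
    have : ((n + 1 : ℕ) : ℤ) ≤ ((((Finset.range (w.length + 1)).filter fun i =>
      IsRec (w.take i)).card : ℕ) : ℤ) := by exact_mod_cast hcard
    push_cast at this ⊢
    exact this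
  · intro c hc d hd hcd
    have hc' := Finset.mem_range.1 (Finset.mem_coe.1 hc)
    have hd' := Finset.mem_range.1 (Finset.mem_coe.1 hd)
    obtain ⟨-, h2, -⟩ := hf c (by omega)
    obtain ⟨-, h2', -⟩ := hf d (by omega)
    rw [hcd, h2'] at h2
    exact_mod_cast h2.symm

open Classical in
theorem rec_step (F : List (ℤ × ℤ) → ℝ≥0∞) (z : ℝ≥0) :
    wgf (saws t) (fun w => ∑ i ∈ (Finset.range (w.length + 1)).filter fun i => IsRec (w.take i),
      F (w.drop i)) z ≤ gf (halfs t) z * wgf (saws t) F z := by
  set S : Set (saws t × ℕ) := {x | x.2 < (x.1 : List (ℤ × ℤ)).length + 1 ∧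
    IsRec ((x.1 : List (ℤ × ℤ)).take x.2)} with hS
  set g : saws t × ℕ → ℝ≥0∞ := fun x => F ((x.1 : List (ℤ × ℤ)).drop x.2) *
    (z : ℝ≥0∞) ^ (x.1 : List (ℤ × ℤ)).length with hg
  have hL : wgf (saws t) (fun w => ∑ i ∈ (Finset.range (w.length + 1)).filter
      fun i => IsRec (w.take i), F (w.drop i)) z = ∑' x : S, g x := by
    rw [tsum_subtype S g, ENNReal.tsum_prod']
    unfold wgf
    refine tsum_congr fun w => ?_
    rw [tsum_eq_sum (s := (Finset.range ((w : List (ℤ × ℤ)).length + 1)).filter
      fun i => IsRec ((w : List (ℤ × ℤ)).take i)), Finset.sum_mul]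
    · refine Finset.sum_congr rfl fun i hi => ?_
      obtain ⟨h1, h2⟩ := Finset.mem_filter.1 hi
      rw [Set.indicator_of_mem]
      exact ⟨Finset.mem_range.1 h1, h2⟩
    · intro i hi
      rw [Set.indicator_of_notMem]
      intro hmem
      exact hi (Finset.mem_filter.2 ⟨Finset.mem_range.2 hmem.1, hmem.2⟩)
  have hR : gf (halfs t) z * wgf (saws t) F z = ∑' y : halfs t × saws t,
      (z : ℝ≥0∞) ^ (y.1 : List (ℤ × ℤ)).length *
        (F y.2 * (z : ℝ≥0∞) ^ (y.2 : List (ℤ × ℤ)).length) := by
    rw [ENNReal.tsum_prod']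
    unfold gf wgf
    rw [← ENNReal.tsum_mul_right]
    refine tsum_congr fun u => ?_
    exact ENNReal.tsum_mul_left.symm
  have hhalf : ∀ x : S, ((x.1.1 : List (ℤ × ℤ)).take x.1.2).reverse ∈ halfs t := by
    rintro ⟨⟨w, i⟩, hi, hr⟩
    have hi' : i < (w : List (ℤ × ℤ)).length + 1 := hi
    have hr' : IsRec ((w : List (ℤ × ℤ)).take i) := hr
    have hw : (w : List (ℤ × ℤ)).take i ∈ saws t := by
      have := w.2
      rw [← List.take_append_drop i (w : List (ℤ × ℤ))] at this
      exact saws_append_left this
    refine ⟨saws_reverse hw, ?_⟩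
    intro u v huv hu
    show 0 < u.sum.1
    have h1 : (w : List (ℤ × ℤ)).take i = v.reverse ++ u.reverse := by
      have := congrArg List.reverse huv
      rw [List.reverse_reverse, List.reverse_append] at this
      exact this
    have h2 := hr' v.reverse u.reverse h1 (by
      intro h3
      exact hu (List.reverse_eq_nil_iff.1 h3))
    rw [h1, words_sum_fst, List.sum_reverse u] at h2
    linarith
  have hsaw : ∀ x : S, (x.1.1 : List (ℤ × ℤ)).drop x.1.2 ∈ saws t := by
    rintro ⟨⟨w, i⟩, hi, hr⟩
    show (w : List (ℤ × ℤ)).drop i ∈ saws t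
    have := w.2
    rw [← List.take_append_drop i (w : List (ℤ × ℤ))] at this
    exact saws_append_right this
  rw [hL, hR]
  have hI : Function.Injective (fun x : S => ((⟨_, hhalf x⟩, ⟨_, hsaw x⟩) : halfs t × saws t)) := by
    rintro ⟨⟨w, i⟩, hi, hr⟩ ⟨⟨w', i'⟩, hi', hr'⟩ heq
    have hi1 : i < (w : List (ℤ × ℤ)).length + 1 := hi
    have hi1' : i' < (w' : List (ℤ × ℤ)).length + 1 := hi'
    have h1 : ((w : List (ℤ × ℤ)).take i).reverse = ((w' : List (ℤ × ℤ)).take i').reverse :=
      congrArg Subtype.val (congrArg Prod.fst heq)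
    have h2 : (w : List (ℤ × ℤ)).drop i = (w' : List (ℤ × ℤ)).drop i' :=
      congrArg Subtype.val (congrArg Prod.snd heq)
    have h3 := List.reverse_injective h1
    have h4 : i = i' := by
      have := congrArg List.length h3
      rw [List.length_take, List.length_take] at this
      omega
    have h5 : (w : List (ℤ × ℤ)) = w' := by
      rw [← List.take_append_drop i (w : List (ℤ × ℤ)), h3, h2, List.take_append_drop]
    have h6 : w = w' := Subtype.ext h5
    subst h6
    subst h4
    rfl
  refine le_trans (le_of_eq ?_) (ENNReal.tsum_comp_le_tsum_of_injective hI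
    (fun y : halfs t × saws t => (z : ℝ≥0∞) ^ (y.1 : List (ℤ × ℤ)).length *
        (F y.2 * (z : ℝ≥0∞) ^ (y.2 : List (ℤ × ℤ)).length)))
  refine tsum_congr ?_
  rintro ⟨⟨w, i⟩, hi, hr⟩
  have hi1 : i < (w : List (ℤ × ℤ)).length + 1 := hi
  show F ((w : List (ℤ × ℤ)).drop i) * (z : ℝ≥0∞) ^ (w : List (ℤ × ℤ)).length =
    (z : ℝ≥0∞) ^ (((w : List (ℤ × ℤ)).take i).reverse).length *
      (F ((w : List (ℤ × ℤ)).drop i) * (z : ℝ≥0∞) ^ ((w : List (ℤ × ℤ)).drop i).length)
  rw [mul_left_comm, ← pow_add, List.length_reverse, List.length_take, List.length_drop]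
  congr 2
  omega

theorem rec_one (z : ℝ≥0) :
    wgf (saws t) (fun w => (nrec w : ℝ≥0∞)) z ≤ gf (halfs t) z * gf (saws t) z := by
  classical
  have h := rec_step (t := t) (fun _ => 1) z
  have h1 : wgf (saws t) (fun _ => (1 : ℝ≥0∞)) z = gf (saws t) z := by
    rw [wgf_const, one_mul]
  rw [h1] at h
  refine le_trans (le_of_eq ?_) h
  congr 1
  funext w
  rw [Finset.sum_const, nsmul_one]
  rfl

open Classical in
theorem nrec_sq_le (w : List (ℤ × ℤ)) :
    nrec w ^ 2 ≤ 2 * ∑ i ∈ (Finset.range (w.length + 1)).filter fun i => IsRec (w.take i),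
      nrec (w.drop i) := by
  set R : Finset ℕ := (Finset.range (w.length + 1)).filter fun i => IsRec (w.take i) with hR
  have hN : nrec w = R.card := rfl
  have h1 : ∀ i ∈ R, (R.filter fun k => i ≤ k).card ≤ nrec (w.drop i) := by
    intro i hi
    unfold nrec
    refine Finset.card_le_card_of_injOn (fun k => k - i) ?_ ?_
    · intro k hk
      obtain ⟨hk1, hk2⟩ := Finset.mem_filter.1 (Finset.mem_coe.1 hk)
      obtain ⟨hk3, hk4⟩ := Finset.mem_filter.1 hk1
      have hk5 := Finset.mem_range.1 hk3
      refine Finset.mem_coe.2 (Finset.mem_filter.2 ⟨?_, ?_⟩)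
      · rw [Finset.mem_range, List.length_drop]
        show k - i < w.length - i + 1
        omega
      · intro p q hpq hq
        have h2 : w.take k = (w.take i ++ p) ++ q := by
          rw [List.append_assoc, ← hpq]
          have : w.take k = w.take (i + (k - i)) := by
            congr 1
            omega
          rw [this, List.take_add]
        have h3 := hk4 _ _ h2 hq
        rw [h2] at h3
        rw [hpq]
        rw [words_sum_fst, words_sum_fst (w.take i ++ p) q, words_sum_fst] at h3
        rw [words_sum_fst]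
        omega
    · intro a ha b hb hab
      obtain ⟨-, ha2⟩ := Finset.mem_filter.1 (Finset.mem_coe.1 ha)
      obtain ⟨-, hb2⟩ := Finset.mem_filter.1 (Finset.mem_coe.1 hb)
      have hab' : a - i = b - i := hab
      omega
  have h2 : ∑ i ∈ R, (R.filter fun k => i ≤ k).card ≤ ∑ i ∈ R, nrec (w.drop i) :=
    Finset.sum_le_sum h1
  have h3 : ∑ i ∈ R, (R.filter fun k => i ≤ k).card = ∑ i ∈ R, ∑ k ∈ R, if i ≤ k then 1 else 0 := by
    refine Finset.sum_congr rfl fun i _ => ?_
    rw [Finset.card_filter]
  have h4 : ∑ i ∈ R, ∑ k ∈ R, (if i ≤ k then 1 else 0) =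
      ∑ i ∈ R, ∑ k ∈ R, (if k ≤ i then 1 else 0) := Finset.sum_comm
  have h5 : R.card ^ 2 ≤ ∑ i ∈ R, ∑ k ∈ R, (if i ≤ k then 1 else 0) +
      ∑ i ∈ R, ∑ k ∈ R, (if k ≤ i then 1 else 0) := by
    rw [← Finset.sum_add_distrib]
    have : R.card ^ 2 = ∑ i ∈ R, ∑ k ∈ R, 1 := by
      rw [sq]
      simp
    rw [this]
    refine Finset.sum_le_sum fun i _ => ?_
    rw [← Finset.sum_add_distrib]
    refine Finset.sum_le_sum fun k _ => ?_
    rcases le_total i k with h | h
    · rw [if_pos h]
      omega
    · rw [if_pos h]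
      omega
  rw [hN]
  rw [← h4] at h5
  rw [h3] at h2
  omega

theorem rec_two (z : ℝ≥0) :
    wgf (saws t) (fun w => (nrec w : ℝ≥0∞) ^ 2) z ≤
      2 * gf (halfs t) z ^ 2 * gf (saws t) z := by
  classical
  calc wgf (saws t) (fun w => (nrec w : ℝ≥0∞) ^ 2) z
      ≤ wgf (saws t) (fun w => 2 * ∑ i ∈ (Finset.range (w.length + 1)).filter
          fun i => IsRec (w.take i), (nrec (w.drop i) : ℝ≥0∞)) z := by
        refine wgf_le z fun w _ => ?_
        have := nrec_sq_le w
        have h2 : ((nrec w ^ 2 : ℕ) : ℝ≥0∞) ≤ ((2 * ∑ i ∈ (Finset.range (w.length + 1)).filter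
          fun i => IsRec (w.take i), nrec (w.drop i) : ℕ) : ℝ≥0∞) := by
          exact_mod_cast this
        push_cast at h2
        exact h2
    _ = 2 * wgf (saws t) (fun w => ∑ i ∈ (Finset.range (w.length + 1)).filter
          fun i => IsRec (w.take i), (nrec (w.drop i) : ℝ≥0∞)) z := wgf_mul _ _ _ _
    _ ≤ 2 * (gf (halfs t) z * wgf (saws t) (fun w => (nrec w : ℝ≥0∞)) z) :=
        mul_le_mul_right (rec_step (t := t) (fun w => (nrec w : ℝ≥0∞)) z) 2
    _ ≤ 2 * (gf (halfs t) z * (gf (halfs t) z * gf (saws t) z)) :=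
        mul_le_mul_right (mul_le_mul_right (rec_one (t := t) z) _) 2
    _ = 2 * gf (halfs t) z ^ 2 * gf (saws t) z := by ring

end Pool.Agent.SH3
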