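import Pool.Agent.SH3.Base
import Pool.Agent.SHP.Prob

/-!
# Bridge walks with finite mean length stay in a cone

`QQ t` is the law of a sequence of independent irreducible bridges, each with the law
`nu t {l} = zc ^ |l|`.  `Sh ω k` is the height (doubled) reached after `k` bridges and `Tl ω k` their total
length.

Paper proof of `slln_event`.  The random variables `ω ↦ ht t (ω j).sum`, `j ∈ ℕ`, are independent and
identically distributed, with absolute value at most `2 |ω j|` (`steps_bound`; `ht` is additive, `htHom`),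
which is integrable because `wgf (irrs t) length zc < ⊤`; their mean is `0` because the involution
`l ↦ l.map (vrefl t)` maps `irrs t` onto itself, preserves lengths (so it preserves `nu t`) and
reverses the sign of `ht t l.sum` (`sum_map_vrefl`, `ht_vrefl`).  (It preserves `irrs t` because
it preserves `saws t` and the first coordinates of all partial sums, `vrefl_fst`.)  By the strong law of
large numbers (`ProbabilityTheory.strong_law_ae_real`; independence of the coordinates of an infinite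
product: `ProbabilityTheory.iIndepFun_infinitePi` or similar) almost surely
`Sh ω k / k → 0` and `Tl ω k / k → m < ∞`; the latter gives `|ω k| / k → 0`
(`|ω k| / k = (Tl (k+1) / (k+1)) * ((k+1) / k) - Tl k / k`).  Hence almost surely there is a natural
number `M` such that `|Sh ω k| + 2 |ω k| < 2 M + k` and `Tl ω k ≤ M (k + 1)` for all `k`.  The events
`Gd t M M` increase with `M` and their union has probability one, so `QQ t (Gd t M M) ≥ 1 / 2` for
some `M` (`MeasureTheory.tendsto_measure_iUnion_atTop` or a union bound).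
-/

namespace Pool.Agent.SH3

open Pool.Agent.SHP
open scoped ENNReal NNReal
open MeasureTheory

variable {t : Bool}

noncomputable def QQ (t : Bool) : Measure (ℕ → irrs t) := Measure.infinitePi (fun _ : ℕ => nu t)

instance : IsProbabilityMeasure (QQ t) := by unfold QQ; infer_instance

/-- Doubled height after `k` bridges. -/
def Sh (ω : ℕ → irrs t) (k : ℕ) : ℤ := ∑ j ∈ Finset.range k, ht t ((ω j : List (ℤ × ℤ))).sum

/-- Total length of the first `k` bridges. -/
def Tl (ω : ℕ → irrs t) (k : ℕ) : ℕ := ∑ j ∈ Finset.range k, ((ω j : List (ℤ × ℤ))).length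

/-- The good event. -/
def Gd (t : Bool) (M L : ℕ) : Set (ℕ → irrs t) :=
  {ω | ∀ k : ℕ, |Sh ω k| + 2 * (((ω k : List (ℤ × ℤ))).length : ℤ) < 2 * M + k ∧
    Tl ω k ≤ L * (k + 1)}

private theorem Slln_halfs {l : List (ℤ × ℤ)} (h : l ∈ halfs t) : l.map (vrefl t) ∈ halfs t := by
  refine ⟨vrefl_mem_saws h.1, fun u v e hu => ?_⟩
  obtain ⟨a, b, h1, rfl, rfl⟩ := map_eq_append' e
  rw [sum_map_vrefl, vrefl_fst]
  exact h.2 a b h1 (fun h0 => hu (by rw [h0]; rfl))

private theorem Slln_bridges {l : List (ℤ × ℤ)} (h : l ∈ bridges t) :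
    l.map (vrefl t) ∈ bridges t := by
  refine ⟨Slln_halfs h.1, fun u v e => ?_⟩
  obtain ⟨a, b, h1, rfl, rfl⟩ := map_eq_append' e
  rw [sum_map_vrefl, vrefl_fst]
  exact h.2 a b h1

private theorem Slln_map_map (l : List (ℤ × ℤ)) : (l.map (vrefl t)).map (vrefl t) = l := by
  rw [List.map_map]
  have : vrefl t ∘ vrefl t = id := funext fun p => vrefl_vrefl t p
  rw [this, List.map_id]

private theorem Slln_bridges_iff {l : List (ℤ × ℤ)} :
    l.map (vrefl t) ∈ bridges t ↔ l ∈ bridges t :=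
  ⟨fun h => by
    have := Slln_bridges h
    rwa [Slln_map_map] at this, Slln_bridges⟩

/-- The reflection of an irreducible bridge. -/
theorem vrefl_mem_irrs {l : List (ℤ × ℤ)} (h : l ∈ irrs t) : l.map (vrefl t) ∈ irrs t := by
  refine ⟨Slln_bridges h.1, fun h0 => h.2.1 (List.map_eq_nil_iff.1 h0), fun u v e hu hv => ?_⟩
  obtain ⟨a, b, h1, rfl, rfl⟩ := map_eq_append' e
  rcases h.2.2 a b h1 (Slln_bridges_iff.1 hu) (Slln_bridges_iff.1 hv) with h2 | h2
  · left
    rw [h2]
    rfl
  · right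
    rw [h2]
    rfl

private theorem Slln_ht_bound {l : List (ℤ × ℤ)} (h : ∀ s ∈ l, s ∈ steps t) :
    |ht t l.sum| ≤ 2 * (l.length : ℤ) := by
  induction l with
  | nil =>
    have : ht t ([] : List (ℤ × ℤ)).sum = 0 := (htHom t).map_zero
    rw [this]
    simp
  | cons s l ih =>
    have h1 : ht t (s :: l).sum = ht t s + ht t l.sum := by
      rw [List.sum_cons]
      exact (htHom t).map_add s l.sum
    have h2 := (steps_bound (h s List.mem_cons_self)).2.2
    have h3 := ih (fun x hx => h x (List.mem_cons_of_mem s hx))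
    rw [h1, List.length_cons]
    have h4 := abs_add_le (ht t s) (ht t l.sum)
    push_cast
    linarith

/-- The reflection as a permutation of the irreducible bridges. -/
private def SllnPerm (t : Bool) : Equiv.Perm (irrs t) :=
  Function.Involutive.toPerm
    (fun l => (⟨(l : List (ℤ × ℤ)).map (vrefl t), vrefl_mem_irrs l.2⟩ : irrs t))
    (fun l => Subtype.ext (Slln_map_map (l : List (ℤ × ℤ))))

private theorem Slln_perm_coe (l : irrs t) :
    ((SllnPerm t l : irrs t) : List (ℤ × ℤ)) = (l : List (ℤ × ℤ)).map (vrefl t) := rfl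

private theorem Slln_perm_perm (l : irrs t) : SllnPerm t (SllnPerm t l) = l :=
  Subtype.ext (Slln_map_map (l : List (ℤ × ℤ)))

private theorem Slln_map_nu (t : Bool) : (nu t).map (SllnPerm t) = nu t := by
  refine Measure.ext_of_singleton fun l => ?_
  rw [Measure.map_apply Measurable.of_discrete (MeasurableSet.of_discrete)]
  have h1 : (SllnPerm t) ⁻¹' {l} = {SllnPerm t l} := by
    ext x
    rw [Set.mem_preimage, Set.mem_singleton_iff, Set.mem_singleton_iff]
    constructor
    · intro h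
      rw [← h, Slln_perm_perm]
    · intro h
      rw [h, Slln_perm_perm]
  rw [h1, nu_singleton, nu_singleton, Slln_perm_coe, List.length_map]

/-- The height of an irreducible bridge has mean zero. -/
theorem mean_ht (h : wgf (irrs t) (fun l => (l.length : ℝ≥0∞)) (zc t) ≠ ⊤) :
    Integrable (fun l : irrs t => (ht t (l : List (ℤ × ℤ)).sum : ℝ)) (nu t) ∧
    Integrable (fun l : irrs t => ((l : List (ℤ × ℤ)).length : ℝ)) (nu t) ∧
    ∫ l : irrs t, (ht t (l : List (ℤ × ℤ)).sum : ℝ) ∂(nu t) = 0 := by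
  have h1 : Integrable (fun l : irrs t => ((l : List (ℤ × ℤ)).length : ℝ)) (nu t) := by
    refine ⟨Measurable.of_discrete.aestronglyMeasurable, ?_⟩
    unfold HasFiniteIntegral
    rw [lintegral_countable']
    have h2 : ∑' l : irrs t, ‖((l : List (ℤ × ℤ)).length : ℝ)‖ₑ * nu t {l} =
        wgf (irrs t) (fun l => (l.length : ℝ≥0∞)) (zc t) := by
      unfold wgf
      refine tsum_congr fun l => ?_
      rw [nu_singleton, Real.enorm_natCast]
    rw [h2]
    exact lt_top_iff_ne_top.2 h
  have h3 : Integrable (fun l : irrs t => (ht t (l : List (ℤ × ℤ)).sum : ℝ)) (nu t) := by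
    refine Integrable.mono' (h1.const_mul 2) Measurable.of_discrete.aestronglyMeasurable
      (Filter.Eventually.of_forall fun l => ?_)
    have h4 := Slln_ht_bound (t := t) l.2.1.1.1.1
    rw [Real.norm_eq_abs]
    have h5 : ((|ht t (l : List (ℤ × ℤ)).sum| : ℤ) : ℝ) ≤
        ((2 * ((l : List (ℤ × ℤ)).length : ℤ) : ℤ) : ℝ) := by exact_mod_cast h4
    push_cast at h5
    exact h5
  refine ⟨h3, h1, ?_⟩
  have h6 : ∫ l : irrs t, (ht t (l : List (ℤ × ℤ)).sum : ℝ) ∂(nu t) =
      ∫ l : irrs t, (ht t ((SllnPerm t l : irrs t) : List (ℤ × ℤ)).sum : ℝ) ∂(nu t) := by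
    conv_lhs => rw [← Slln_map_nu t]
    rw [integral_map Measurable.of_discrete.aemeasurable
      Measurable.of_discrete.aestronglyMeasurable]
  have h7 : ∀ l : irrs t, (ht t ((SllnPerm t l : irrs t) : List (ℤ × ℤ)).sum : ℝ) =
      -(ht t (l : List (ℤ × ℤ)).sum : ℝ) := by
    intro l
    rw [Slln_perm_coe, sum_map_vrefl, ht_vrefl]
    push_cast
    ring
  simp only [h7] at h6
  rw [integral_neg] at h6
  linarith

private theorem Slln_meas_ht (j : ℕ) :
    Measurable (fun ω : ℕ → irrs t => ht t ((ω j : List (ℤ × ℤ))).sum) :=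
  (Measurable.of_discrete (f := fun l : irrs t => ht t (l : List (ℤ × ℤ)).sum)).comp
    (measurable_pi_apply j)

private theorem Slln_meas_len (j : ℕ) :
    Measurable (fun ω : ℕ → irrs t => ((ω j : List (ℤ × ℤ))).length) :=
  (Measurable.of_discrete (f := fun l : irrs t => (l : List (ℤ × ℤ)).length)).comp
    (measurable_pi_apply j)

private theorem Slln_meas_Sh (k : ℕ) : Measurable (fun ω : ℕ → irrs t => Sh ω k) := by
  unfold Sh
  exact Finset.measurable_sum _ fun j _ => Slln_meas_ht j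

private theorem Slln_meas_Tl (k : ℕ) : Measurable (fun ω : ℕ → irrs t => Tl ω k) := by
  unfold Tl
  exact Finset.measurable_sum _ fun j _ => Slln_meas_len j

theorem measurableSet_Gd (t : Bool) (M L : ℕ) : MeasurableSet (Gd t M L) := by
  have h1 : Gd t M L = ⋂ k : ℕ, {ω : ℕ → irrs t |
      |Sh ω k| + 2 * (((ω k : List (ℤ × ℤ))).length : ℤ) < 2 * M + k ∧ Tl ω k ≤ L * (k + 1)} := by
    ext ω
    simp only [Gd, Set.mem_ofPred_eq, Set.mem_iInter]
  rw [h1]
  refine MeasurableSet.iInter fun k => ?_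
  have h2 : Measurable (fun ω : ℕ → irrs t =>
      (Sh ω k, (((ω k : List (ℤ × ℤ))).length, Tl ω k))) :=
    (Slln_meas_Sh k).prodMk ((Slln_meas_len k).prodMk (Slln_meas_Tl k))
  exact h2 (MeasurableSet.of_discrete (s := {x : ℤ × (ℕ × ℕ) |
    |x.1| + 2 * (x.2.1 : ℤ) < 2 * M + k ∧ x.2.2 ≤ L * (k + 1)}))

private theorem Slln_mono (t : Bool) : Monotone (fun M : ℕ => Gd t M M) := by
  intro M N hMN ω hω k
  obtain ⟨h1, h2⟩ := hω k
  refine ⟨?_, h2.trans (Nat.mul_le_mul_right _ hMN)⟩
  have : (M : ℤ) ≤ N := by exact_mod_cast hMN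
  linarith

/-- Deterministic part. -/
private theorem Slln_det {ω : ℕ → irrs t} {m : ℝ}
    (h1 : Filter.Tendsto (fun n : ℕ => (Sh ω n : ℝ) / n) Filter.atTop (nhds 0))
    (h2 : Filter.Tendsto (fun n : ℕ => (Tl ω n : ℝ) / n) Filter.atTop (nhds m)) :
    ∃ M : ℕ, ω ∈ Gd t M M := by
  have h3 := (Filter.tendsto_add_atTop_iff_nat 1).2 h2
  have e1 : ∀ᶠ n : ℕ in Filter.atTop, |(Sh ω n : ℝ) / n| < 1 / 4 := by
    have := h1.abs
    rw [abs_zero] at this
    exact this.eventually (gt_mem_nhds (by norm_num))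
  have e2 : ∀ᶠ n : ℕ in Filter.atTop, (Tl ω n : ℝ) / n < m + 1 :=
    h2.eventually (gt_mem_nhds (by linarith))
  have e3 : ∀ᶠ n : ℕ in Filter.atTop, (Tl ω (n + 1) : ℝ) / ((n + 1 : ℕ) : ℝ) < m + 1 :=
    h3.eventually (gt_mem_nhds (by linarith))
  have e4 : ∀ᶠ n : ℕ in Filter.atTop,
      (Tl ω (n + 1) : ℝ) / ((n + 1 : ℕ) : ℝ) - (Tl ω n : ℝ) / n < 1 / 8 := by
    have := h3.sub h2
    rw [sub_self] at this
    exact this.eventually (gt_mem_nhds (by norm_num))
  have b1 : BddAbove (Set.range fun n : ℕ =>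
      |(Sh ω n : ℝ)| + 2 * (((ω n : List (ℤ × ℤ))).length : ℝ) - n) := by
    refine Filter.IsBoundedUnder.bddAbove_range ?_
    refine Filter.isBoundedUnder_of_eventually_le (a := 2 * (m + 1)) ?_
    filter_upwards [e1, e2, e3, e4, Filter.eventually_ge_atTop 1] with n a1 a2 a3 a4 a5
    have hn : (0 : ℝ) < n := by exact_mod_cast a5
    have hs : (Tl ω (n + 1) : ℝ) = Tl ω n + (((ω n : List (ℤ × ℤ))).length : ℝ) := by
      unfold Tl
      rw [Finset.sum_range_succ]
      push_cast
      rfl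
    rw [abs_div, abs_of_pos hn, div_lt_iff₀ hn] at a1
    set y : ℝ := (Tl ω n : ℝ) / n with hy
    set y' : ℝ := (Tl ω (n + 1) : ℝ) / ((n + 1 : ℕ) : ℝ) with hy'
    have c1 : (Tl ω n : ℝ) = y * n := by
      rw [hy]
      field_simp
    have c2 : (Tl ω (n + 1) : ℝ) = y' * ((n : ℝ) + 1) := by
      rw [hy']
      push_cast
      field_simp
    have c3 : (((ω n : List (ℤ × ℤ))).length : ℝ) = (y' - y) * n + y' := by
      have : (((ω n : List (ℤ × ℤ))).length : ℝ) = (Tl ω (n + 1) : ℝ) - Tl ω n := by linarith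
      rw [this, c1, c2]
      ring
    have c4 : (y' - y) * n ≤ 1 / 8 * n := mul_le_mul_of_nonneg_right a4.le hn.le
    linarith
  have b2 : BddAbove (Set.range fun n : ℕ => (Tl ω n : ℝ) / n) := h2.bddAbove_range
  obtain ⟨C1, hC1⟩ := b1
  obtain ⟨C2, hC2⟩ := b2
  obtain ⟨M, hM⟩ := exists_nat_gt (max C1 C2)
  have hM1 : C1 < M := (le_max_left _ _).trans_lt hM
  have hM2 : C2 < M := (le_max_right _ _).trans_lt hM
  refine ⟨M, fun k => ⟨?_, ?_⟩⟩
  · have h4 := hC1 ⟨k, rfl⟩
    have h5 : ((|Sh ω k| + 2 * (((ω k : List (ℤ × ℤ))).length : ℤ) : ℤ) : ℝ) <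
        ((2 * (M : ℤ) + k : ℤ) : ℝ) := by
      push_cast
      have : (0 : ℝ) ≤ M := Nat.cast_nonneg M
      simp only at h4
      linarith
    exact_mod_cast h5
  · have h4 := hC2 ⟨k, rfl⟩
    have h5 : (Tl ω k : ℝ) ≤ ((M * (k + 1) : ℕ) : ℝ) := by
      push_cast
      rcases Nat.eq_zero_or_pos k with hk | hk
      · subst hk
        have : Tl ω 0 = 0 := rfl
        rw [this]
        simp
      · have hk' : (0 : ℝ) < k := by exact_mod_cast hk
        simp only at h4
        rw [div_le_iff₀ hk'] at h4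
        have h6 : C2 * k ≤ M * k := mul_le_mul_of_nonneg_right hM2.le hk'.le
        have : (0 : ℝ) ≤ M := Nat.cast_nonneg M
        linarith
    exact_mod_cast h5

private theorem Slln_ae {f : irrs t → ℝ} (hf : Integrable f (nu t)) :
    ∀ᵐ ω ∂(QQ t), Filter.Tendsto (fun n : ℕ => (∑ i ∈ Finset.range n, f (ω i)) / n)
      Filter.atTop (nhds (∫ l, f l ∂(nu t))) := by
  have hmp : ∀ i : ℕ, MeasurePreserving (Function.eval i) (QQ t) (nu t) := fun i =>
    measurePreserving_eval_infinitePi (fun _ : ℕ => nu t) i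
  have hi0 : ∀ i : ℕ, Integrable (fun ω : ℕ → irrs t => f (ω i)) (QQ t) := fun i =>
    (hmp i).integrable_comp_of_integrable hf
  have h := ProbabilityTheory.strong_law_ae_real (μ := QQ t)
    (fun (i : ℕ) (ω : ℕ → irrs t) => f (ω i)) (hi0 0)
    (fun i j hij => (ProbabilityTheory.iIndepFun_infinitePi (P := fun _ : ℕ => nu t)
      (X := fun _ => f) (fun _ => Measurable.of_discrete)).indepFun hij)
    (fun i => by
      refine ⟨(hi0 i).aemeasurable, (hi0 0).aemeasurable, ?_⟩
      have e : ∀ i : ℕ, (QQ t).map (fun ω : ℕ → irrs t => f (ω i)) = (nu t).map f := by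
        intro i
        rw [← (hmp i).map_eq, Measure.map_map Measurable.of_discrete (hmp i).measurable]
        rfl
      rw [e i, e 0])
  have h2 : ∫ ω, f (ω 0) ∂(QQ t) = ∫ l, f l ∂(nu t) := by
    rw [← (hmp 0).map_eq, integral_map (hmp 0).measurable.aemeasurable
      Measurable.of_discrete.aestronglyMeasurable]
  rw [← h2]
  exact h

theorem slln_event (h : wgf (irrs t) (fun l => (l.length : ℝ≥0∞)) (zc t) ≠ ⊤) :
    ∃ M L : ℕ, 0 < L ∧ (1 / 2 : ℝ≥0∞) ≤ QQ t (Gd t M L) := by
  obtain ⟨hi, hl, h0⟩ := mean_ht h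
  have a1 := Slln_ae hi
  have a2 := Slln_ae hl
  rw [h0] at a1
  have a3 : ∀ᵐ ω ∂(QQ t), ω ∈ ⋃ M : ℕ, Gd t M M := by
    filter_upwards [a1, a2] with ω b1 b2
    rw [Set.mem_iUnion]
    refine Slln_det (m := ∫ l : irrs t, ((l : List (ℤ × ℤ)).length : ℝ) ∂(nu t)) ?_ ?_
    · refine b1.congr fun n => ?_
      unfold Sh
      push_cast
      rfl
    · refine b2.congr fun n => ?_
      unfold Tl
      push_cast
      rfl
  have a4 : QQ t (⋃ M : ℕ, Gd t M M) = 1 :=
    (mem_ae_iff_prob_eq_one (MeasurableSet.iUnion fun M => measurableSet_Gd t M M)).1 a3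
  have a5 := tendsto_measure_iUnion_atTop (μ := QQ t) (Slln_mono t)
  rw [a4] at a5
  have a6 : ∀ᶠ M : ℕ in Filter.atTop, (1 / 2 : ℝ≥0∞) < QQ t (Gd t M M) :=
    a5.eventually (lt_mem_nhds (by
      rw [one_div]
      exact ENNReal.inv_lt_one.2 (by norm_num)))
  obtain ⟨M, hM, hM1⟩ := (a6.and (Filter.eventually_ge_atTop 1)).exists
  exact ⟨M, M, hM1, hM.le⟩

end Pool.Agent.SH3
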