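import Pool.Agent.SH3.HoA

/-!
# Three uniform walks of the same length

Write `a n = cnt (saws t) n`, `μ = mu t = 1 / zc t`.

Paper proofs.

* `cnt3_restrict`: `cnt3 (i + a) (j + b) (k + c) ≤ cnt3 i j k * (a_a * a_b * a_c)`: the map
  `(u, v, w) ↦ ((u.take i, v.take j, w.take k), (u.drop i, v.drop j, w.drop k))` is injective
  (`Disj.initial`, `saws_append_left`, `saws_append_right`; compare `cnt_submul` in `SHP.Crit`).
* `pairs_le`: the number of pairs `(u, v)` of walks of lengths `m`, `n` with `Disj u v` is `a (m + n)`,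
  because `(u, v) ↦ rev u ++ v` is injective into the walks of length `m + n` (`rev_append_mem`); only `≤`
  is needed.
* `cnt3_le`: `cnt3 n n n ≤ a (2 n) * a n` (forget the third walk, `pairs_le`).
* `dichotomy`: if `c > 0` and `c a_n ^ 2 ≤ a_{2 n}` for all `n ≥ n₀`, then `a_n ≤ C μ ^ n` for all `n`, for
  some constant `C`.  Proof: let `n ≥ max n₀ 1` and suppose `a_n > K μ ^ n` with `K = 1 / c`, so
  `c a_n / μ ^ n =: θ > 1`.  By induction `c a_{2^k n} ≥ (c a_n) ^ (2^k)` so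
  `a_{2^k n} ≥ K θ ^ (2^k) μ ^ (2^k n)`.  By `cnt_le` (with `δ` so small that
  `(1 + δ / μ) ^ n < θ`), `a_{2^k n} ≤ C' (μ + δ) ^ (2^k n)`, so `K (θ / (1 + δ / μ) ^ n) ^ (2^k) ≤ C'` for all `k`:
  a contradiction.  The finitely many `n < max n₀ 1` are covered by enlarging `C`.
* `gf3_ge`: if `c' μ ^ (i + j + k) ≤ cnt3 i j k` for all `i, j, k`, then
  `c' (1 - ρ)⁻¹ ^ 3 ≤ gf3 t z` for `z < zc`, `ρ = z / zc`: `gf3 t z` is the sum of `z ^ (|u| + |v| + |w|)` over all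
  triples, that is `∑_{i,j,k} cnt3 i j k z ^ (i + j + k)` (partition by the lengths).
* `uni3`: suppose `ε > 0` and `cnt3 n n n > ε a_n ^ 3` for all `n ≥ N`.  By `cnt3_le`,
  `ε a_n ^ 2 ≤ a_{2 n}` for `n ≥ N`, so `a_n ≤ C μ ^ n` for all `n` (`dichotomy`).  For given
  `i, j, k` take `n ≥ N` larger than all: by `cnt3_restrict` (with `a = n - i`, ...)
  `ε μ ^ (3 n) ≤ ε a_n ^ 3 ≤ cnt3 n n n ≤ cnt3 i j k * C ^ 3 μ ^ (3 n - i - j - k)`, so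
  `cnt3 i j k ≥ (ε / C ^ 3) μ ^ (i + j + k)`.  By `gf3_ge`, `gf3 t z ≥ (ε / C ^ 3) (1 - ρ)⁻³`, while
  `gf (saws t) z ≤ C (1 - ρ)⁻¹` (`gf_eq_cnt`).  So `gf3 t z ≥ (ε / C ^ 6) gf (saws t) z ^ 3` for all
  `z < zc`, a contradiction to `three_small` (the generating functions are finite and positive).
-/

namespace Pool.Agent.SH3

open Pool.Agent.SHP
open scoped ENNReal NNReal

variable {t : Bool}

private theorem Uni_fin (t : Bool) (n : ℕ) : {l | l ∈ saws t ∧ l.length = n}.Finite :=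
  finite_words (t := t) (saws t) (fun _ hl => hl.1) n

private def Uni_T (t : Bool) (i j k : ℕ) : Set (List (ℤ × ℤ) × (List (ℤ × ℤ) × List (ℤ × ℤ))) :=
  {p | p.1 ∈ saws t ∧ p.2 ∈ avoiding t p.1 ∧ p.1.length = i ∧ p.2.1.length = j ∧ p.2.2.length = k}

private theorem Uni_T_fin (t : Bool) (i j k : ℕ) : (Uni_T t i j k).Finite := by
  refine ((Uni_fin t i).prod ((Uni_fin t j).prod (Uni_fin t k))).subset ?_
  rintro ⟨u, v, w⟩ ⟨h1, ⟨h2, h3, _⟩, h4, h5, h6⟩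
  exact ⟨⟨h1, h4⟩, ⟨h2, h5⟩, ⟨h3, h6⟩⟩

private theorem Uni_cnt3 (t : Bool) (i j k : ℕ) : cnt3 t i j k = (Uni_T t i j k).ncard := rfl

private theorem Uni_take {l : List (ℤ × ℤ)} (h : l ∈ saws t) (m : ℕ) : l.take m ∈ saws t := by
  have h' : l.take m ++ l.drop m ∈ saws t := by rw [List.take_append_drop]; exact h
  exact saws_append_left h'

private theorem Uni_drop {l : List (ℤ × ℤ)} (h : l ∈ saws t) (m : ℕ) : l.drop m ∈ saws t := by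
  have h' : l.take m ++ l.drop m ∈ saws t := by rw [List.take_append_drop]; exact h
  exact saws_append_right h'

private theorem Uni_disj {u v : List (ℤ × ℤ)} (h : Disj u v) (i j : ℕ) :
    Disj (u.take i) (v.take j) := by
  have h' : Disj (u.take i ++ u.drop i) (v.take j ++ v.drop j) := by
    rw [List.take_append_drop, List.take_append_drop]; exact h
  exact Disj.initial h'

theorem cnt3_restrict (t : Bool) (i j k a b c : ℕ) :
    cnt3 t (i + a) (j + b) (k + c) ≤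
      cnt3 t i j k * (cnt (saws t) a * cnt (saws t) b * cnt (saws t) c) := by
  rw [Uni_cnt3, Uni_cnt3]
  unfold cnt
  rw [← Set.ncard_prod, ← Set.ncard_prod, ← Set.ncard_prod]
  refine Set.ncard_le_ncard_of_injOn
    (fun p => ((p.1.take i, (p.2.1.take j, p.2.2.take k)),
      ((p.1.drop i, p.2.1.drop j), p.2.2.drop k))) ?_ ?_
    ((Uni_T_fin t i j k).prod (((Uni_fin t a).prod (Uni_fin t b)).prod (Uni_fin t c)))
  · rintro ⟨u, v, w⟩ ⟨h1, ⟨h2, h3, h4, h5, h6⟩, h7, h8, h9⟩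
    dsimp only at h1 h2 h3 h4 h5 h6 h7 h8 h9
    refine ⟨⟨Uni_take h1 i, ⟨Uni_take h2 j, Uni_take h3 k, Uni_disj h4 j k, Uni_disj h5 i j,
      Uni_disj h6 i k⟩, ?_, ?_, ?_⟩, ⟨⟨Uni_drop h1 i, ?_⟩, ⟨Uni_drop h2 j, ?_⟩⟩,
      ⟨Uni_drop h3 k, ?_⟩⟩
    · show (u.take i).length = i
      rw [List.length_take, h7]; omega
    · show (v.take j).length = j
      rw [List.length_take, h8]; omega
    · show (w.take k).length = k
      rw [List.length_take, h9]; omega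
    · show (u.drop i).length = a
      rw [List.length_drop, h7]; omega
    · show (v.drop j).length = b
      rw [List.length_drop, h8]; omega
    · show (w.drop k).length = c
      rw [List.length_drop, h9]; omega
  · rintro ⟨u, v, w⟩ _ ⟨u', v', w'⟩ _ h
    simp only [Prod.mk.injEq] at h
    obtain ⟨⟨h1, h2, h3⟩, ⟨h4, h5⟩, h6⟩ := h
    rw [← List.take_append_drop i u, ← List.take_append_drop i u', h1, h4,
      ← List.take_append_drop j v, ← List.take_append_drop j v', h2, h5,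
      ← List.take_append_drop k w, ← List.take_append_drop k w', h3, h6]

theorem pairs_le (t : Bool) (m n : ℕ) :
    Set.ncard {p : List (ℤ × ℤ) × List (ℤ × ℤ) | p.1 ∈ saws t ∧ p.2 ∈ saws t ∧ Disj p.1 p.2 ∧
      p.1.length = m ∧ p.2.length = n} ≤ cnt (saws t) (m + n) := by
  unfold cnt
  refine Set.ncard_le_ncard_of_injOn (fun p => rev p.1 ++ p.2) ?_ ?_ (Uni_fin t (m + n))
  · rintro ⟨u, v⟩ ⟨h1, h2, h3, h4, h5⟩
    dsimp only at h1 h2 h3 h4 h5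
    refine ⟨rev_append_mem h1 h2 h3, ?_⟩
    show (rev u ++ v).length = m + n
    rw [List.length_append, rev_length, h4, h5]
  · rintro ⟨u, v⟩ ⟨_, _, _, h4, _⟩ ⟨u', v'⟩ ⟨_, _, _, h4', _⟩ h
    dsimp only at h4 h4' h
    have h1 : (rev u).length = (rev u').length := by
      rw [rev_length, rev_length, h4, h4']
    obtain ⟨h2, h3⟩ := List.append_inj h h1
    rw [rev_injective h2, h3]

theorem cnt3_le (t : Bool) (n : ℕ) : cnt3 t n n n ≤ cnt (saws t) (n + n) * cnt (saws t) n := by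
  refine le_trans ?_ (Nat.mul_le_mul_right _ (pairs_le t n n))
  rw [Uni_cnt3]
  unfold cnt
  rw [← Set.ncard_prod]
  have hfin : {p : List (ℤ × ℤ) × List (ℤ × ℤ) | p.1 ∈ saws t ∧ p.2 ∈ saws t ∧ Disj p.1 p.2 ∧
      p.1.length = n ∧ p.2.length = n}.Finite := by
    refine ((Uni_fin t n).prod (Uni_fin t n)).subset ?_
    rintro ⟨u, v⟩ ⟨h1, h2, _, h4, h5⟩
    exact ⟨⟨h1, h4⟩, ⟨h2, h5⟩⟩
  refine Set.ncard_le_ncard_of_injOn (fun p => ((p.1, p.2.1), p.2.2)) ?_ ?_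
    (hfin.prod (Uni_fin t n))
  · rintro ⟨u, v, w⟩ ⟨h1, ⟨h2, h3, h4, h5, h6⟩, h7, h8, h9⟩
    exact ⟨⟨h1, h2, h5, h7, h8⟩, ⟨h3, h9⟩⟩
  · rintro ⟨u, v, w⟩ _ ⟨u', v', w'⟩ _ h
    simp only [Prod.mk.injEq] at h ⊢
    exact ⟨h.1.1, h.1.2, h.2⟩

private theorem Uni_iter {a : ℕ → ℝ} {c : ℝ} (hc : 0 < c) (ha : ∀ n, 0 ≤ a n) {n₀ : ℕ}
    (h : ∀ n ≥ n₀, c * a n ^ 2 ≤ a (n + n)) {n : ℕ} (hn : n₀ ≤ n) (k : ℕ) :
    (c * a n) ^ (2 ^ k) ≤ c * a (2 ^ k * n) := by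
  induction k with
  | zero => simp
  | succ k ih =>
    have h1 : n₀ ≤ 2 ^ k * n := le_trans hn (Nat.le_mul_of_pos_left n (by positivity))
    have h2 := h (2 ^ k * n) h1
    have e1 : 2 ^ k * n + 2 ^ k * n = 2 ^ (k + 1) * n := by ring
    rw [e1] at h2
    calc (c * a n) ^ (2 ^ (k + 1)) = ((c * a n) ^ (2 ^ k)) ^ 2 := by rw [← pow_mul, pow_succ]
      _ ≤ (c * a (2 ^ k * n)) ^ 2 :=
        pow_le_pow_left₀ (pow_nonneg (mul_nonneg hc.le (ha n)) _) ih 2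
      _ = c * (c * a (2 ^ k * n) ^ 2) := by ring
      _ ≤ c * a (2 ^ (k + 1) * n) := mul_le_mul_of_nonneg_left h2 hc.le

theorem dichotomy (t : Bool) {c : ℝ} (hc : 0 < c) {n₀ : ℕ}
    (h : ∀ n ≥ n₀, c * (cnt (saws t) n : ℝ) ^ 2 ≤ (cnt (saws t) (n + n) : ℝ)) :
    ∃ C : ℝ, 1 ≤ C ∧ ∀ n : ℕ, (cnt (saws t) n : ℝ) ≤ C * mu t ^ n := by
  have hmu := one_le_mu t
  have hmu0 : 0 < mu t := by linarith
  have key : ∀ n ≥ n₀, c * (cnt (saws t) n : ℝ) ≤ mu t ^ n := by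
    intro n hn
    by_contra hlt
    rw [not_le] at hlt
    have hp : 0 < mu t ^ n := by positivity
    obtain ⟨r, hr1, hr2⟩ := exists_root (ε := (c * (cnt (saws t) n : ℝ) / mu t ^ n - 1) / 2)
      (by
        have : 1 < c * (cnt (saws t) n : ℝ) / mu t ^ n := by rw [lt_div_iff₀ hp]; linarith
        linarith) n
    have hδ : 0 < mu t * (r - 1) := mul_pos hmu0 (by linarith)
    obtain ⟨C', hC', hcnt⟩ := cnt_le t hδ
    have e1 : mu t + mu t * (r - 1) = mu t * r := by ring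
    rw [e1] at hcnt
    have hq : 0 < (mu t * r) ^ n := by
      have : 0 < r := by linarith
      positivity
    have hy : (mu t * r) ^ n < c * (cnt (saws t) n : ℝ) := by
      rw [mul_pow]
      have h1 : c * (cnt (saws t) n : ℝ) = mu t ^ n * (c * (cnt (saws t) n : ℝ) / mu t ^ n) := by
        field_simp
      rw [h1]
      refine mul_lt_mul_of_pos_left ?_ hp
      have : 1 < c * (cnt (saws t) n : ℝ) / mu t ^ n := by rw [lt_div_iff₀ hp]; linarith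
      linarith
    have hgt : 1 < c * (cnt (saws t) n : ℝ) / (mu t * r) ^ n := by
      rw [lt_div_iff₀ hq]; linarith
    obtain ⟨k, hk⟩ := pow_unbounded_of_one_lt (c * C') hgt
    have h2 : (c * (cnt (saws t) n : ℝ) / (mu t * r) ^ n) ^ k ≤
        (c * (cnt (saws t) n : ℝ) / (mu t * r) ^ n) ^ (2 ^ k) :=
      pow_le_pow_right₀ hgt.le (Nat.lt_two_pow_self).le
    have h3 := Uni_iter hc (fun m => Nat.cast_nonneg (cnt (saws t) m)) h hn k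
    have h4 := hcnt (2 ^ k * n)
    have h5 : (c * (cnt (saws t) n : ℝ) / (mu t * r) ^ n) ^ (2 ^ k) ≤ c * C' := by
      rw [div_pow, div_le_iff₀ (by positivity)]
      calc (c * (cnt (saws t) n : ℝ)) ^ (2 ^ k) ≤ c * (cnt (saws t) (2 ^ k * n) : ℝ) := h3
        _ ≤ c * (C' * (mu t * r) ^ (2 ^ k * n)) := mul_le_mul_of_nonneg_left h4 hc.le
        _ = c * C' * ((mu t * r) ^ n) ^ (2 ^ k) := by rw [← pow_mul, mul_comm n]; ring
    linarith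
  refine ⟨1 + 1 / c + ∑ m ∈ Finset.range n₀, (cnt (saws t) m : ℝ), ?_, ?_⟩
  · have h1 : 0 ≤ ∑ m ∈ Finset.range n₀, (cnt (saws t) m : ℝ) :=
      Finset.sum_nonneg fun m _ => Nat.cast_nonneg _
    have h2 : 0 < 1 / c := by positivity
    linarith
  · intro n
    have h1 : 0 ≤ ∑ m ∈ Finset.range n₀, (cnt (saws t) m : ℝ) :=
      Finset.sum_nonneg fun m _ => Nat.cast_nonneg _
    have h2 : 0 < 1 / c := by positivity
    have h3 : 1 ≤ mu t ^ n := one_le_pow₀ hmu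
    by_cases hn : n₀ ≤ n
    · have h4 := key n hn
      have h5 : (cnt (saws t) n : ℝ) ≤ 1 / c * mu t ^ n := by
        rw [one_div, inv_mul_eq_div, le_div_iff₀ hc]
        linarith
      nlinarith
    · have h4 : (cnt (saws t) n : ℝ) ≤ ∑ m ∈ Finset.range n₀, (cnt (saws t) m : ℝ) :=
        Finset.single_le_sum (f := fun m => (cnt (saws t) m : ℝ)) (fun m _ => Nat.cast_nonneg _)
          (Finset.mem_range.2 (by omega))
      nlinarith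

private theorem Uni_coe_rho {z : ℝ≥0} : ((z / zc t : ℝ≥0) : ℝ) = z * mu t := by
  have h := zc_mul_mu t
  have h1 : ((zc t : ℝ≥0) : ℝ) ≠ 0 := (NNReal.coe_pos.2 (zc_pos t)).ne'
  rw [NNReal.coe_div, div_eq_iff h1, mul_assoc, mul_comm (mu t), h, mul_one]

private def Uni_len (t : Bool) (x : Σ l : saws t, avoiding t l) : ℕ × (ℕ × ℕ) :=
  ((x.1 : List (ℤ × ℤ)).length, (x.2 : List (ℤ × ℤ) × List (ℤ × ℤ)).1.length,
    (x.2 : List (ℤ × ℤ) × List (ℤ × ℤ)).2.length)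

private theorem Uni_fiber (t : Bool) (q : ℕ × (ℕ × ℕ)) :
    (cnt3 t q.1 q.2.1 q.2.2 : ℝ≥0∞) ≤
      ∑' _x : {x : Σ l : saws t, avoiding t l // Uni_len t x = q}, (1 : ℝ≥0∞) := by
  rw [Uni_cnt3]
  have hfin := Uni_T_fin t q.1 q.2.1 q.2.2
  have h1 : ((Uni_T t q.1 q.2.1 q.2.2).ncard : ℝ≥0∞) =
      ∑' _x : Uni_T t q.1 q.2.1 q.2.2, (1 : ℝ≥0∞) := by
    have := hfin.fintype
    rw [tsum_fintype, Finset.sum_const, nsmul_eq_mul, mul_one, ← Nat.card_coe_set_eq,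
      Nat.card_eq_fintype_card]
    rfl
  rw [h1]
  let F : Uni_T t q.1 q.2.1 q.2.2 → {x : Σ l : saws t, avoiding t l // Uni_len t x = q} :=
    fun p => ⟨⟨⟨p.1.1, p.2.1⟩, ⟨p.1.2, p.2.2.1⟩⟩,
      Prod.ext p.2.2.2.1 (Prod.ext p.2.2.2.2.1 p.2.2.2.2.2)⟩
  have hF : Function.Injective F := by
    rintro ⟨⟨u, v⟩, hp⟩ ⟨⟨u', v'⟩, hp'⟩ h
    have h2 := congrArg Subtype.val h
    have h3 : u = u' := congrArg (fun x : Σ l : saws t, avoiding t l => (x.1 : List (ℤ × ℤ))) h2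
    have h4 : v = v' :=
      congrArg (fun x : Σ l : saws t, avoiding t l => (x.2 : List (ℤ × ℤ) × List (ℤ × ℤ))) h2
    subst h3 h4
    rfl
  exact ENNReal.tsum_comp_le_tsum_of_injective hF (fun _ => (1 : ℝ≥0∞))

private theorem Uni_gf3 (z : ℝ≥0) :
    ∑' q : ℕ × (ℕ × ℕ), (cnt3 t q.1 q.2.1 q.2.2 : ℝ≥0∞) * (z : ℝ≥0∞) ^ (q.1 + q.2.1 + q.2.2) ≤
      gf3 t z := by
  have h1 : gf3 t z = ∑' x : Σ l : saws t, avoiding t l,
      (z : ℝ≥0∞) ^ ((Uni_len t x).1 + (Uni_len t x).2.1 + (Uni_len t x).2.2) := by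
    rw [ENNReal.tsum_sigma']
    unfold gf3 wgf tg gf2
    refine tsum_congr fun l => ?_
    rw [← ENNReal.tsum_mul_right]
    refine tsum_congr fun p => ?_
    rw [← pow_add]
    congr 1
    show (p : List (ℤ × ℤ) × List (ℤ × ℤ)).1.length + (p : List (ℤ × ℤ) × List (ℤ × ℤ)).2.length +
      (l : List (ℤ × ℤ)).length = (l : List (ℤ × ℤ)).length +
      (p : List (ℤ × ℤ) × List (ℤ × ℤ)).1.length + (p : List (ℤ × ℤ) × List (ℤ × ℤ)).2.length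
    ring
  rw [h1, ← (Equiv.sigmaFiberEquiv (Uni_len t)).tsum_eq, ENNReal.tsum_sigma']
  refine ENNReal.tsum_le_tsum fun q => ?_
  have h2 : ∀ x : {x : Σ l : saws t, avoiding t l // Uni_len t x = q},
      (z : ℝ≥0∞) ^ ((Uni_len t ((Equiv.sigmaFiberEquiv (Uni_len t)) ⟨q, x⟩)).1 +
        (Uni_len t ((Equiv.sigmaFiberEquiv (Uni_len t)) ⟨q, x⟩)).2.1 +
        (Uni_len t ((Equiv.sigmaFiberEquiv (Uni_len t)) ⟨q, x⟩)).2.2) =
      1 * (z : ℝ≥0∞) ^ (q.1 + q.2.1 + q.2.2) := by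
    intro x
    have : (Equiv.sigmaFiberEquiv (Uni_len t)) ⟨q, x⟩ = (x : Σ l : saws t, avoiding t l) := rfl
    rw [this, x.2, one_mul]
  rw [tsum_congr h2, ENNReal.tsum_mul_right]
  exact mul_le_mul_left (Uni_fiber t q) _

theorem gf3_ge {c : ℝ≥0} (h : ∀ i j k : ℕ, (c : ℝ) * mu t ^ (i + j + k) ≤ (cnt3 t i j k : ℝ))
    {z : ℝ≥0} (hz : z < zc t) :
    (c : ℝ≥0∞) * (1 - ((z / zc t : ℝ≥0) : ℝ≥0∞))⁻¹ ^ 3 ≤ gf3 t z := by
  have _ := hz
  refine le_trans ?_ (Uni_gf3 z)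
  have h1 : (c : ℝ≥0∞) * (1 - ((z / zc t : ℝ≥0) : ℝ≥0∞))⁻¹ ^ 3 =
      ∑' q : ℕ × (ℕ × ℕ), (c : ℝ≥0∞) * (((z / zc t : ℝ≥0) : ℝ≥0∞) ^ q.1 *
        (((z / zc t : ℝ≥0) : ℝ≥0∞) ^ q.2.1 * ((z / zc t : ℝ≥0) : ℝ≥0∞) ^ q.2.2)) := by
    rw [ENNReal.tsum_mul_left, ENNReal.tsum_prod']
    congr 1
    have e1 : ∀ i : ℕ, ∑' b : ℕ × ℕ, ((z / zc t : ℝ≥0) : ℝ≥0∞) ^ i *
        (((z / zc t : ℝ≥0) : ℝ≥0∞) ^ b.1 * ((z / zc t : ℝ≥0) : ℝ≥0∞) ^ b.2) =
        ((z / zc t : ℝ≥0) : ℝ≥0∞) ^ i * ((1 - ((z / zc t : ℝ≥0) : ℝ≥0∞))⁻¹ *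
          (1 - ((z / zc t : ℝ≥0) : ℝ≥0∞))⁻¹) := by
      intro i
      rw [ENNReal.tsum_mul_left, ENNReal.tsum_prod']
      congr 1
      have e2 : ∀ j : ℕ, ∑' k : ℕ, ((z / zc t : ℝ≥0) : ℝ≥0∞) ^ j *
          ((z / zc t : ℝ≥0) : ℝ≥0∞) ^ k =
          ((z / zc t : ℝ≥0) : ℝ≥0∞) ^ j * (1 - ((z / zc t : ℝ≥0) : ℝ≥0∞))⁻¹ := by
        intro j
        rw [ENNReal.tsum_mul_left, ENNReal.tsum_geometric]
      rw [tsum_congr e2, ENNReal.tsum_mul_right, ENNReal.tsum_geometric]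
    rw [tsum_congr e1, ENNReal.tsum_mul_right, ENNReal.tsum_geometric]
    ring
  rw [h1]
  refine ENNReal.tsum_le_tsum fun q => ?_
  have h2 : c * ((z / zc t) ^ q.1 * ((z / zc t) ^ q.2.1 * (z / zc t) ^ q.2.2)) ≤
      (cnt3 t q.1 q.2.1 q.2.2 : ℝ≥0) * z ^ (q.1 + q.2.1 + q.2.2) := by
    rw [← NNReal.coe_le_coe]
    rw [NNReal.coe_mul, NNReal.coe_mul, NNReal.coe_mul, NNReal.coe_pow, NNReal.coe_pow,
      NNReal.coe_pow, NNReal.coe_mul, NNReal.coe_pow, Uni_coe_rho, NNReal.coe_natCast]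
    have h3 := mul_le_mul_of_nonneg_right (h q.1 q.2.1 q.2.2)
      (show (0 : ℝ) ≤ (z : ℝ) ^ (q.1 + q.2.1 + q.2.2) by positivity)
    refine le_trans (le_of_eq ?_) h3
    rw [mul_pow, mul_pow, mul_pow, pow_add, pow_add, pow_add, pow_add]
    ring
  exact_mod_cast h2

private theorem Uni_gf_le {C : ℝ≥0} (h : ∀ n : ℕ, (cnt (saws t) n : ℝ) ≤ C * mu t ^ n)
    (z : ℝ≥0) : gf (saws t) z ≤ (C : ℝ≥0∞) * (1 - ((z / zc t : ℝ≥0) : ℝ≥0∞))⁻¹ := by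
  rw [gf_eq_cnt (t := t) (fun l hl => hl.1), ← ENNReal.tsum_geometric, ← ENNReal.tsum_mul_left]
  refine ENNReal.tsum_le_tsum fun n => ?_
  have h2 : (cnt (saws t) n : ℝ≥0) * z ^ n ≤ C * (z / zc t) ^ n := by
    rw [← NNReal.coe_le_coe]
    rw [NNReal.coe_mul, NNReal.coe_pow, NNReal.coe_mul, NNReal.coe_pow, Uni_coe_rho,
      NNReal.coe_natCast, mul_pow]
    have h3 := mul_le_mul_of_nonneg_right (h n) (show (0 : ℝ) ≤ (z : ℝ) ^ n by positivity)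
    refine h3.trans (le_of_eq ?_)
    ring
  exact_mod_cast h2

private theorem Uni_one_le (z : ℝ≥0) : 1 ≤ gf (saws t) z := by
  rw [gf_eq_cnt (t := t) (fun l hl => hl.1)]
  refine le_trans ?_ (ENNReal.le_tsum 0)
  rw [pow_zero, mul_one]
  exact_mod_cast one_le_cnt t 0

private theorem Uni_low (t : Bool) {ε C : ℝ} (hε : 0 < ε) (hC : 1 ≤ C) (N : ℕ)
    (hcnt : ∀ n : ℕ, (cnt (saws t) n : ℝ) ≤ C * mu t ^ n)
    (h : ∀ n ≥ N, ε * (cnt (saws t) n : ℝ) ^ 3 < (cnt3 t n n n : ℝ)) (i j k : ℕ) :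
    ε / C ^ 3 * mu t ^ (i + j + k) ≤ (cnt3 t i j k : ℝ) := by
  have hmu := one_le_mu t
  have hmu0 : 0 < mu t := by linarith
  have hC0 : 0 < C := by linarith
  obtain ⟨n, hn⟩ : ∃ n, n = N + i + j + k := ⟨_, rfl⟩
  obtain ⟨a, ha⟩ : ∃ a, n = i + a := ⟨N + j + k, by omega⟩
  obtain ⟨b, hb⟩ : ∃ b, n = j + b := ⟨N + i + k, by omega⟩
  obtain ⟨c, hc⟩ : ∃ c, n = k + c := ⟨N + i + j, by omega⟩
  have h1 := cnt3_restrict t i j k a b c
  rw [← ha, ← hb, ← hc] at h1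
  have h1' : (cnt3 t n n n : ℝ) ≤ (cnt3 t i j k : ℝ) *
      ((cnt (saws t) a : ℝ) * (cnt (saws t) b : ℝ) * (cnt (saws t) c : ℝ)) := by
    exact_mod_cast h1
  have h2 := h n (by omega)
  have h3 : ε * (mu t ^ n) ^ 3 ≤ ε * (cnt (saws t) n : ℝ) ^ 3 :=
    mul_le_mul_of_nonneg_left (pow_le_pow_left₀ (by positivity) (mu_pow_le t n) 3) hε.le
  have h4 : (cnt (saws t) a : ℝ) * (cnt (saws t) b : ℝ) * (cnt (saws t) c : ℝ) ≤
      (C * mu t ^ a) * (C * mu t ^ b) * (C * mu t ^ c) := by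
    refine mul_le_mul (mul_le_mul (hcnt a) (hcnt b) (Nat.cast_nonneg _) (by positivity))
      (hcnt c) (Nat.cast_nonneg _) (by positivity)
  have h5 : ε * (mu t ^ n) ^ 3 ≤ (cnt3 t i j k : ℝ) *
      ((C * mu t ^ a) * (C * mu t ^ b) * (C * mu t ^ c)) :=
    (h3.trans h2.le).trans (h1'.trans (mul_le_mul_of_nonneg_left h4 (Nat.cast_nonneg _)))
  have e1 : (mu t ^ n) ^ 3 = mu t ^ (i + j + k) * (mu t ^ a * mu t ^ b * mu t ^ c) := by
    have : (mu t ^ n) ^ 3 = mu t ^ n * mu t ^ n * mu t ^ n := by ring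
    rw [this]
    nth_rewrite 1 [ha]
    nth_rewrite 1 [hb]
    rw [hc, pow_add, pow_add, pow_add, pow_add, pow_add]
    ring
  rw [e1] at h5
  have hX : 0 < mu t ^ a * mu t ^ b * mu t ^ c := by positivity
  have h6 : (ε * mu t ^ (i + j + k)) * (mu t ^ a * mu t ^ b * mu t ^ c) ≤
      ((cnt3 t i j k : ℝ) * C ^ 3) * (mu t ^ a * mu t ^ b * mu t ^ c) := by
    calc _ = ε * (mu t ^ (i + j + k) * (mu t ^ a * mu t ^ b * mu t ^ c)) := by ring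
      _ ≤ _ := h5
      _ = _ := by ring
  have h7 := le_of_mul_le_mul_right h6 hX
  rw [div_mul_eq_mul_div, div_le_iff₀ (by positivity)]
  exact h7

theorem uni3 (t : Bool) {ε : ℝ} (hε : 0 < ε) (N : ℕ) :
    ∃ n ≥ N, (cnt3 t n n n : ℝ) ≤ ε * (cnt (saws t) n : ℝ) ^ 3 := by
  by_contra hcon
  push Not at hcon
  have hd : ∀ n ≥ N, ε * (cnt (saws t) n : ℝ) ^ 2 ≤ (cnt (saws t) (n + n) : ℝ) := by
    intro n hn
    have h1 : (0 : ℝ) < (cnt (saws t) n : ℝ) := by exact_mod_cast one_le_cnt t n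
    have h2 : (cnt3 t n n n : ℝ) ≤ (cnt (saws t) (n + n) : ℝ) * (cnt (saws t) n : ℝ) := by
      exact_mod_cast cnt3_le t n
    have h3 := (hcon n hn).le.trans h2
    have h4 : (ε * (cnt (saws t) n : ℝ) ^ 2) * (cnt (saws t) n : ℝ) ≤
        (cnt (saws t) (n + n) : ℝ) * (cnt (saws t) n : ℝ) := by
      calc _ = ε * (cnt (saws t) n : ℝ) ^ 3 := by ring
        _ ≤ _ := h3
    exact le_of_mul_le_mul_right h4 h1
  obtain ⟨C, hC, hcnt⟩ := dichotomy t hε hd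
  have hC0 : 0 < C := by linarith
  have hlow := Uni_low t hε hC N hcnt hcon
  obtain ⟨c, hc⟩ : ∃ c : ℝ≥0, (c : ℝ) = ε / C ^ 3 := ⟨⟨ε / C ^ 3, by positivity⟩, rfl⟩
  obtain ⟨D, hD⟩ : ∃ D : ℝ≥0, (D : ℝ) = C := ⟨⟨C, hC0.le⟩, rfl⟩
  rw [← hc] at hlow
  rw [← hD] at hcnt
  have hcpos : 0 < c := by
    rw [← NNReal.coe_pos, hc]; positivity
  have hDpos : 0 < D := by
    rw [← NNReal.coe_pos, hD]; exact hC0
  obtain ⟨z₀, hz₀, hsmall⟩ := three_small t (ε := c / D ^ 3 / 2) (by positivity)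
  obtain ⟨z, hz1, hz2⟩ := exists_between hz₀
  have h1 := hsmall z hz1 hz2
  have h2 := gf3_ge hlow hz2
  have h3 := Uni_gf_le hcnt z
  have h4 : ((c / D ^ 3 : ℝ≥0) : ℝ≥0∞) * gf (saws t) z ^ 3 ≤ gf3 t z := by
    refine le_trans ?_ h2
    calc ((c / D ^ 3 : ℝ≥0) : ℝ≥0∞) * gf (saws t) z ^ 3
        ≤ ((c / D ^ 3 : ℝ≥0) : ℝ≥0∞) *
          ((D : ℝ≥0∞) * (1 - ((z / zc t : ℝ≥0) : ℝ≥0∞))⁻¹) ^ 3 := by gcongr
      _ = (((c / D ^ 3 : ℝ≥0) : ℝ≥0∞) * (D : ℝ≥0∞) ^ 3) *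
          (1 - ((z / zc t : ℝ≥0) : ℝ≥0∞))⁻¹ ^ 3 := by rw [mul_pow, mul_assoc]
      _ = (c : ℝ≥0∞) * (1 - ((z / zc t : ℝ≥0) : ℝ≥0∞))⁻¹ ^ 3 := by
        congr 1
        rw [← ENNReal.coe_pow, ← ENNReal.coe_mul]
        congr 1
        field_simp
  have hfin := gf_saws_ne_top t hz2
  obtain ⟨g, hg⟩ : ∃ g : ℝ≥0, (g : ℝ≥0∞) = gf (saws t) z := ⟨_, ENNReal.coe_toNNReal hfin⟩
  rw [← hg] at h1 h4
  have h5 : c / D ^ 3 * g ^ 3 ≤ c / D ^ 3 / 2 * g ^ 3 := by exact_mod_cast h4.trans h1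
  have hg1 : 1 ≤ g := by
    have := Uni_one_le (t := t) z
    rw [← hg] at this
    exact_mod_cast this
  have h6 : c / D ^ 3 / 2 * g ^ 3 < c / D ^ 3 * g ^ 3 := by
    refine mul_lt_mul_of_pos_right ?_ (pow_pos (lt_of_lt_of_le one_pos hg1) 3)
    exact NNReal.half_lt_self (by positivity)
  exact absurd h5 (not_le.2 h6)

end Pool.Agent.SH3
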